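import Mathlib
import Pool.Agent.Lib.Pf72953m.Defs
import Pool.Agent.Lib.Pf72953b.Defs

/-!
Towers of isotrivial fibre spaces: definitions.  All fields are subfields of an algebraically closed field `Ω ⊇ k`.
-/

set_option autoImplicit false
set_option linter.style.haveILetI false

open scoped WithZero
open Pf72953 Pf72953.Mov

namespace Pf72953.Tow

variable {k Ω : Type*} [Field k] [Field Ω] [Algebra k Ω]

/-- the inclusion of subfields of `Ω` as an algebra structure -/
scoped instance algLe {A B : IntermediateField k Ω} [h : Fact (A ≤ B)] : Algebra A B :=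
  (IntermediateField.inclusion h.out).toRingHom.toAlgebra

theorem coe_algebraMap {A B : IntermediateField k Ω} [Fact (A ≤ B)] (x : A) :
    ((algebraMap A B x : B) : Ω) = (x : Ω) := rfl

scoped instance towerK {A B : IntermediateField k Ω} [Fact (A ≤ B)] : IsScalarTower k A B :=
  IsScalarTower.of_algebraMap_eq fun _ => rfl

scoped instance towerABC {A B C : IntermediateField k Ω} [Fact (A ≤ B)] [Fact (B ≤ C)]
    [Fact (A ≤ C)] : IsScalarTower A B C :=
  IsScalarTower.of_algebraMap_eq fun _ => rfl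

scoped instance towerΩ {A B : IntermediateField k Ω} [Fact (A ≤ B)] : IsScalarTower A B Ω :=
  IsScalarTower.of_algebraMap_eq fun _ => rfl

/-- `κ(Q/A) ≥ c`, `A ⊆ Q ⊆ Ω` -/
def KGE (A Q : IntermediateField k Ω) (c : ℕ) : Prop := ∃ _ : Fact (A ≤ Q), KodairaGE A Q c

/-- finitely generated over `k` -/
abbrev Fin' (A : IntermediateField k Ω) : Prop := Algebra.EssFiniteType k A

/-- `A` and `B` are algebraically independent over `k` -/
def Indep (A B : IntermediateField k Ω) : Prop :=
  dimension k (A ⊔ B : IntermediateField k Ω) = dimension k A + dimension k B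

/-- `σ` is the identity on `F` -/
def Fixes (σ : Ω ≃ₐ[k] Ω) (F : IntermediateField k Ω) : Prop := ∀ x ∈ F, σ x = x

/-- `σ(Q) ⊆ Q` -/
def Stab (σ : Ω ≃ₐ[k] Ω) (Q : IntermediateField k Ω) : Prop := ∀ x ∈ Q, σ x ∈ Q

/-- `Q/F` is an algebraic Galois extension -/
structure Gal (F Q : IntermediateField k Ω) : Prop where
  le : F ≤ Q
  alg : ∀ x ∈ Q, IsAlgebraic F x
  stab : ∀ σ : Ω ≃ₐ[k] Ω, Fixes σ F → Stab σ Q

/-- `E = (M × P)/H`, `V = P/H` for a finite group `H` acting faithfully on `M` and on `P`: an isotrivial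
fibre space `E/V` with the fibre `M`, trivialized by the finite Galois extension `P/V`. -/
structure Step (V E M P : IntermediateField k Ω) : Prop where
  fgM : Fin' M
  fgP : Fin' P
  indep : Indep M P
  le : E ≤ M ⊔ P
  alg : ∀ x ∈ M ⊔ P, IsAlgebraic E x
  genM : M ≤ E ⊔ P
  genP : P ≤ E ⊔ M
  stabM : ∀ σ : Ω ≃ₐ[k] Ω, Fixes σ E → Stab σ M
  stabP : ∀ σ : Ω ≃ₐ[k] Ω, Fixes σ E → Stab σ P
  eq : V = E ⊓ P

/-- The stable form of Iitaka's inequality for `V/B`: for every smooth complete variety of general type, with function field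
`Y`, independent of `V`, and every finite Galois extension `Q` of `V·Y`, `κ(Q/B·Y) + κ(B) + dim Y ≤ κ(Q)`. -/
def Stable (B V : IntermediateField k Ω) : Prop :=
  B ≤ V ∧ ∀ Y Q : IntermediateField k Ω, Fin' Y → Nonempty (SmoothModel k Y) → Indep V Y →
    KodairaGE k Y (dimension k Y) → Fin' Q → Gal (V ⊔ Y) Q → ∀ b c : ℕ, KodairaGE k B b →
    KGE (B ⊔ Y) Q c → KodairaGE k Q (b + c + dimension k Y)

end Pf72953.Tow
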