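import Mathlib
import Pool.Agent.Lib.Pf72953j.Defs
import Pool.Agent.Lib.Pf72953g.Low2
import Pool.Agent.Lib.Pf72953g.Upper
import Pool.Agent.Lib.Pf72953k.Sub
import Pool.Agent.Lib.Pf72953c.EasyAdd
import Pool.Agent.Lib.Pf72953r.SubFG
import Pool.Agent.Lib.Pf72953r.Easy
import Pool.Agent.Lib.Pf72953t.UMain
import Pool.Agent.Lib.Pf72953k.Pt

/-!
Towers of isotrivial fibre spaces: lemmas on `κ` of subfields of `Ω`.
-/

set_option autoImplicit false
set_option linter.style.haveILetI false

open scoped WithZero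
open Pf72953 Pf72953.Mov

namespace Pf72953.Tow

variable {k Ω : Type*} [Field k] [Field Ω] [Algebra k Ω]

theorem alg_adjoin_up {k F K : Type*} [Field k] [Field F] [Field K] [Algebra k F] [Algebra F K]
    [Algebra k K] [IsScalarTower k F K] {S : Set K} {a : K}
    (h : IsAlgebraic (Algebra.adjoin k S) a) : IsAlgebraic (Algebra.adjoin F S) a := by
  have hle : Algebra.adjoin k S ≤ (Algebra.adjoin F S).restrictScalars k :=
    Algebra.adjoin_le Algebra.subset_adjoin
  letI : Algebra (Algebra.adjoin k S) (Algebra.adjoin F S) :=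
    (Subalgebra.inclusion hle).toRingHom.toAlgebra
  haveI : IsScalarTower (Algebra.adjoin k S) (Algebra.adjoin F S) K :=
    IsScalarTower.of_algebraMap_eq fun _ => rfl
  exact h.extendScalars (R := Algebra.adjoin k S) (S := Algebra.adjoin F S)
    (Subalgebra.inclusion_injective hle)

theorem fin_sup {A B : IntermediateField k Ω} (hA : Fin' A) (hB : Fin' B) :
    Fin' (A ⊔ B : IntermediateField k Ω) := by
  rw [Fin', IntermediateField.essFiniteType_iff] at *
  exact IntermediateField.fg_sup hA hB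

theorem fin_le {A B : IntermediateField k Ω} (hB : Fin' B) (h : A ≤ B) : Fin' A := by
  haveI : Fact (A ≤ B) := ⟨h⟩
  haveI : Algebra.EssFiniteType k B := hB
  exact Red.essFiniteType_sub k A B

theorem fin_bot : Fin' (⊥ : IntermediateField k Ω) := by
  rw [Fin', IntermediateField.essFiniteType_iff]
  exact IntermediateField.fg_bot

theorem isAlg_iff {A B : IntermediateField k Ω} [Fact (A ≤ B)] :
    Algebra.IsAlgebraic A B ↔ ∀ x ∈ B, IsAlgebraic A x := by
  constructor
  · intro h x hx
    exact (Algebra.IsAlgebraic.isAlgebraic (R := A) (⟨x, hx⟩ : B)).algebraMap (A := Ω)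
  · intro h
    refine ⟨fun x => ?_⟩
    have h1 := h x x.2
    exact (isAlgebraic_algebraMap_iff (R := A) (A := Ω) (S := B) (algebraMap B Ω).injective).1 h1

theorem dim_add {A B : IntermediateField k Ω} [Fact (A ≤ B)] (hB : Fin' B) :
    dimension k B = dimension k A + dimension A B := by
  haveI : Algebra.EssFiniteType k B := hB
  haveI : Algebra.EssFiniteType k A := fin_le hB Fact.out
  haveI : Algebra.EssFiniteType A B := Algebra.EssFiniteType.of_comp k A B
  haveI : FaithfulSMul A B :=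
    (faithfulSMul_iff_algebraMap_injective A B).2 (algebraMap A B).injective
  have h1 := _root_.trdeg_add_eq k A (A := B)
  rw [← trdeg_eq_dimension, ← trdeg_eq_dimension, ← trdeg_eq_dimension] at h1
  exact_mod_cast h1.symm

theorem dim_rel {A B : IntermediateField k Ω} [Fact (A ≤ B)] (hB : Fin' B) :
    dimension A B = dimension k B - dimension k A := by
  have := dim_add (A := A) hB
  omega

theorem dim_le {A B : IntermediateField k Ω} (hB : Fin' B) (h : A ≤ B) :
    dimension k A ≤ dimension k B := by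
  haveI : Fact (A ≤ B) := ⟨h⟩
  have := dim_add (A := A) hB
  omega

theorem dim_eq {A B : IntermediateField k Ω} (hB : Fin' B) (h : A ≤ B)
    (halg : ∀ x ∈ B, IsAlgebraic A x) : dimension k B = dimension k A := by
  haveI : Fact (A ≤ B) := ⟨h⟩
  haveI : Algebra.IsAlgebraic A B := isAlg_iff.2 halg
  haveI : Algebra.EssFiniteType k B := hB
  haveI : Algebra.EssFiniteType k A := fin_le hB h
  exact Twr.dimension_eq_of_algebraic (k := k) (K := A) (L := B)

/-- the compositum is algebraic over the union -/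
theorem alg_sup {A B : IntermediateField k Ω} {Q : IntermediateField k Ω} [Fact (A ≤ Q)]
    [Fact (B ≤ Q)] (halg : ∀ x ∈ Q, IsAlgebraic (A ⊔ B : IntermediateField k Ω) x) (a : Q) :
    IsAlgebraic (Algebra.adjoin k (Set.range (algebraMap A Q) ∪ Set.range (algebraMap B Q))) a := by
  set S : Set Q := Set.range (algebraMap A Q) ∪ Set.range (algebraMap B Q) with hS
  rw [← IntermediateField.isAlgebraic_adjoin_iff]
  have hle : (A ⊔ B : IntermediateField k Ω) ≤ (IntermediateField.adjoin k S).map Q.val := by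
    refine sup_le (fun x hx => ?_) (fun x hx => ?_)
    · exact ⟨algebraMap A Q ⟨x, hx⟩, IntermediateField.subset_adjoin k S (Or.inl ⟨_, rfl⟩), rfl⟩
    · exact ⟨algebraMap B Q ⟨x, hx⟩, IntermediateField.subset_adjoin k S (Or.inr ⟨_, rfl⟩), rfl⟩
  haveI hF : Fact ((A ⊔ B : IntermediateField k Ω) ≤ Q) := ⟨sup_le Fact.out Fact.out⟩
  have hmem : ∀ z : (A ⊔ B : IntermediateField k Ω), algebraMap _ Q z ∈ IntermediateField.adjoin k S := by
    intro z
    obtain ⟨y, hy, hyz⟩ := hle z.2
    have : y = algebraMap _ Q z := Subtype.ext hyz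
    rw [← this]
    exact hy
  letI : Algebra (A ⊔ B : IntermediateField k Ω) (IntermediateField.adjoin k S) :=
    ((algebraMap (A ⊔ B : IntermediateField k Ω) Q).codRestrict
      (IntermediateField.adjoin k S).toSubring hmem).toAlgebra
  haveI : IsScalarTower (A ⊔ B : IntermediateField k Ω) (IntermediateField.adjoin k S) Q :=
    IsScalarTower.of_algebraMap_eq fun _ => rfl
  have h1 : IsAlgebraic (A ⊔ B : IntermediateField k Ω) a :=
    (isAlg_iff.2 halg).isAlgebraic a
  exact h1.extendScalars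
    (algebraMap (A ⊔ B : IntermediateField k Ω) (IntermediateField.adjoin k S)).injective

/-- algebraicity in towers of subfields of `Ω` -/
theorem alg_trans {A B C : IntermediateField k Ω} (hAB : A ≤ B) (h1 : ∀ x ∈ B, IsAlgebraic A x)
    (h2 : ∀ x ∈ C, IsAlgebraic B x) : ∀ x ∈ C, IsAlgebraic A x := by
  intro x hx
  haveI : Fact (A ≤ B) := ⟨hAB⟩
  haveI : Algebra.IsAlgebraic A B := isAlg_iff.2 h1
  exact (h2 x hx).restrictScalars A

theorem alg_mono {A B : IntermediateField k Ω} (hAB : A ≤ B) {x : Ω} (h : IsAlgebraic A x) :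
    IsAlgebraic B x := by
  letI : Algebra A B := (IntermediateField.inclusion hAB).toRingHom.toAlgebra
  haveI : IsScalarTower A B Ω := IsScalarTower.of_algebraMap_eq fun _ => rfl
  exact h.extendScalars (R := A) (S := B) (IntermediateField.inclusion hAB).toRingHom.injective

theorem alg_of_mem {A : IntermediateField k Ω} {x : Ω} (h : x ∈ A) : IsAlgebraic A x :=
  isAlgebraic_algebraMap (⟨x, h⟩ : A)

/-- the algebraic closure of `A` in `Ω` -/
def cl (A : IntermediateField k Ω) : IntermediateField k Ω :=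
  (algebraicClosure A Ω).restrictScalars k

theorem mem_cl {A : IntermediateField k Ω} {x : Ω} : x ∈ cl A ↔ IsAlgebraic A x := by
  rw [cl, IntermediateField.mem_restrictScalars, mem_algebraicClosure_iff]

theorem le_cl {A : IntermediateField k Ω} : A ≤ cl A := fun _ hx => mem_cl.2 (alg_of_mem hx)

theorem cl_mono {A B : IntermediateField k Ω} (h : A ≤ B) : cl A ≤ cl B :=
  fun _ hx => mem_cl.2 (alg_mono h (mem_cl.1 hx))

theorem cl_le {A B : IntermediateField k Ω} (h : B ≤ cl A) : cl B ≤ cl A := by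
  intro x hx
  have h1 : IsAlgebraic (cl A) x := alg_mono h (mem_cl.1 hx)
  exact mem_cl.2 (alg_trans le_cl (fun _ hy => mem_cl.1 hy) (C := cl (cl A))
    (fun _ hy => mem_cl.1 hy) x (mem_cl.2 h1))

theorem alg_iff {A B : IntermediateField k Ω} : (∀ x ∈ B, IsAlgebraic A x) ↔ B ≤ cl A :=
  ⟨fun h _ hx => mem_cl.2 (h _ hx), fun h _ hx => mem_cl.1 (h hx)⟩

/-- `A'·C` is algebraic over `A·C` if `A'` is algebraic over `A` -/
theorem alg_sup_left {A A' C : IntermediateField k Ω} (h : ∀ x ∈ A', IsAlgebraic A x) :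
    ∀ x ∈ (A' ⊔ C : IntermediateField k Ω), IsAlgebraic (A ⊔ C : IntermediateField k Ω) x := by
  rw [alg_iff] at h ⊢
  exact sup_le (h.trans (cl_mono le_sup_left)) (le_sup_right.trans le_cl)

theorem eRk_eq {A : IntermediateField k Ω} (hA : Fin' A) :
    (AlgebraicIndependent.matroid k Ω).eRk (A : Set Ω) = dimension k A := by
  haveI : Algebra.EssFiniteType k A := hA
  obtain ⟨x, hx⟩ := exists_tb k A
  set B : Set Ω := Set.range (fun i => (x i : Ω)) with hB
  have hind : AlgebraicIndependent k (fun i => (x i : Ω)) :=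
    hx.1.map' (f := A.val) A.val.injective
  have hbas : (AlgebraicIndependent.matroid k Ω).IsBasis B (A : Set Ω) := by
    rw [AlgebraicIndependent.matroid_isBasis_iff]
    refine ⟨hind.to_subtype_range, ?_, ?_⟩
    · rintro _ ⟨i, rfl⟩
      exact (x i).2
    · intro a ha
      exact isAlgebraic_transport hx B (fun i => ⟨i, rfl⟩) (⟨a, ha⟩ : A)
  rw [hbas.eRk_eq_encard, hB, ← Set.image_univ, hind.injective.encard_image, Set.encard_univ,
    ENat.card_eq_coe_natCard]
  simp

theorem sup_subset_closure (A B : IntermediateField k Ω) :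
    ((A ⊔ B : IntermediateField k Ω) : Set Ω) ⊆
      (AlgebraicIndependent.matroid k Ω).closure ((A : Set Ω) ∪ B) := by
  intro x hx
  rw [AlgebraicIndependent.matroid_closure_eq, SetLike.mem_coe, Subalgebra.mem_algebraicClosure,
    ← IntermediateField.isAlgebraic_adjoin_iff]
  refine alg_of_mem (A := IntermediateField.adjoin k ((A : Set Ω) ∪ B)) ?_
  have hle : A ⊔ B ≤ IntermediateField.adjoin k ((A : Set Ω) ∪ B) :=
    sup_le (fun y hy => IntermediateField.subset_adjoin k _ (Or.inl hy))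
      (fun y hy => IntermediateField.subset_adjoin k _ (Or.inr hy))
  exact hle hx

/-- submodularity -/
theorem dim_submod {A A' B : IntermediateField k Ω} (hA : Fin' A) (hB : Fin' B) (h : A' ≤ A) :
    dimension k (A ⊔ B : IntermediateField k Ω) + dimension k A' ≤
      dimension k A + dimension k (A' ⊔ B : IntermediateField k Ω) := by
  set M := AlgebraicIndependent.matroid k Ω with hM
  have hA' : Fin' A' := fin_le hA h
  have h1 := M.eRk_inter_add_eRk_union_le (A : Set Ω) ((A' ⊔ B : IntermediateField k Ω) : Set Ω)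
  have h2 : M.eRk (A' : Set Ω) ≤ M.eRk ((A : Set Ω) ∩ ((A' ⊔ B : IntermediateField k Ω) : Set Ω)) :=
    M.eRk_mono (Set.subset_inter h (le_sup_left (a := A')))
  have h3 : M.eRk ((A ⊔ B : IntermediateField k Ω) : Set Ω) ≤
      M.eRk ((A : Set Ω) ∪ ((A' ⊔ B : IntermediateField k Ω) : Set Ω)) := by
    rw [← M.eRk_closure_eq ((A : Set Ω) ∪ ((A' ⊔ B : IntermediateField k Ω) : Set Ω))]
    refine M.eRk_mono ((sup_subset_closure A B).trans (M.closure_mono ?_))
    exact Set.union_subset_union_right _ (le_sup_right (a := A'))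
  have h4 := (add_le_add h2 h3).trans h1
  rw [eRk_eq hA', eRk_eq (fin_sup hA hB), eRk_eq hA, eRk_eq (fin_sup hA' hB)] at h4
  have h5 : dimension k A' + dimension k (A ⊔ B : IntermediateField k Ω) ≤
      dimension k A + dimension k (A' ⊔ B : IntermediateField k Ω) := by exact_mod_cast h4
  omega

theorem dim_bot : dimension k (⊥ : IntermediateField k Ω) = 0 := by
  haveI : Algebra.IsAlgebraic k (⊥ : IntermediateField k Ω) :=
    Algebra.IsAlgebraic.of_finite k _
  rw [Twr.dimension_eq_of_algebraic (k := k) (K := k) (L := (⊥ : IntermediateField k Ω)),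
    PF.dim_self]

theorem dim_sup_le {A B : IntermediateField k Ω} (hA : Fin' A) (hB : Fin' B) :
    dimension k (A ⊔ B : IntermediateField k Ω) ≤ dimension k A + dimension k B := by
  have h1 := dim_submod (A' := ⊥) hA hB bot_le
  rw [bot_sup_eq] at h1
  omega

theorem Indep.symm {A B : IntermediateField k Ω} (h : Indep A B) : Indep B A := by
  unfold Indep at *
  rw [sup_comm, h, add_comm]

theorem Indep.mono_left {A B A' : IntermediateField k Ω} (h : Indep A B) (hA : Fin' A)
    (hB : Fin' B) (hA' : A' ≤ A) : Indep A' B := by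
  unfold Indep at *
  have h1 := dim_submod hA hB hA'
  have h2 := dim_sup_le (fin_le hA hA') hB
  omega

theorem Indep.mono {A B A' B' : IntermediateField k Ω} (h : Indep A B) (hA : Fin' A) (hB : Fin' B)
    (hA' : A' ≤ A) (hB' : B' ≤ B) : Indep A' B' :=
  ((h.mono_left hA hB hA').symm.mono_left hB (fin_le hA hA') hB').symm

section kge

variable [CharZero k]

theorem kge_prod {A B : IntermediateField k Ω} (hA : Fin' A) (hB : Fin' B) (h : Indep A B) {a b : ℕ}
    (ha : KodairaGE k A a) (hb : KodairaGE k B b) :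
    KodairaGE k (A ⊔ B : IntermediateField k Ω) (a + b) := by
  haveI : Algebra.EssFiniteType k A := hA
  haveI : Algebra.EssFiniteType k B := hB
  haveI : Algebra.EssFiniteType k (A ⊔ B : IntermediateField k Ω) := fin_sup hA hB
  haveI : Fact (A ≤ A ⊔ B) := ⟨le_sup_left⟩
  haveI : Fact (B ≤ A ⊔ B) := ⟨le_sup_right⟩
  exact Diag.low_prod (P := A) (G := B) (N := (A ⊔ B : IntermediateField k Ω))
    (Eq.symm h)
    (alg_sup fun x hx => alg_of_mem hx) ha hb

omit [CharZero k] in
theorem finite_of {A Q : IntermediateField k Ω} [Fact (A ≤ Q)] (hQ : Fin' Q)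
    (halg : ∀ x ∈ Q, IsAlgebraic A x) : FiniteDimensional A Q := by
  haveI : Algebra.EssFiniteType k Q := hQ
  haveI : Algebra.IsAlgebraic A Q := isAlg_iff.2 halg
  haveI : Algebra.EssFiniteType A Q := Algebra.EssFiniteType.of_comp k A Q
  exact Algebra.finite_of_essFiniteType_of_isAlgebraic

theorem kge_pull' {Q Q' : IntermediateField k Ω} (hQ' : Fin' Q') (hQQ : Q ≤ Q')
    (halg : ∀ x ∈ Q', IsAlgebraic Q x) {c : ℕ} (h : KodairaGE k Q c) : KodairaGE k Q' c := by
  haveI : Fact (Q ≤ Q') := ⟨hQQ⟩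
  haveI : Algebra.EssFiniteType k Q' := hQ'
  haveI : Algebra.EssFiniteType k Q := fin_le hQ' hQQ
  haveI : FiniteDimensional Q Q' := finite_of hQ' halg
  exact Can.kodairaGE_pull (E := Q) h

theorem kge_pull {A Q Q' : IntermediateField k Ω} (hQ' : Fin' Q') (hQQ : Q ≤ Q')
    (halg : ∀ x ∈ Q', IsAlgebraic Q x) {c : ℕ} (h : KGE A Q c) : KGE A Q' c := by
  obtain ⟨hA, h⟩ := h
  haveI hA' : Fact (A ≤ Q') := ⟨hA.out.trans hQQ⟩
  haveI : Fact (Q ≤ Q') := ⟨hQQ⟩
  haveI : Algebra.EssFiniteType k Q' := hQ'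
  haveI : Algebra.EssFiniteType k Q := fin_le hQ' hQQ
  haveI : Algebra.EssFiniteType k A := fin_le hQ' hA'.out
  haveI : Algebra.EssFiniteType A Q := Algebra.EssFiniteType.of_comp k A Q
  haveI : FiniteDimensional Q Q' := finite_of hQ' halg
  haveI : CharZero A := charZero_of_injective_algebraMap (algebraMap k A).injective
  exact ⟨hA', Can.kodairaGE_pull (E := Q) h⟩

omit [CharZero k] in
theorem kge_mono {F K : Type*} [Field F] [Field K] [Algebra F K] {c c' : ℕ} (hc : c ≤ c')
    (h : KodairaGE F K c') : KodairaGE F K c := by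
  obtain ⟨m, hm, ω, hω, hne, f, hf, hff⟩ := h
  exact ⟨m, hm, ω, hω, hne, fun i => f (Fin.castLE hc i), hf.comp _ (Fin.castLE_injective hc),
    fun i => hff _⟩

omit [CharZero k] in
theorem KGE.mono {A Q : IntermediateField k Ω} {c c' : ℕ} (hc : c ≤ c') (h : KGE A Q c') :
    KGE A Q c := by
  obtain ⟨hA, h⟩ := h
  exact ⟨hA, kge_mono hc h⟩

theorem kge_of_le {F K : Type*} [Field F] [CharZero F] [Field K] [Algebra F K]
    [Algebra.EssFiniteType F K] {c : ℕ} (h : ((c : ℕ∞) : WithBot ℕ∞) ≤ kodairaDim F K) :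
    KodairaGE F K c := by
  rcases kodairaDim_eq (k := F) (K := K) with h1 | ⟨c', hc', h1⟩
  · rw [h1] at h
    simp at h
  · rw [h1] at h
    exact kge_mono (by exact_mod_cast h) hc'

/-- algebraic extensions of the base do not change `κ` -/
theorem kge_base {A A' Q : IntermediateField k Ω} (hQ : Fin' Q) (hA : A ≤ A') (hA' : A' ≤ Q)
    (halg : ∀ x ∈ A', IsAlgebraic A x) {c : ℕ} : KGE A Q c ↔ KGE A' Q c := by
  haveI : Fact (A ≤ A') := ⟨hA⟩
  haveI f1 : Fact (A' ≤ Q) := ⟨hA'⟩
  haveI f2 : Fact (A ≤ Q) := ⟨hA.trans hA'⟩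
  haveI : Algebra.EssFiniteType k Q := hQ
  haveI : Algebra.EssFiniteType k A := fin_le hQ f2.out
  haveI : Algebra.EssFiniteType A Q := Algebra.EssFiniteType.of_comp k A Q
  haveI : Algebra.EssFiniteType A' Q := Algebra.EssFiniteType.of_comp k A' Q
  haveI : CharZero A := charZero_of_injective_algebraMap (algebraMap k A).injective
  haveI : CharZero A' := charZero_of_injective_algebraMap (algebraMap k A').injective
  haveI : Algebra.IsAlgebraic A A' := isAlg_iff.2 halg
  have h1 : kodairaDim A' Q = kodairaDim A Q := Dq.kodairaDim_closure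
  constructor
  · rintro ⟨_, h⟩
    refine ⟨f1, kge_of_le ?_⟩
    rw [h1]
    exact le_iSup₂_of_le c h le_rfl
  · rintro ⟨_, h⟩
    refine ⟨f2, kge_of_le ?_⟩
    rw [← h1]
    exact le_iSup₂_of_le c h le_rfl

/-- easy addition -/
theorem kge_easy {A Q : IntermediateField k Ω} (hQ : Fin' Q) (hA : A ≤ Q) {c : ℕ}
    (h : KodairaGE k Q c) : KGE A Q (c - dimension k A) := by
  haveI f1 : Fact (A ≤ Q) := ⟨hA⟩
  haveI : Algebra.EssFiniteType k Q := hQ
  exact ⟨f1, Red.KodairaGE.over (K := A) h⟩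

/-- easy addition for two fibrations -/
theorem kge_sub {F X Y Q : IntermediateField k Ω} (hQ : Fin' Q) (hFX : F ≤ X) (hFY : F ≤ Y)
    (hXQ : X ≤ Q) (hYQ : Y ≤ Q)
    (hdim : dimension k X + dimension k Y = dimension k (X ⊔ Y : IntermediateField k Ω) + dimension k F)
    {c : ℕ} (h : KGE F Q c) : ∃ a b : ℕ, c ≤ a + b ∧ KGE X Q a ∧ KGE Y Q b := by
  obtain ⟨f0, h⟩ := h
  haveI f1 : Fact (F ≤ X) := ⟨hFX⟩
  haveI f2 : Fact (F ≤ Y) := ⟨hFY⟩
  haveI f3 : Fact (X ≤ Q) := ⟨hXQ⟩
  haveI f4 : Fact (Y ≤ Q) := ⟨hYQ⟩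
  haveI f5 : Fact (X ≤ X ⊔ Y) := ⟨le_sup_left⟩
  haveI f6 : Fact (Y ≤ X ⊔ Y) := ⟨le_sup_right⟩
  haveI f7 : Fact (X ⊔ Y ≤ Q) := ⟨sup_le hXQ hYQ⟩
  haveI f8 : Fact (F ≤ X ⊔ Y) := ⟨hFX.trans le_sup_left⟩
  haveI : Algebra.EssFiniteType k Q := hQ
  haveI : Algebra.EssFiniteType k X := fin_le hQ hXQ
  haveI : Algebra.EssFiniteType k Y := fin_le hQ hYQ
  haveI : CharZero F := charZero_of_injective_algebraMap (algebraMap k F).injective
  haveI : Algebra.EssFiniteType F Q := Algebra.EssFiniteType.of_comp k F Q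
  haveI : Algebra.EssFiniteType F X := Algebra.EssFiniteType.of_comp k F X
  haveI : Algebra.EssFiniteType F Y := Algebra.EssFiniteType.of_comp k F Y
  have e1 := dim_add (A := F) (B := X) (fin_le hQ hXQ)
  have e2 := dim_add (A := F) (B := Y) (fin_le hQ hYQ)
  have e3 := dim_add (A := F) (B := X ⊔ Y) (fin_le hQ (sup_le hXQ hYQ))
  have key := Bi.kodairaDim_le_add (k := F) (B := X) (Y := Y)
    (Z := (X ⊔ Y : IntermediateField k Ω)) (E := Q) (by omega) ?_
  · haveI : Algebra.EssFiniteType X Q := Algebra.EssFiniteType.of_comp k X Q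
    haveI : Algebra.EssFiniteType Y Q := Algebra.EssFiniteType.of_comp k Y Q
    haveI : CharZero X := charZero_of_injective_algebraMap (algebraMap k X).injective
    haveI : CharZero Y := charZero_of_injective_algebraMap (algebraMap k Y).injective
    have h1 : ((c : ℕ∞) : WithBot ℕ∞) ≤ kodairaDim X Q + kodairaDim Y Q :=
      (le_iSup₂_of_le c h le_rfl : _ ≤ kodairaDim F Q).trans key
    rcases kodairaDim_eq (k := X) (K := Q) with hX | ⟨a, ha, hX⟩
    · rw [hX, WithBot.bot_add] at h1
      simp at h1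
    rcases kodairaDim_eq (k := Y) (K := Q) with hY | ⟨b, hb, hY⟩
    · rw [hY, WithBot.add_bot] at h1
      simp at h1
    rw [hX, hY] at h1
    refine ⟨a, b, ?_, ⟨f3, ha⟩, ⟨f4, hb⟩⟩
    exact_mod_cast h1
  · intro a
    have h1 := alg_sup (A := X) (B := Y) (Q := (X ⊔ Y : IntermediateField k Ω))
      (fun x hx => alg_of_mem hx) a
    exact alg_adjoin_up h1

end kge

end Pf72953.Tow
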