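import Mathlib
import Pool.Agent.Lib.Pf72953j.Glue
import Pool.Agent.Lib.Pf72953h.Clo

/-!
Extension of automorphisms of subfields to `Ω`, Galois extensions of subfields of `Ω`, and the linear disjointness of `P` and `E·Y`
over `V` for a step `(V, E, M, P)`.
-/

set_option autoImplicit false
set_option linter.style.haveILetI false

open scoped WithZero Polynomial
open Pf72953 Pf72953.Mov

namespace Pf72953.Tow

/-- an automorphism of a subfield of the algebraically closed field `Ω` extends to `Ω` -/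
theorem exists_ringExt {L Ω : Type*} [Field L] [Field Ω] [IsAlgClosed Ω] [Algebra L Ω]
    (σ : L ≃+* L) : ∃ τ : Ω ≃+* Ω, ∀ x : L, τ (algebraMap L Ω x) = algebraMap L Ω (σ x) := by
  obtain ⟨s, hs⟩ := exists_isTranscendenceBasis L Ω
  letI := IsAlgClosed.isAlgClosure_of_transcendence_basis (Subtype.val : s → Ω) hs
  let e : Algebra.adjoin L (Set.range (Subtype.val : s → Ω)) ≃+*
      Algebra.adjoin L (Set.range (Subtype.val : s → Ω)) :=
    hs.1.aevalEquiv.symm.toRingEquiv.trans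
      ((MvPolynomial.mapEquiv s σ).trans hs.1.aevalEquiv.toRingEquiv)
  have he : ∀ x : L, e (algebraMap L _ x) = algebraMap L _ (σ x) := by
    intro x
    change hs.1.aevalEquiv (MvPolynomial.map (σ : L →+* L) (hs.1.aevalEquiv.symm (algebraMap L _ x))) = _
    rw [AlgEquiv.commutes]
    have h1 : MvPolynomial.map (σ : L →+* L) (algebraMap L (MvPolynomial s L) x) =
        algebraMap L (MvPolynomial s L) (σ x) := MvPolynomial.map_C _ _
    rw [h1, AlgEquiv.commutes]
  refine ⟨IsAlgClosure.equivOfEquiv Ω Ω e, fun x => ?_⟩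
  have h1 : algebraMap L Ω x = algebraMap (Algebra.adjoin L (Set.range (Subtype.val : s → Ω))) Ω
      (algebraMap L _ x) := rfl
  rw [h1, IsAlgClosure.equivOfEquiv_algebraMap, he]
  rfl

variable {k Ω : Type*} [Field k] [Field Ω] [IsAlgClosed Ω] [Algebra k Ω]

/-- an automorphism of `L/F` extends to `Ω` -/
theorem exists_ext_of {F : IntermediateField k Ω} {L : Type*} [Field L] [Algebra F L] [Algebra L Ω]
    [IsScalarTower F L Ω] (s : L ≃ₐ[F] L) :
    ∃ τ : Ω ≃ₐ[k] Ω, Fixes τ F ∧ ∀ x : L, τ (algebraMap L Ω x) = algebraMap L Ω (s x) := by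
  obtain ⟨τ, hτ⟩ := exists_ringExt (Ω := Ω) s.toRingEquiv
  have h1 : ∀ c : F, τ (algebraMap F Ω c) = algebraMap F Ω c := by
    intro c
    rw [IsScalarTower.algebraMap_apply F L Ω, hτ]
    exact congrArg (algebraMap L Ω) (s.commutes c)
  refine ⟨AlgEquiv.ofRingEquiv (f := τ) fun c => ?_, fun x hx => h1 ⟨x, hx⟩, hτ⟩
  have h2 := h1 (algebraMap k F c)
  rwa [← IsScalarTower.algebraMap_apply k F Ω] at h2

theorem exists_ext {L : IntermediateField k Ω} (_hL : Fin' L) (σ : L ≃ₐ[k] L) :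
    ∃ τ : Ω ≃ₐ[k] Ω, ∀ x : L, τ x = σ x := by
  obtain ⟨τ, hτ⟩ := exists_ringExt (Ω := Ω) σ.toRingEquiv
  refine ⟨AlgEquiv.ofRingEquiv (f := τ) fun c => ?_, hτ⟩
  have h2 := hτ (algebraMap k L c)
  rw [← IsScalarTower.algebraMap_apply k L Ω] at h2
  rw [h2]
  exact congrArg (algebraMap L Ω) (σ.commutes c)

/-- a conjugate of `x` over `F` is the image of `x` under an automorphism of `Ω/F` -/
theorem exists_conj {F : IntermediateField k Ω} {x y : Ω} (hx : IsAlgebraic F x)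
    (hy : Polynomial.aeval y (minpoly F x) = 0) : ∃ τ : Ω ≃ₐ[k] Ω, Fixes τ F ∧ τ x = y := by
  have hy' : IsAlgebraic F y := ⟨minpoly F x, minpoly.ne_zero hx.isIntegral, hy⟩
  haveI : IsAlgClosure F (algebraicClosure F Ω) := algebraicClosure.isAlgClosure F Ω
  haveI : Normal F (algebraicClosure F Ω) := IsAlgClosure.normal F _
  let x' : algebraicClosure F Ω := ⟨x, mem_algebraicClosure_iff.2 hx⟩
  let y' : algebraicClosure F Ω := ⟨y, mem_algebraicClosure_iff.2 hy'⟩
  have h1 : minpoly F x' = minpoly F x :=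
    (minpoly.algebraMap_eq (algebraMap (algebraicClosure F Ω) Ω).injective x').symm
  have h2 : Polynomial.aeval y' (minpoly F x') = 0 := by
    rw [h1]
    apply (algebraMap (algebraicClosure F Ω) Ω).injective
    rw [map_zero, ← Polynomial.aeval_algebraMap_apply]
    exact hy
  obtain ⟨s, hs⟩ := minpoly.exists_algEquiv_of_root (K := F) (x := y') (y := x')
    (Algebra.IsAlgebraic.isAlgebraic x') h2
  obtain ⟨τ, hτF, hτ⟩ := exists_ext_of (k := k) (F := F) s.symm
  refine ⟨τ, hτF, ?_⟩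
  have h3 := hτ x'
  rw [← hs, AlgEquiv.symm_apply_apply] at h3
  rw [hs] at h3
  exact h3

variable [CharZero k]

theorem mem_of_fixed {F : IntermediateField k Ω} (_hF : Fin' F) {x : Ω} (hx : IsAlgebraic F x)
    (h : ∀ σ : Ω ≃ₐ[k] Ω, Fixes σ F → σ x = x) : x ∈ F := by
  classical
  haveI : CharZero F := charZero_of_injective_algebraMap (algebraMap k F).injective
  have hsep : (minpoly F x).Separable := (minpoly.irreducible hx.isIntegral).separable
  have hspl : ((minpoly F x).map (algebraMap F Ω)).Splits := IsAlgClosed.splits _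
  have hroot : ∀ y ∈ ((minpoly F x).map (algebraMap F Ω)).roots, y = x := by
    intro y hy
    have h1 := (Polynomial.mem_roots'.mp hy).2
    rw [Polynomial.IsRoot, Polynomial.eval_map_algebraMap] at h1
    obtain ⟨τ, hτ, hτx⟩ := exists_conj hx h1
    rw [← hτx]
    exact h τ hτ
  have hnd : ((minpoly F x).map (algebraMap F Ω)).roots.Nodup :=
    Polynomial.nodup_roots hsep.map
  have hcard : Multiset.card ((minpoly F x).map (algebraMap F Ω)).roots ≤ 1 := by
    by_contra hcon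
    push Not at hcon
    have h2 : ((minpoly F x).map (algebraMap F Ω)).roots =
        Multiset.replicate (Multiset.card ((minpoly F x).map (algebraMap F Ω)).roots) x :=
      Multiset.eq_replicate_card.mpr hroot
    rw [h2, Multiset.nodup_iff_count_le_one] at hnd
    have h3 := hnd x
    rw [Multiset.count_replicate_self] at h3
    omega
  have hdeg : (minpoly F x).natDegree ≤ 1 := by
    rw [← hspl.natDegree_eq_card_roots, Polynomial.natDegree_map] at hcard
    exact hcard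
  have hdeg1 : (minpoly F x).natDegree = 1 :=
    le_antisymm hdeg (minpoly.natDegree_pos hx.isIntegral)
  have h5 : x ∈ (algebraMap F Ω).range := by
    rw [← minpoly.natDegree_eq_one_iff]
    exact hdeg1
  obtain ⟨c, hc⟩ := h5
  rw [← hc]
  exact c.2

theorem Gal.finite {F Q : IntermediateField k Ω} (h : Gal F Q) (hQ : Fin' Q) [Fact (F ≤ Q)] :
    FiniteDimensional F Q ∧ IsGalois F Q := by
  haveI : CharZero F := charZero_of_injective_algebraMap (algebraMap k F).injective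
  haveI hfin : FiniteDimensional F Q := finite_of hQ h.alg
  refine ⟨hfin, ?_⟩
  haveI : Normal F Q := by
    refine normal_iff.mpr fun x => ⟨Algebra.IsIntegral.isIntegral x, ?_⟩
    have hinj : (algebraMap Q Ω).comp (algebraMap F Q) = algebraMap F Ω := by
      rw [← IsScalarTower.algebraMap_eq]
    have hmin : minpoly F x = minpoly F (algebraMap Q Ω x) :=
      (minpoly.algebraMap_eq (algebraMap Q Ω).injective x).symm
    refine Polynomial.Splits.of_splits_map (algebraMap Q Ω) (IsAlgClosed.splits _) fun y hy => ?_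
    rw [Polynomial.map_map, hinj] at hy
    have h1 := (Polynomial.mem_roots'.mp hy).2
    rw [Polynomial.IsRoot, Polynomial.eval_map_algebraMap, hmin] at h1
    obtain ⟨τ, hτ, hτx⟩ := exists_conj (F := F) (h.alg x x.2) h1
    exact ⟨⟨y, hτx ▸ h.stab τ hτ x x.2⟩, rfl⟩
  exact { }

omit [IsAlgClosed Ω] [CharZero k] in
theorem Gal.of_isGalois {F Q : IntermediateField k Ω} [Fact (F ≤ Q)] [FiniteDimensional F Q]
    [IsGalois F Q] : Gal F Q := by
  have halg : ∀ x ∈ Q, IsAlgebraic F x := isAlg_iff.1 inferInstance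
  refine ⟨Fact.out, halg, fun σ hσ x hx => ?_⟩
  have h1 := (IsGalois.to_normal : Normal F Q).splits ⟨x, hx⟩
  have hmin : minpoly F (⟨x, hx⟩ : Q) = minpoly F x :=
    (minpoly.algebraMap_eq (algebraMap Q Ω).injective (⟨x, hx⟩ : Q)).symm
  have hinj : (algebraMap Q Ω).comp (algebraMap F Q) = algebraMap F Ω := by
    rw [← IsScalarTower.algebraMap_eq]
  have h0 : minpoly F x ≠ 0 := minpoly.ne_zero (halg x hx).isIntegral
  rw [hmin] at h1
  let σ' : Ω →ₐ[F] Ω := { (σ : Ω →+* Ω) with commutes' := fun m => hσ m m.2 }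
  have h2 : Polynomial.aeval (σ x) (minpoly F x) = 0 := by
    have h3 : Polynomial.aeval (σ' x) (minpoly F x) = σ' (Polynomial.aeval x (minpoly F x)) :=
      Polynomial.aeval_algHom_apply σ' x _
    rw [minpoly.aeval, map_zero] at h3
    exact h3
  obtain ⟨y, hy⟩ := h1.mem_range_of_isRoot
    (Polynomial.map_ne_zero h0) (i := algebraMap Q Ω) (x := σ x) (by
      rw [Polynomial.map_map, hinj, Polynomial.IsRoot, Polynomial.eval_map_algebraMap]
      exact h2)
  rw [← hy]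
  exact y.2

omit [CharZero k] in
theorem Gal.exists_ext {F Q : IntermediateField k Ω} (_h : Gal F Q) (_hQ : Fin' Q) [Fact (F ≤ Q)]
    (σ : Q ≃ₐ[F] Q) : ∃ τ : Ω ≃ₐ[k] Ω, Fixes τ F ∧ ∀ x : Q, τ x = σ x :=
  exists_ext_of σ

omit [IsAlgClosed Ω] [CharZero k] in
theorem Stab.map_le {σ : Ω ≃ₐ[k] Ω} {Q : IntermediateField k Ω} (h : Stab σ Q) :
    Q.map (σ : Ω →ₐ[k] Ω) ≤ Q := by
  rintro _ ⟨x, hx, rfl⟩
  exact h x hx

omit [IsAlgClosed Ω] [CharZero k] in
theorem Stab.sup {σ : Ω ≃ₐ[k] Ω} {Q Q' : IntermediateField k Ω} (h : Stab σ Q) (h' : Stab σ Q') :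
    Stab σ (Q ⊔ Q') := by
  intro x hx
  have h1 : (Q ⊔ Q').map (σ : Ω →ₐ[k] Ω) ≤ Q ⊔ Q' := by
    rw [IntermediateField.map_sup]
    exact sup_le_sup h.map_le h'.map_le
  exact h1 ⟨x, hx, rfl⟩

omit [IsAlgClosed Ω] [CharZero k] in
theorem Fixes.stab {σ : Ω ≃ₐ[k] Ω} {F : IntermediateField k Ω} (h : Fixes σ F) : Stab σ F := by
  intro x hx
  rw [h x hx]
  exact hx

omit [IsAlgClosed Ω] [CharZero k] in
theorem Fixes.mono {σ : Ω ≃ₐ[k] Ω} {F F' : IntermediateField k Ω} (h : Fixes σ F') (hF : F ≤ F') :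
    Fixes σ F := fun x hx => h x (hF hx)

omit [IsAlgClosed Ω] [CharZero k] in
theorem Gal.sup {F Q Q' : IntermediateField k Ω} (h : Gal F Q) (h' : Gal F Q') : Gal F (Q ⊔ Q') :=
  ⟨h.le.trans le_sup_left, alg_iff.2 (sup_le (alg_iff.1 h.alg) (alg_iff.1 h'.alg)),
    fun σ hσ => (h.stab σ hσ).sup (h'.stab σ hσ)⟩

omit [IsAlgClosed Ω] [CharZero k] in
theorem Gal.base {F Q : IntermediateField k Ω} (h : Gal F Q) (F' : IntermediateField k Ω)
    (hF : F ≤ F') : Gal F' (Q ⊔ F') :=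
  ⟨le_sup_right, alg_iff.2 (sup_le ((alg_iff.1 h.alg).trans (cl_mono hF)) le_cl),
    fun σ hσ => (h.stab σ (hσ.mono hF)).sup hσ.stab⟩

/-- `σ` as a homomorphism over `F` -/
def Fixes.hom {σ : Ω ≃ₐ[k] Ω} {F : IntermediateField k Ω} (h : Fixes σ F) : Ω →ₐ[F] Ω :=
  { (σ : Ω →+* Ω) with commutes' := fun m => h m m.2 }

omit [IsAlgClosed Ω] [CharZero k] in
theorem Fixes.aeval {σ : Ω ≃ₐ[k] Ω} {F : IntermediateField k Ω} (h : Fixes σ F) (f : F[X]) (x : Ω) :
    Polynomial.aeval (σ x) f = σ (Polynomial.aeval x f) :=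
  Polynomial.aeval_algHom_apply h.hom x f

omit [IsAlgClosed Ω] [CharZero k] in
theorem Fixes.isAlgebraic {σ : Ω ≃ₐ[k] Ω} {F : IntermediateField k Ω} (h : Fixes σ F) {x : Ω}
    (hx : IsAlgebraic F x) : IsAlgebraic F (σ x) := by
  obtain ⟨f, hf, hfx⟩ := hx
  refine ⟨f, hf, ?_⟩
  rw [h.aeval, hfx, map_zero]

omit [IsAlgClosed Ω] [CharZero k] in
/-- the Galois hull `R` of `Q` over `F` -/
theorem exists_hull {F Q : IntermediateField k Ω} (hF : Fin' F) (hQ : Fin' Q) (hFQ : F ≤ Q)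
    (halg : ∀ x ∈ Q, IsAlgebraic F x) :
    ∃ R : IntermediateField k Ω, Fin' R ∧ Gal F R ∧ Q ≤ R ∧
      ∀ R' : IntermediateField k Ω, (∀ τ : Ω ≃ₐ[k] Ω, Fixes τ F → ∀ x ∈ Q, τ x ∈ R') → R ≤ R' := by
  classical
  haveI : Fact (F ≤ Q) := ⟨hFQ⟩
  haveI : FiniteDimensional F Q := finite_of hQ halg
  haveI : Algebra.EssFiniteType k F := hF
  let R : IntermediateField k Ω := ⨆ τ : {τ : Ω ≃ₐ[k] Ω // Fixes τ F}, Q.map (τ.1 : Ω →ₐ[k] Ω)
  have hmem : ∀ τ : Ω ≃ₐ[k] Ω, Fixes τ F → ∀ x ∈ Q, τ x ∈ R := fun τ hτ x hx =>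
    le_iSup (fun τ : {τ : Ω ≃ₐ[k] Ω // Fixes τ F} => Q.map (τ.1 : Ω →ₐ[k] Ω)) ⟨τ, hτ⟩ ⟨x, hx, rfl⟩
  have hmin : ∀ R' : IntermediateField k Ω,
      (∀ τ : Ω ≃ₐ[k] Ω, Fixes τ F → ∀ x ∈ Q, τ x ∈ R') → R ≤ R' := by
    intro R' h
    refine iSup_le fun τ => ?_
    rintro _ ⟨x, hx, rfl⟩
    exact h τ.1 τ.2 x hx
  have hQR : Q ≤ R := fun x hx => hmem AlgEquiv.refl (fun _ _ => rfl) x hx
  obtain ⟨n, s, hs⟩ := Module.Finite.exists_fin (R := F) (M := Q)
  have hroots : ∀ z ∈ ⋃ i, (minpoly F (s i : Ω)).rootSet Ω, IsIntegral F z := by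
    intro z hz
    obtain ⟨i, hi⟩ := Set.mem_iUnion.mp hz
    have h1 := (Polynomial.mem_rootSet.mp hi).2
    exact ⟨_, minpoly.monic (halg _ (s i).2).isIntegral, h1⟩
  haveI : Finite (⋃ i, (minpoly F (s i : Ω)).rootSet Ω) := Set.finite_iUnion
    fun i => Polynomial.rootSet_finite _ _
  haveI hNfin : FiniteDimensional F
      (IntermediateField.adjoin F (⋃ i, (minpoly F (s i : Ω)).rootSet Ω)) :=
    IntermediateField.finiteDimensional_adjoin hroots
  have hN : Fin' ((IntermediateField.adjoin F (⋃ i, (minpoly F (s i : Ω)).rootSet Ω)).restrictScalars k) := by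
    change Algebra.EssFiniteType k (IntermediateField.adjoin F (⋃ i, (minpoly F (s i : Ω)).rootSet Ω))
    exact Algebra.EssFiniteType.comp k F _
  have hRN : R ≤ (IntermediateField.adjoin F (⋃ i, (minpoly F (s i : Ω)).rootSet Ω)).restrictScalars k := by
    refine hmin _ fun τ hτ x hx => ?_
    have h1 : (⟨x, hx⟩ : Q) ∈ Submodule.span F (Set.range s) := hs ▸ Submodule.mem_top
    obtain ⟨c, hc⟩ := (Submodule.mem_span_range_iff_exists_fun F).mp h1
    have h2 : x = ∑ i, (c i : Ω) * (s i : Ω) := by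
      have h3 := congrArg (algebraMap Q Ω) hc
      rw [map_sum] at h3
      rw [← show algebraMap Q Ω ⟨x, hx⟩ = x from rfl, ← h3]
      refine Finset.sum_congr rfl fun i _ => ?_
      rw [Algebra.smul_def, map_mul]
      rfl
    rw [h2, map_sum]
    refine sum_mem fun i _ => ?_
    rw [map_mul, hτ _ (c i).2]
    refine mul_mem ?_ ?_
    · exact (IntermediateField.adjoin F _).algebraMap_mem (c i)
    · refine IntermediateField.subset_adjoin F _ (Set.mem_iUnion.mpr ⟨i, ?_⟩)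
      rw [Polynomial.mem_rootSet]
      refine ⟨minpoly.ne_zero (halg _ (s i).2).isIntegral, ?_⟩
      rw [hτ.aeval, minpoly.aeval, map_zero]
  refine ⟨R, fin_le hN hRN, ⟨hFQ.trans hQR, ?_, ?_⟩, hQR, hmin⟩
  · rw [alg_iff]
    exact hmin _ fun τ hτ x hx => mem_cl.2 (hτ.isAlgebraic (halg x hx))
  · intro σ hσ x hx
    have h1 : R ≤ R.comap (σ : Ω →ₐ[k] Ω) := by
      refine hmin _ fun τ hτ y hy => ?_
      have h2 := hmem (τ.trans σ) (fun z hz => by
        rw [AlgEquiv.trans_apply, hτ z hz, hσ z hz]) y hy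
      exact h2
    exact h1 hx

omit [CharZero k] in
theorem Step.exists_poly {V E M P : IntermediateField k Ω} (h : Step V E M P) {x : Ω} (hx : x ∈ P) :
    ∃ f : V[X], f ≠ 0 ∧ Polynomial.aeval x f = 0 ∧
      ∀ y : Ω, Polynomial.aeval y f = 0 → y ∈ P := by
  have hxE : IsAlgebraic E x := h.alg x ((le_sup_right : P ≤ M ⊔ P) hx)
  have hm : ((minpoly E x).map (algebraMap E Ω)).Monic := (minpoly.monic hxE.isIntegral).map _
  have hroots : ∀ y : Ω, Polynomial.aeval y (minpoly E x) = 0 → y ∈ P := by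
    intro y hy
    obtain ⟨τ, hτ, hτx⟩ := exists_conj hxE hy
    rw [← hτx]
    exact h.stabP τ hτ x hx
  have h1 : (minpoly E x).map (algebraMap E Ω) ∈ Polynomial.lifts (algebraMap P Ω) := by
    refine (IsAlgClosed.splits _).mem_lift_of_roots_mem_range hm _ fun y hy => ?_
    have h2 := (Polynomial.mem_roots'.mp hy).2
    rw [Polynomial.IsRoot, Polynomial.eval_map_algebraMap] at h2
    exact ⟨⟨y, hroots y h2⟩, rfl⟩
  have h2 : (minpoly E x).map (algebraMap E Ω) ∈ Polynomial.lifts (algebraMap V Ω) := by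
    rw [Polynomial.lifts_iff_coeff_lifts] at h1 ⊢
    intro n
    obtain ⟨a, ha⟩ := h1 n
    have h3 : ((minpoly E x).map (algebraMap E Ω)).coeff n ∈ E := by
      rw [Polynomial.coeff_map]
      exact ((minpoly E x).coeff n).2
    have h4 : ((minpoly E x).map (algebraMap E Ω)).coeff n ∈ P := by
      rw [← ha]
      exact a.2
    have h5 : ((minpoly E x).map (algebraMap E Ω)).coeff n ∈ V := by
      rw [h.eq]
      exact ⟨h3, h4⟩
    exact ⟨⟨_, h5⟩, rfl⟩
  obtain ⟨f, hf⟩ := (Polynomial.mem_lifts _).mp h2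
  have h3 : ∀ y : Ω, Polynomial.aeval y f = Polynomial.aeval y (minpoly E x) := by
    intro y
    rw [← Polynomial.eval_map_algebraMap, hf, Polynomial.eval_map_algebraMap]
  refine ⟨f, ?_, ?_, fun y hy => hroots y ?_⟩
  · rintro rfl
    rw [Polynomial.map_zero] at hf
    exact hm.ne_zero hf.symm
  · rw [h3, minpoly.aeval]
  · rw [← h3, hy]

omit [CharZero k] in
theorem Step.gal {V E M P : IntermediateField k Ω} (h : Step V E M P) : Gal V P := by
  refine ⟨?_, fun x hx => ?_, fun σ hσ x hx => ?_⟩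
  · rw [h.eq]
    exact inf_le_right
  · obtain ⟨f, hf, hfx, -⟩ := h.exists_poly hx
    exact ⟨f, hf, hfx⟩
  · obtain ⟨f, -, hfx, hr⟩ := h.exists_poly hx
    refine hr _ ?_
    rw [hσ.aeval, hfx, map_zero]

omit [IsAlgClosed Ω] [CharZero k] in
theorem comp_sup {A B : IntermediateField k Ω} (h : Indep A B) [Fact (A ≤ A ⊔ B)]
    [Fact (B ≤ A ⊔ B)] : Fib.Comp k A B (A ⊔ B : IntermediateField k Ω) := by
  refine ⟨Eq.symm h, ?_⟩
  rw [eq_top_iff]
  intro x _
  set S : Set (A ⊔ B : IntermediateField k Ω) :=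
    Set.range (algebraMap A (A ⊔ B : IntermediateField k Ω)) ∪
      Set.range (algebraMap B (A ⊔ B : IntermediateField k Ω)) with hS
  have hle : (A ⊔ B : IntermediateField k Ω) ≤
      (IntermediateField.adjoin k S).map (A ⊔ B : IntermediateField k Ω).val := by
    refine sup_le (fun x hx => ?_) (fun x hx => ?_)
    · exact ⟨algebraMap A _ ⟨x, hx⟩, IntermediateField.subset_adjoin k S (Or.inl ⟨_, rfl⟩), rfl⟩
    · exact ⟨algebraMap B _ ⟨x, hx⟩, IntermediateField.subset_adjoin k S (Or.inr ⟨_, rfl⟩), rfl⟩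
  obtain ⟨y, hy, hyx⟩ := hle x.2
  have : y = x := Subtype.ext hyx
  exact this ▸ hy

omit [IsAlgClosed Ω] in
/-- `E` is algebraically closed in `E·Y` if `k` is algebraically closed and `E`, `Y` are independent -/
theorem closed_sup [IsAlgClosed k] {E Y : IntermediateField k Ω} (hE : Fin' E) (hY : Fin' Y)
    (h : Indep E Y) {x : Ω} (hx : x ∈ E ⊔ Y) (hxE : IsAlgebraic E x) : x ∈ E := by
  haveI : CharZero E := charZero_of_injective_algebraMap (algebraMap k E).injective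
  haveI : Fact (E ≤ E ⊔ Y) := ⟨le_sup_left⟩
  haveI : Fact (Y ≤ E ⊔ Y) := ⟨le_sup_right⟩
  haveI : Algebra.EssFiniteType k Y := hY
  haveI : Algebra.EssFiniteType k (E ⊔ Y : IntermediateField k Ω) := fin_sup hE hY
  obtain ⟨s, hs⟩ := exists_tb k Y
  have hYc : Fib.ClosedIn k Y := by
    intro a ha
    have h := IsAlgClosed.degree_eq_one_of_irreducible k (minpoly.irreducible ha.isIntegral)
    exact minpoly.mem_range_of_degree_eq_one k a h
  have h1 := (comp_sup h).closed_left hYc hs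
  obtain ⟨e, he⟩ := h1 ⟨x, hx⟩ ((isAlgebraic_algebraMap_iff
    (algebraMap (E ⊔ Y : IntermediateField k Ω) Ω).injective).mp hxE)
  have h2 := congrArg Subtype.val he
  rw [← show (e : Ω) = x from h2]
  exact e.2

omit [CharZero k] in
theorem exists_restrict {V P : IntermediateField k Ω} (h : Gal V P) [Fact (V ≤ P)]
    {γ : Ω ≃ₐ[k] Ω} (hγ : Fixes γ V) : ∃ s : P ≃ₐ[V] P, ∀ x : P, (s x : Ω) = γ x := by
  haveI : Algebra.IsAlgebraic V P := isAlg_iff.2 h.alg
  let f : P →ₐ[V] P :=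
    { toFun := fun x => ⟨γ x, h.stab γ hγ x x.2⟩
      map_one' := Subtype.ext (map_one γ)
      map_mul' := fun x y => Subtype.ext (map_mul γ (x : Ω) y)
      map_zero' := Subtype.ext (map_zero γ)
      map_add' := fun x y => Subtype.ext (map_add γ (x : Ω) y)
      commutes' := fun c => Subtype.ext (hγ _ c.2) }
  exact ⟨AlgEquiv.ofBijective f (Algebra.IsAlgebraic.algHom_bijective f), fun x => rfl⟩

/-- `P` and `E·Y` are linearly disjoint over `V`: every automorphism over `V` is on `P` the restriction of one over `E·Y` -/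
theorem Step.exists_lift [IsAlgClosed k] {V E M P Y : IntermediateField k Ω} (h : Step V E M P)
    (hY : Fin' Y) (hi : Indep (M ⊔ P) Y) (τ : Ω ≃ₐ[k] Ω) (hτ : Fixes τ V) :
    ∃ γ : Ω ≃ₐ[k] Ω, Fixes γ (E ⊔ Y) ∧ ∀ x ∈ P, γ x = τ x := by
  have hMP : Fin' (M ⊔ P) := fin_sup h.fgM h.fgP
  have hE : Fin' E := fin_le hMP h.le
  have hF : Fin' (E ⊔ Y) := fin_sup hE hY
  have hEY : Indep E Y := hi.mono_left hMP hY h.le
  have hG := h.gal
  haveI : Fact (V ≤ P) := ⟨hG.le⟩
  obtain ⟨hfin, hgal⟩ := hG.finite h.fgP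
  have hVE : V ≤ E := by
    rw [h.eq]
    exact inf_le_left
  have hVF : V ≤ E ⊔ Y := hVE.trans le_sup_left
  let H : Subgroup (P ≃ₐ[V] P) :=
    { carrier := {s | ∃ γ : Ω ≃ₐ[k] Ω, Fixes γ (E ⊔ Y) ∧ ∀ x : P, (s x : Ω) = γ x}
      one_mem' := ⟨AlgEquiv.refl, fun _ _ => rfl, fun _ => rfl⟩
      mul_mem' := by
        rintro s t ⟨γ, hγ, hs⟩ ⟨δ, hδ, ht⟩
        refine ⟨δ.trans γ, fun x hx => ?_, fun x => ?_⟩
        · rw [AlgEquiv.trans_apply, hδ x hx, hγ x hx]
        · rw [AlgEquiv.mul_apply, hs, ht, AlgEquiv.trans_apply]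
      inv_mem' := by
        rintro s ⟨γ, hγ, hs⟩
        refine ⟨γ.symm, fun x hx => ?_, fun x => ?_⟩
        · rw [AlgEquiv.symm_apply_eq, hγ x hx]
        · rw [AlgEquiv.eq_symm_apply, ← hs]
          congr 1
          exact AlgEquiv.apply_symm_apply s x }
  have hfix : IntermediateField.fixedField H = ⊥ := by
    rw [eq_bot_iff]
    intro x hx
    have h1 : ∀ γ : Ω ≃ₐ[k] Ω, Fixes γ (E ⊔ Y) → γ x = x := by
      intro γ hγ
      obtain ⟨s, hs⟩ := exists_restrict hG (hγ.mono hVF)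
      have h2 : s ∈ H := ⟨γ, hγ, hs⟩
      have h3 := (IntermediateField.mem_fixedField_iff H x).mp hx s h2
      rw [← hs, h3]
    have h2 : IsAlgebraic V (x : Ω) := hG.alg x x.2
    have h3 : (x : Ω) ∈ E ⊔ Y := mem_of_fixed hF (alg_mono hVF h2) h1
    have h4 : (x : Ω) ∈ E := closed_sup hE hY hEY h3 (alg_mono hVE h2)
    have h5 : (x : Ω) ∈ V := by
      rw [h.eq]
      exact ⟨h4, x.2⟩
    rw [IntermediateField.mem_bot]
    exact ⟨⟨x, h5⟩, Subtype.ext rfl⟩
  have hH : H = ⊤ := by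
    rw [← IntermediateField.fixingSubgroup_fixedField H, hfix, IntermediateField.fixingSubgroup_bot]
  obtain ⟨s, hs⟩ := exists_restrict hG hτ
  have h1 : s ∈ H := hH ▸ Subgroup.mem_top s
  obtain ⟨γ, hγ, hγs⟩ := h1
  exact ⟨γ, hγ, fun x hx => by rw [← hγs ⟨x, hx⟩, hs]⟩

end Pf72953.Tow
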