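import Mathlib
import Pool.Agent.Lib.Pf72953m.Defs
import Pool.Agent.Lib.Pf72953h.Curve

/-!
A smooth complete model of the curve `y² = x⁵ - 1`.
-/

set_option autoImplicit false
set_option linter.style.haveILetI false

open scoped WithZero
open Pf72953 Pf72953.Mov Pf72953.Fib.CurveAux

namespace Pf72953.Tow.CurveM

variable {k L : Type*} [Field k] [CharZero k] [Field L] [Algebra k L]

/-- the generators of the coordinate rings of the charts -/
def gens (x y : L) : Fin 3 → Set L :=
  ![{x, y, y⁻¹}, {x, y, x⁻¹}, {x⁻¹, y / x ^ 3, (1 - 6 * (x⁻¹) ^ 5)⁻¹}]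

/-- the coordinates -/
def coord (x y : L) : Fin 3 → L := ![x, y, y / x ^ 3]

theorem gens_finite (x y : L) (i : Fin 3) : (gens x y i).Finite := by
  fin_cases i <;> simp [gens]

theorem coord_mem (x y : L) (i : Fin 3) : coord x y i ∈ gens x y i := by
  fin_cases i <;> simp [gens, coord]

omit [CharZero k] in
theorem der_adjoin {S : Set L} (D : Derivation k L L) (h : ∀ s ∈ S, D s ∈ Algebra.adjoin k S) :
    ∀ f ∈ Algebra.adjoin k S, D f ∈ Algebra.adjoin k S := by
  intro f hf
  induction hf using Algebra.adjoin_induction with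
  | mem s hs => exact h s hs
  | algebraMap r => rw [Derivation.map_algebraMap]; exact zero_mem _
  | add a b _ _ ha hb => rw [map_add]; exact add_mem ha hb
  | mul a b ha' hb' ha hb =>
    rw [Derivation.leibniz, smul_eq_mul, smul_eq_mul]
    exact add_mem (mul_mem ha' hb) (mul_mem hb' ha)

omit [CharZero k] in
theorem le_one_adjoin {S : Set L} (w : Valuation L ℤᵐ⁰)
    (hw : ∀ c : k, c ≠ 0 → w (algebraMap k L c) = 1) (h : ∀ s ∈ S, w s ≤ 1) :
    ∀ f ∈ Algebra.adjoin k S, w f ≤ 1 := by
  intro f hf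
  induction hf using Algebra.adjoin_induction with
  | mem s hs => exact h s hs
  | algebraMap r =>
    rcases eq_or_ne r 0 with rfl | hr
    · simp
    · exact (hw r hr).le
  | add a b _ _ ha hb => exact (w.map_add a b).trans (max_le ha hb)
  | mul a b _ _ ha hb => rw [map_mul]; exact mul_le_one' ha hb

omit [CharZero k] in
theorem num_mem {S : Set L} {f : L} (n : ℕ) (hf : f ∈ Algebra.adjoin k S) :
    (n : L) * f ∈ Algebra.adjoin k S :=
  mul_mem (natCast_mem _ n) hf

/-- the derivative of a generator -/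
theorem der_gens {x y : L} (h : y ^ 2 = x ^ 5 - 1) (hx : x ≠ 0) (hy : y ≠ 0)
    (hu : 1 - 6 * (x⁻¹) ^ 5 ≠ 0) (i : Fin 3) (D : Derivation k L L)
    (hD : D (coord x y i) ∈ Algebra.adjoin k (gens x y i)) :
    ∀ s ∈ gens x y i, D s ∈ Algebra.adjoin k (gens x y i) := by
  haveI : CharZero L := charZero_of_injective_algebraMap (algebraMap k L).injective
  have h2 : ∀ S : Set L, (2⁻¹ : L) ∈ Algebra.adjoin k S := fun S => by
    have := (Algebra.adjoin k S).algebraMap_mem (2⁻¹ : k)
    rwa [map_inv₀, map_ofNat] at this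
  have h5 : ∀ S : Set L, (5⁻¹ : L) ∈ Algebra.adjoin k S := fun S => by
    have := (Algebra.adjoin k S).algebraMap_mem (5⁻¹ : k)
    rwa [map_inv₀, map_ofNat] at this
  have hder : 2 * y * D y = 5 * x ^ 4 * D x := by
    have h1 := congrArg D h
    rw [map_sub, Derivation.map_one_eq_zero, sub_zero, Derivation.leibniz_pow,
      Derivation.leibniz_pow] at h1
    simp only [nsmul_eq_mul, smul_eq_mul, Nat.cast_ofNat] at h1
    linear_combination h1
  fin_cases i
  · have hD' : D x ∈ Algebra.adjoin k ({x, y, y⁻¹} : Set L) := hD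
    have m1 : x ∈ Algebra.adjoin k ({x, y, y⁻¹} : Set L) := Algebra.subset_adjoin (by simp)
    have m2 : y ∈ Algebra.adjoin k ({x, y, y⁻¹} : Set L) := Algebra.subset_adjoin (by simp)
    have m3 : y⁻¹ ∈ Algebra.adjoin k ({x, y, y⁻¹} : Set L) := Algebra.subset_adjoin (by simp)
    have e1 : D y = 2⁻¹ * (5 : ℕ) * (x ^ 4 * (y⁻¹ * D x)) := by
      field_simp
      push_cast
      linear_combination hder
    have m4 : D y ∈ Algebra.adjoin k ({x, y, y⁻¹} : Set L) := by
      rw [e1]
      exact mul_mem (mul_mem (h2 _) (natCast_mem _ 5)) (mul_mem (pow_mem m1 4) (mul_mem m3 hD'))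
    intro s hs
    change s ∈ ({x, y, y⁻¹} : Set L) at hs
    change D s ∈ Algebra.adjoin k ({x, y, y⁻¹} : Set L)
    rcases hs with rfl | rfl | rfl
    · exact hD'
    · exact m4
    · rw [Derivation.leibniz_inv, smul_eq_mul, neg_mul]
      exact neg_mem (mul_mem (pow_mem m3 2) m4)
  · have hD' : D y ∈ Algebra.adjoin k ({x, y, x⁻¹} : Set L) := hD
    have m1 : x ∈ Algebra.adjoin k ({x, y, x⁻¹} : Set L) := Algebra.subset_adjoin (by simp)
    have m2 : y ∈ Algebra.adjoin k ({x, y, x⁻¹} : Set L) := Algebra.subset_adjoin (by simp)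
    have m3 : x⁻¹ ∈ Algebra.adjoin k ({x, y, x⁻¹} : Set L) := Algebra.subset_adjoin (by simp)
    have e1 : D x = 5⁻¹ * (2 : ℕ) * ((x⁻¹) ^ 4 * (y * D y)) := by
      field_simp
      push_cast
      linear_combination -hder
    have m4 : D x ∈ Algebra.adjoin k ({x, y, x⁻¹} : Set L) := by
      rw [e1]
      exact mul_mem (mul_mem (h5 _) (natCast_mem _ 2)) (mul_mem (pow_mem m3 4) (mul_mem m2 hD'))
    intro s hs
    change s ∈ ({x, y, x⁻¹} : Set L) at hs
    change D s ∈ Algebra.adjoin k ({x, y, x⁻¹} : Set L)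
    rcases hs with rfl | rfl | rfl
    · exact m4
    · exact hD'
    · rw [Derivation.leibniz_inv, smul_eq_mul, neg_mul]
      exact neg_mem (mul_mem (pow_mem m3 2) m4)
  · set u := x⁻¹ with hu'
    set v := y / x ^ 3 with hv
    have hvv : v ^ 2 = u - u ^ 6 := by
      rw [hv, hu', div_pow, h]
      field_simp
    have hder' : 2 * v * D v = (1 - 6 * u ^ 5) * D u := by
      have h1 := congrArg D hvv
      rw [map_sub, Derivation.leibniz_pow, Derivation.leibniz_pow] at h1
      simp only [nsmul_eq_mul, smul_eq_mul, Nat.cast_ofNat] at h1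
      linear_combination h1
    have hD' : D v ∈ Algebra.adjoin k ({u, v, (1 - 6 * u ^ 5)⁻¹} : Set L) := hD
    have m1 : u ∈ Algebra.adjoin k ({u, v, (1 - 6 * u ^ 5)⁻¹} : Set L) :=
      Algebra.subset_adjoin (by simp)
    have m2 : v ∈ Algebra.adjoin k ({u, v, (1 - 6 * u ^ 5)⁻¹} : Set L) :=
      Algebra.subset_adjoin (by simp)
    have m3 : (1 - 6 * u ^ 5)⁻¹ ∈ Algebra.adjoin k ({u, v, (1 - 6 * u ^ 5)⁻¹} : Set L) :=
      Algebra.subset_adjoin (by simp)
    have e1 : D u = (2 : ℕ) * ((1 - 6 * u ^ 5)⁻¹ * (v * D v)) := by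
      field_simp
      push_cast
      linear_combination -hder'
    have m4 : D u ∈ Algebra.adjoin k ({u, v, (1 - 6 * u ^ 5)⁻¹} : Set L) := by
      rw [e1]
      exact mul_mem (natCast_mem _ 2) (mul_mem m3 (mul_mem m2 hD'))
    intro s hs
    change s ∈ ({u, v, (1 - 6 * u ^ 5)⁻¹} : Set L) at hs
    change D s ∈ Algebra.adjoin k ({u, v, (1 - 6 * u ^ 5)⁻¹} : Set L)
    rcases hs with rfl | rfl | rfl
    · exact m4
    · exact hD'
    · have e2 : D (1 - 6 * u ^ 5) = -((30 : ℕ) * (u ^ 4 * D u)) := by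
        rw [map_sub, Derivation.map_one_eq_zero, Derivation.leibniz, Derivation.leibniz_pow,
          show (6 : L) = ((6 : ℕ) : L) by norm_num, Derivation.map_natCast]
        simp only [nsmul_eq_mul, smul_eq_mul, Nat.cast_ofNat]
        ring
      rw [Derivation.leibniz_inv, smul_eq_mul, e2]
      refine mul_mem (neg_mem (pow_mem m3 2)) (neg_mem (mul_mem (natCast_mem _ 30)
        (mul_mem (pow_mem m1 4) m4)))

/-- every valuation is centred on a chart -/
theorem cover {x y : L} (h : y ^ 2 = x ^ 5 - 1) (hx : x ≠ 0) (hy : y ≠ 0) (w : Valuation L ℤᵐ⁰)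
    (hw : ∀ c : k, c ≠ 0 → w (algebraMap k L c) = 1) : ∃ i, ∀ s ∈ gens x y i, w s ≤ 1 := by
  have w6 : w (6 : L) = 1 := by exact_mod_cast val_nat (n := 6) hw (by norm_num)
  have hx0 : w x ≠ 0 := (Valuation.ne_zero_iff w).mpr hx
  have hy0 : w y ≠ 0 := (Valuation.ne_zero_iff w).mpr hy
  rcases le_or_gt (w x) 1 with hx1 | hx1
  · have hy1 : w y ≤ 1 := by
      by_contra hcon
      push Not at hcon
      have h1 : 1 < w (y ^ 2) := by
        rw [map_pow]
        exact one_lt_pow₀ hcon two_ne_zero
      rw [h] at h1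
      have h2 : w (x ^ 5 - 1) ≤ 1 := by
        refine (w.map_sub _ _).trans (max_le ?_ (by rw [map_one]))
        rw [map_pow]
        exact pow_le_one' hx1 5
      exact absurd h1 (not_lt.mpr h2)
    rcases hy1.eq_or_lt with hy2 | hy2
    · refine ⟨0, fun s hs => ?_⟩
      change s ∈ ({x, y, y⁻¹} : Set L) at hs
      rcases hs with rfl | rfl | rfl
      · exact hx1
      · exact hy1
      · rw [map_inv₀, hy2, inv_one]
    · have hx2 : w x = 1 := by
        refine le_antisymm hx1 (not_lt.mp fun hcon => ?_)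
        have h1 : w (x ^ 5) < 1 := by
          rw [map_pow]
          exact pow_lt_one' hcon (by norm_num)
        have h2 : w (1 - x ^ 5) = 1 := w.map_one_sub_of_lt h1
        have h3 : w (y ^ 2) = 1 := by
          rw [h, w.map_sub_swap, h2]
        rw [map_pow] at h3
        exact absurd h3 (pow_lt_one' hy2 two_ne_zero).ne
      refine ⟨1, fun s hs => ?_⟩
      change s ∈ ({x, y, x⁻¹} : Set L) at hs
      rcases hs with rfl | rfl | rfl
      · exact hx1
      · exact hy1
      · rw [map_inv₀, hx2, inv_one]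
  · have hu1 : w x⁻¹ < 1 := by
      rw [map_inv₀]
      exact inv_lt_one_of_one_lt₀ hx1
    have hvv : (y / x ^ 3) ^ 2 = x⁻¹ - (x⁻¹) ^ 6 := by
      rw [div_pow, h]
      field_simp
    have hv1 : w (y / x ^ 3) ≤ 1 := by
      by_contra hcon
      push Not at hcon
      have h1 : 1 < w ((y / x ^ 3) ^ 2) := by
        rw [map_pow]
        exact one_lt_pow₀ hcon two_ne_zero
      rw [hvv] at h1
      have h2 : w (x⁻¹ - (x⁻¹) ^ 6) ≤ 1 := by
        refine (w.map_sub _ _).trans (max_le hu1.le ?_)
        rw [map_pow]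
        exact pow_le_one' hu1.le 6
      exact absurd h1 (not_lt.mpr h2)
    have h6 : w (1 - 6 * (x⁻¹) ^ 5) = 1 := by
      refine w.map_one_sub_of_lt ?_
      rw [map_mul, w6, one_mul, map_pow]
      exact pow_lt_one' hu1 (by norm_num)
    refine ⟨2, fun s hs => ?_⟩
    change s ∈ ({x⁻¹, y / x ^ 3, (1 - 6 * (x⁻¹) ^ 5)⁻¹} : Set L) at hs
    rcases hs with rfl | rfl | rfl
    · exact hu1.le
    · exact hv1
    · rw [map_inv₀, h6, inv_one]

omit [CharZero k] in
theorem frac {x y : L} (hx : x ≠ 0) (hgen : IntermediateField.adjoin k ({x, y} : Set L) = ⊤)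
    (i : Fin 3) (f : L) : ∃ g ∈ Algebra.adjoin k (gens x y i), ∃ h ∈ Algebra.adjoin k (gens x y i),
      h ≠ 0 ∧ f = g / h := by
  have h1 : IntermediateField.adjoin k (gens x y i) = ⊤ := by
    rw [_root_.eq_top_iff, ← hgen, IntermediateField.adjoin_le_iff]
    have h2 : x ∈ IntermediateField.adjoin k (gens x y i) ∧
        y ∈ IntermediateField.adjoin k (gens x y i) := by
      have hs := IntermediateField.subset_adjoin k (gens x y i)
      fin_cases i
      · exact ⟨hs (by simp [gens]), hs (by simp [gens])⟩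
      · exact ⟨hs (by simp [gens]), hs (by simp [gens])⟩
      · have m1 : x⁻¹ ∈ IntermediateField.adjoin k (gens x y 2) := hs (by simp [gens])
        have m2 : y / x ^ 3 ∈ IntermediateField.adjoin k (gens x y 2) := hs (by simp [gens])
        have m3 : x ∈ IntermediateField.adjoin k (gens x y 2) := by
          have := inv_mem m1
          rwa [inv_inv] at this
        refine ⟨m3, ?_⟩
        have m4 := mul_mem m2 (pow_mem m3 3)
        rwa [div_mul_cancel₀ _ (pow_ne_zero 3 hx)] at m4
    rintro z (rfl | rfl)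
    · exact h2.1
    · exact h2.2
  obtain ⟨r, hr, s, hs, hf⟩ := IntermediateField.mem_adjoin_iff_div.mp
    (show f ∈ IntermediateField.adjoin k (gens x y i) by rw [h1]; trivial)
  rcases eq_or_ne s 0 with rfl | hs0
  · exact ⟨0, zero_mem _, 1, one_mem _, one_ne_zero, by rw [hf]; simp⟩
  · exact ⟨r, hr, s, hs, hs0, hf⟩

omit [CharZero k] in
theorem ne_zero_of {x : L} (hx : Transcendental k x) : x ≠ 0 := by
  rintro rfl
  exact hx isAlgebraic_zero

theorem transcendental_coord {x y : L} (h : y ^ 2 = x ^ 5 - 1) (hx : Transcendental k x)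
    (i : Fin 3) : Transcendental k (coord x y i) := by
  have hx0 : x ≠ 0 := ne_zero_of hx
  fin_cases i
  · exact hx
  · intro hy
    refine hx (IsAlgebraic.of_aeval (Polynomial.X ^ 5 - Polynomial.C 1) ?_ ?_ ?_)
    · rw [Polynomial.natDegree_X_pow_sub_C]
      norm_num
    · rw [(Polynomial.monic_X_pow_sub_C (1 : k) (by norm_num : 5 ≠ 0)).leadingCoeff]
      exact one_mem _
    · have h1 : Polynomial.aeval x (Polynomial.X ^ 5 - Polynomial.C 1 : Polynomial k) = y ^ 2 := by
        rw [h]
        simp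
      rw [h1]
      exact IsAlgebraic.pow hy 2
  · intro hv
    have hu : IsAlgebraic k x⁻¹ := by
      have hm : (Polynomial.X ^ 6 - Polynomial.X : Polynomial k).Monic :=
        Polynomial.monic_X_pow_sub (by rw [Polynomial.degree_X]; norm_num)
      refine IsAlgebraic.of_aeval (Polynomial.X ^ 6 - Polynomial.X) ?_ ?_ ?_
      · have h2 : (Polynomial.X ^ 6 - Polynomial.X : Polynomial k).natDegree = 6 := by
          compute_degree!
        rw [h2]
        norm_num
      · rw [hm.leadingCoeff]
        exact one_mem _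
      · have h1 : Polynomial.aeval x⁻¹ (Polynomial.X ^ 6 - Polynomial.X : Polynomial k) =
            -(y / x ^ 3) ^ 2 := by
          rw [div_pow, h]
          simp only [map_sub, map_pow, Polynomial.aeval_X]
          field_simp
          ring
        rw [h1]
        exact (IsAlgebraic.pow hv 2).neg
    exact hx (by simpa using hu.inv)

/-- a smooth complete model of the curve `y² = x⁵ - 1` -/
noncomputable def model (x y : L) (h : y ^ 2 = x ^ 5 - 1) (hx : Transcendental k x)
    (hgen : IntermediateField.adjoin k ({x, y} : Set L) = ⊤) (hdim : dimension k L = 1)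
    [Algebra.EssFiniteType k L] : SmoothModel k L :=
  have hx0 : x ≠ 0 := ne_zero_of hx
  have hy0 : y ≠ 0 := fun h0 => ne_zero_of (transcendental_coord h hx 1) h0
  have hu0 : 1 - 6 * (x⁻¹) ^ 5 ≠ 0 := by
    intro h0
    refine hx ?_
    have h1 : x ^ 5 = ((6 : ℕ) : L) := by
      rw [inv_pow] at h0
      field_simp at h0
      push_cast
      linear_combination h0
    refine IsAlgebraic.of_pow (n := 5) (by norm_num) ?_
    rw [h1]
    exact isAlgebraic_natCast 6
  { I := Fin 3
    finite := inferInstance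
    A := fun i => Algebra.adjoin k (gens x y i)
    x := fun i _ => coord x y i
    fg := fun i => ⟨(gens_finite x y i).toFinset, by rw [Set.Finite.coe_toFinset]⟩
    frac := fun i f => frac hx0 hgen i f
    tb := fun i => by
      haveI : Unique (Fin (dimension k L)) := by
        rw [hdim]
        infer_instance
      refine isTranscendenceBasis_of_card (Fintype.card_fin _) ?_
      rw [algebraicIndependent_unique_type_iff]
      exact transcendental_coord h hx i
    mem := fun i _ => Algebra.subset_adjoin (coord_mem x y i)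
    der := fun i D hD => der_adjoin D (der_gens h hx0 hy0 hu0 i D
      (hD ⟨0, by rw [hdim]; exact one_pos⟩))
    cover := fun w hw => by
      obtain ⟨i, hi⟩ := cover h hx0 hy0 w hw
      exact ⟨i, le_one_adjoin w hw hi⟩ }

end Pf72953.Tow.CurveM
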