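import Mathlib
import Pool.Agent.Lib.Pf72953j.Defs

/-!
Towers of isotrivial fibre spaces: the test varieties `C^m`, `C` the curve `y² = x⁵ - 1`.
-/

set_option autoImplicit false
set_option linter.style.haveILetI false

open scoped WithZero
open Pf72953 Pf72953.Mov

namespace Pf72953.Tow

variable {k Ω : Type*} [Field k] [Field Ω] [Algebra k Ω]

/-- `Y` is the function field of `C^m`, `C` the curve `y² = x⁵ - 1` of genus 2, for some `m`. -/
def CurveProd (Y : IntermediateField k Ω) : Prop :=
  ∃ (m : ℕ) (x y : Fin m → Ω), AlgebraicIndependent k x ∧ (∀ i, y i ^ 2 = x i ^ 5 - 1) ∧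
    Y = IntermediateField.adjoin k (Set.range x ∪ Set.range y)

/-- The stable form of Iitaka's inequality for `V/B`: for every `Y = k(C^m)` independent of `V` and every finite Galois
extension `Q` of `V·Y`, `κ(Q/B·Y) + κ(B) + dim Y ≤ κ(Q)`. -/
def StableC (B V : IntermediateField k Ω) : Prop :=
  B ≤ V ∧ ∀ Y Q : IntermediateField k Ω, CurveProd Y → Indep V Y → Fin' Q → Gal (V ⊔ Y) Q →
    ∀ b c : ℕ, KodairaGE k B b → KGE (B ⊔ Y) Q c → KodairaGE k Q (b + c + dimension k Y)

end Pf72953.Tow
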