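import Mathlib
import Pool.Agent.Lib.Pf72953j.Defs
import Pool.Agent.Lib.Pf72953h.Curve

/-!
Coverings of general type: `M(y_1, …, y_n)`, `y_i² = x_i⁵ - 1`, `x` a transcendence basis of `M`.
-/

set_option autoImplicit false
set_option linter.style.haveILetI false

open scoped WithZero
open Pf72953 Pf72953.Mov Pf72953.Fib.CurveAux

namespace Pf72953.Tow

/-- a product of forms of degree one in one variable -/
theorem prod_mem {k L ι : Type*} [Field k] [CharZero k] [Field L] [Algebra k L] [Fintype ι]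
    [DecidableEq ι] (x v : ι → L)
    (h : ∀ (w : Valuation L ℤᵐ⁰) (D : Derivation k L L), (∀ c : k, c ≠ 0 → w (algebraMap k L c) = 1) →
      (∀ a, w a ≤ 1 → w (D a) ≤ 1) → ∀ j, w (v j * D (x j)) ≤ 1) :
    ∏ j, v j ∈ WReg k x 1 := by
  intro w hw c hc
  have h1 : (∏ j, v j) * jac hc.tb x =
      Matrix.det (Matrix.of fun i j => v j * (Matrix.of fun i j => pd hc.tb i (x j)) i j) := by
    rw [Matrix.det_mul_row, jac_eq_det]
  rw [pow_one, ← map_mul, h1, Matrix.det_apply]
  refine Valuation.map_sum_le _ fun σ _ => ?_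
  rw [Units.smul_def, zsmul_eq_mul, map_mul]
  have h2 : w (((Equiv.Perm.sign σ : ℤˣ) : ℤ) : L) ≤ 1 := by
    rcases Int.units_eq_one_or (Equiv.Perm.sign σ) with h3 | h3 <;> rw [h3] <;> simp
  refine (mul_le_mul' h2 ?_).trans (one_mul (1 : ℤᵐ⁰)).le
  rw [map_prod]
  refine Finset.prod_le_one' fun j _ => ?_
  exact h w (pd hc.tb (σ j)) hw.const (fun a ha => hc.der _ a ha) j

theorem general_of_curves {k L : Type*} [Field k] [CharZero k] [Field L] [Algebra k L]
    [Algebra.EssFiniteType k L] {x : Fin (dimension k L) → L} (hx : IsTranscendenceBasis k x)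
    {y : Fin (dimension k L) → L} (hxy : ∀ i, y i ^ 2 = x i ^ 5 - 1) (hy : ∀ i, y i ≠ 0) :
    KodairaGE k L (dimension k L) := by
  classical
  refine KodairaGE.of_coord hx (m := 1) le_rfl (f₀ := ∏ j, (y j)⁻¹) (f := x) ?_
    (Finset.prod_ne_zero_iff.mpr fun j _ => inv_ne_zero (hy j)) hx.1 fun i => ?_
  · refine prod_mem x (fun j => (y j)⁻¹) fun w D hc hD j => ?_
    have h := (local_le hc D hD (hy j) (hxy j)).1
    rwa [div_eq_mul_inv, mul_comm] at h
  · have h1 : x i * ∏ j, (y j)⁻¹ = ∏ j, ((if j = i then x j else 1) * (y j)⁻¹) := by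
      rw [Finset.prod_mul_distrib, Finset.prod_ite_eq' Finset.univ i x, if_pos (Finset.mem_univ i)]
    rw [h1]
    refine prod_mem x (fun j => (if j = i then x j else 1) * (y j)⁻¹) fun w D hc hD j => ?_
    by_cases hj : j = i
    · have h := (local_le hc D hD (hy j) (hxy j)).2
      rw [div_eq_mul_inv, mul_comm (D (x j)), ← mul_assoc] at h
      rw [if_pos hj]
      exact h
    · have h := (local_le hc D hD (hy j) (hxy j)).1
      rw [div_eq_mul_inv, mul_comm] at h
      rw [if_neg hj, one_mul]
      exact h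

variable {k Ω : Type*} [Field k] [CharZero k] [IsAlgClosed k] [Field Ω] [IsAlgClosed Ω] [Algebra k Ω]

theorem general_of_curves' {k L : Type*} [Field k] [CharZero k] [Field L] [Algebra k L]
    [Algebra.EssFiniteType k L] {n : ℕ} {x : Fin n → L} (hx : IsTranscendenceBasis k x)
    {y : Fin n → L} (hxy : ∀ i, y i ^ 2 = x i ^ 5 - 1) (hy : ∀ i, y i ≠ 0) :
    KodairaGE k L (dimension k L) := by
  obtain rfl : n = dimension k L := by
    rw [← card_eq_of_isTranscendenceBasis hx, Fintype.card_fin]
  exact general_of_curves hx hxy hy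

omit [IsAlgClosed k] in
theorem exists_gt_cover (M : IntermediateField k Ω) (hM : Fin' M) :
    ∃ M' : IntermediateField k Ω, Fin' M' ∧ Gal M M' ∧ KodairaGE k M' (dimension k M') := by
  classical
  obtain ⟨x, hx⟩ := exists_tb k M
  have h1 : ∀ i, ∃ y : Ω, y ^ 2 = (x i : Ω) ^ 5 - 1 := fun i => IsAlgClosed.exists_pow_nat_eq _ two_pos
  choose y hy using h1
  have hy0 : ∀ i, y i ≠ 0 := by
    intro i h0
    have h2 : (x i : Ω) ^ 5 - 1 = 0 := by rw [← hy i, h0, zero_pow two_ne_zero]
    have h3 : (x i) ^ 5 - 1 = 0 := by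
      apply Subtype.ext
      push_cast
      exact h2
    have h4 : IsAlgebraic k (x i) := by
      refine ⟨Polynomial.X ^ 5 - 1, ?_, by simpa using h3⟩
      intro h5
      have h6 := congrArg Polynomial.natDegree h5
      rw [← Polynomial.C_1, Polynomial.natDegree_X_pow_sub_C, Polynomial.natDegree_zero] at h6
      omega
    exact (hx.1.transcendental i) h4
  have hint : ∀ z ∈ Set.range y, IsIntegral M z := by
    rintro _ ⟨i, rfl⟩
    refine ⟨Polynomial.X ^ 2 - Polynomial.C (x i ^ 5 - 1), Polynomial.monic_X_pow_sub_C _ two_ne_zero, ?_⟩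
    simp [hy i]
  haveI hfin : FiniteDimensional M (IntermediateField.adjoin M (Set.range y)) :=
    IntermediateField.finiteDimensional_adjoin hint
  haveI : Algebra.EssFiniteType k M := hM
  haveI hE : Algebra.EssFiniteType k (IntermediateField.adjoin M (Set.range y)) :=
    Algebra.EssFiniteType.comp k M _
  refine ⟨(IntermediateField.adjoin M (Set.range y)).restrictScalars k, hE, ⟨?_, ?_, ?_⟩, ?_⟩
  · intro z hz
    exact (IntermediateField.adjoin M (Set.range y)).algebraMap_mem ⟨z, hz⟩
  · intro z hz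
    have h2 : IsAlgebraic M (⟨z, hz⟩ : IntermediateField.adjoin M (Set.range y)) :=
      Algebra.IsAlgebraic.isAlgebraic _
    exact h2.algebraMap (A := Ω)
  · intro σ hσ z hz
    let σ' : Ω →ₐ[M] Ω := { (σ : Ω →+* Ω) with commutes' := fun m => hσ m m.2 }
    have h2 : (IntermediateField.adjoin M (Set.range y)).map σ' ≤
        IntermediateField.adjoin M (Set.range y) := by
      rw [IntermediateField.adjoin_map, IntermediateField.adjoin_le_iff]
      rintro _ ⟨_, ⟨i, rfl⟩, rfl⟩
      have h3 : (σ' (y i)) ^ 2 = (y i) ^ 2 := by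
        rw [← map_pow, hy i]
        exact σ'.commutes (x i ^ 5 - 1)
      have h4 : y i ∈ IntermediateField.adjoin M (Set.range y) :=
        IntermediateField.subset_adjoin _ _ ⟨i, rfl⟩
      rcases sq_eq_sq_iff_eq_or_eq_neg.mp h3 with h5 | h5
      · rw [h5]
        exact h4
      · rw [h5]
        exact neg_mem h4
    exact h2 ⟨z, hz, rfl⟩
  · have h2 : IsTranscendenceBasis k (fun i =>
        algebraMap M (IntermediateField.adjoin M (Set.range y)) (x i)) := hx.algebraMap_comp
    refine general_of_curves' (k := k) (L := IntermediateField.adjoin M (Set.range y)) h2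
      (y := fun i => ⟨y i, IntermediateField.subset_adjoin _ _ ⟨i, rfl⟩⟩) ?_ ?_
    · intro i
      exact Subtype.ext (hy i)
    · intro i h0
      exact hy0 i (congrArg Subtype.val h0)

end Pf72953.Tow
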