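import Mathlib
import Pool.Agent.Lib.Pf72953m.Defs
import Pool.Agent.Lib.Pf72953f.Comp
import Pool.Agent.Lib.Pf72953b.NonVan

/-!
The product of two smooth complete models.
-/

set_option autoImplicit false
set_option linter.style.haveILetI false

open scoped WithZero
open Pf72953 Pf72953.Mov Pf72953.Fib

namespace Pf72953.Tow

section prod

variable {k A C N : Type*} [Field k] [Field A] [Field C] [Field N]
  [Algebra k A] [Algebra k C] [Algebra k N] [Algebra A N] [Algebra C N] [IsScalarTower k A N]
  [IsScalarTower k C N]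

/-- the coordinate ring of a product of charts -/
def prodA (U : Subalgebra k A) (T : Subalgebra k C) (N : Type*) [Field N] [Algebra k N]
    [Algebra A N] [Algebra C N] [IsScalarTower k A N] [IsScalarTower k C N] : Subalgebra k N :=
  U.map (IsScalarTower.toAlgHom k A N) ⊔ T.map (IsScalarTower.toAlgHom k C N)

theorem mem_prodA_left {U : Subalgebra k A} {T : Subalgebra k C} {u : A} (hu : u ∈ U) :
    algebraMap A N u ∈ prodA U T N :=
  (le_sup_left : U.map (IsScalarTower.toAlgHom k A N) ≤ prodA U T N) ⟨u, hu, rfl⟩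

theorem mem_prodA_right {U : Subalgebra k A} {T : Subalgebra k C} {u : C} (hu : u ∈ T) :
    algebraMap C N u ∈ prodA U T N :=
  (le_sup_right : T.map (IsScalarTower.toAlgHom k C N) ≤ prodA U T N) ⟨u, hu, rfl⟩

theorem prodA_induction {U : Subalgebra k A} {T : Subalgebra k C} {S : Subalgebra k N}
    (h1 : ∀ u ∈ U, algebraMap A N u ∈ S) (h2 : ∀ u ∈ T, algebraMap C N u ∈ S) :
    prodA U T N ≤ S := by
  refine sup_le ?_ ?_
  · rintro _ ⟨u, hu, rfl⟩
    exact h1 u hu
  · rintro _ ⟨u, hu, rfl⟩
    exact h2 u hu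

theorem prodA_frac (h : Comp k A C N) {U : Subalgebra k A} {T : Subalgebra k C}
    (hU : ∀ f : A, ∃ g ∈ U, ∃ h ∈ U, h ≠ 0 ∧ f = g / h)
    (hT : ∀ f : C, ∃ g ∈ T, ∃ h ∈ T, h ≠ 0 ∧ f = g / h) (z : N) :
    ∃ g ∈ prodA U T N, ∃ h ∈ prodA U T N, h ≠ 0 ∧ z = g / h := by
  have hz : z ∈ IntermediateField.adjoin k
      (Set.range (algebraMap A N) ∪ Set.range (algebraMap C N)) := by
    rw [h.gen]
    exact IntermediateField.mem_top
  induction hz using IntermediateField.adjoin_induction with
  | mem x hx =>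
    rcases hx with ⟨c, rfl⟩ | ⟨c, rfl⟩
    · obtain ⟨g, hg, q, hq, hq0, rfl⟩ := hU c
      exact ⟨_, mem_prodA_left hg, _, mem_prodA_left hq, by simpa using hq0, map_div₀ _ _ _⟩
    · obtain ⟨g, hg, q, hq, hq0, rfl⟩ := hT c
      exact ⟨_, mem_prodA_right hg, _, mem_prodA_right hq, by simpa using hq0, map_div₀ _ _ _⟩
  | algebraMap r =>
    exact ⟨_, Subalgebra.algebraMap_mem _ r, 1, Subalgebra.one_mem _, one_ne_zero, (div_one _).symm⟩
  | add x y _ _ hx hy =>
    obtain ⟨g, hg, q, hq, hq0, rfl⟩ := hx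
    obtain ⟨g', hg', q', hq', hq0', rfl⟩ := hy
    exact ⟨g * q' + q * g', Subalgebra.add_mem _ (Subalgebra.mul_mem _ hg hq')
      (Subalgebra.mul_mem _ hq hg'), q * q', Subalgebra.mul_mem _ hq hq', mul_ne_zero hq0 hq0',
      div_add_div _ _ hq0 hq0'⟩
  | inv x _ hx =>
    obtain ⟨g, hg, q, hq, hq0, rfl⟩ := hx
    by_cases hg0 : g = 0
    · exact ⟨0, Subalgebra.zero_mem _, 1, Subalgebra.one_mem _, one_ne_zero, by
        rw [hg0, zero_div, inv_zero, zero_div]⟩
    · exact ⟨q, hq, g, hg, hg0, by rw [inv_div]⟩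
  | mul x y _ _ hx hy =>
    obtain ⟨g, hg, q, hq, hq0, rfl⟩ := hx
    obtain ⟨g', hg', q', hq', hq0', rfl⟩ := hy
    exact ⟨g * g', Subalgebra.mul_mem _ hg hg', q * q', Subalgebra.mul_mem _ hq hq',
      mul_ne_zero hq0 hq0', div_mul_div_comm _ _ _ _⟩

theorem der_mem_left [CharZero k] {MA : SmoothModel k A} {T : Subalgebra k C} (i : MA.I)
    (D : Derivation k N N) (hD : ∀ a, D (algebraMap A N (MA.x i a)) ∈ prodA (MA.A i) T N)
    {f : A} (hf : f ∈ MA.A i) : D (algebraMap A N f) ∈ prodA (MA.A i) T N := by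
  classical
  rw [Br.NonVanAux.der_restrict (MA.tb i) D f]
  refine Subalgebra.sum_mem _ fun b _ => Subalgebra.mul_mem _ (mem_prodA_left ?_) (hD b)
  refine MA.der i (pd (MA.tb i) b) (fun a => ?_) f hf
  rw [pd_self]
  split_ifs
  · exact Subalgebra.one_mem _
  · exact Subalgebra.zero_mem _

theorem der_mem_right [CharZero k] {MC : SmoothModel k C} {U : Subalgebra k A} (i : MC.I)
    (D : Derivation k N N) (hD : ∀ a, D (algebraMap C N (MC.x i a)) ∈ prodA U (MC.A i) N)
    {f : C} (hf : f ∈ MC.A i) : D (algebraMap C N f) ∈ prodA U (MC.A i) N := by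
  classical
  rw [Br.NonVanAux.der_restrict (MC.tb i) D f]
  refine Subalgebra.sum_mem _ fun b _ => Subalgebra.mul_mem _ (mem_prodA_right ?_) (hD b)
  refine MC.der i (pd (MC.tb i) b) (fun a => ?_) f hf
  rw [pd_self]
  split_ifs
  · exact Subalgebra.one_mem _
  · exact Subalgebra.zero_mem _

/-- reindexing of the coordinates -/
noncomputable def prodIdx (h : Comp k A C N) :
    Fin (dimension k N) ≃ Fin (dimension k A) ⊕ Fin (dimension k C) :=
  (finCongr h.dim.symm).trans finSumFinEquiv.symm

/-- the product of two smooth complete models -/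
noncomputable def prodModel [CharZero k] [Algebra.EssFiniteType k N] (h : Comp k A C N)
    (MA : SmoothModel k A) (MC : SmoothModel k C) : SmoothModel k N where
  I := MA.I × MC.I
  finite := by
    haveI := MA.finite
    haveI := MC.finite
    infer_instance
  A p := prodA (MA.A p.1) (MC.A p.2) N
  x p := (Sum.elim (fun a => algebraMap A N (MA.x p.1 a)) (fun b => algebraMap C N (MC.x p.2 b))) ∘
    prodIdx h
  fg p := (((MA.fg p.1).map _).sup ((MC.fg p.2).map _))
  frac p f := prodA_frac h (MA.frac p.1) (MC.frac p.2) f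
  tb p := (isTranscendenceBasis_equiv (prodIdx h)).mpr (h.tbSum (MA.tb p.1) (MC.tb p.2))
  mem p a := by
    simp only [Function.comp_apply]
    rcases prodIdx h a with b | b
    · exact mem_prodA_left (MA.mem p.1 b)
    · exact mem_prodA_right (MC.mem p.2 b)
  der p D hD f hf := by
    have hD' : ∀ s, D ((Sum.elim (fun a => algebraMap A N (MA.x p.1 a))
        (fun b => algebraMap C N (MC.x p.2 b))) s) ∈ prodA (MA.A p.1) (MC.A p.2) N := fun s => by
      have h1 := hD ((prodIdx h).symm s)
      simpa using h1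
    have key : prodA (MA.A p.1) (MC.A p.2) N ≤
        { carrier := {f | f ∈ prodA (MA.A p.1) (MC.A p.2) N ∧
            D f ∈ prodA (MA.A p.1) (MC.A p.2) N}
          mul_mem' := fun {a b} ha hb => ⟨Subalgebra.mul_mem _ ha.1 hb.1, by
            rw [Derivation.leibniz, smul_eq_mul, smul_eq_mul]
            exact Subalgebra.add_mem _ (Subalgebra.mul_mem _ ha.1 hb.2)
              (Subalgebra.mul_mem _ hb.1 ha.2)⟩
          add_mem' := fun {a b} ha hb => ⟨Subalgebra.add_mem _ ha.1 hb.1, by
            rw [map_add]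
            exact Subalgebra.add_mem _ ha.2 hb.2⟩
          algebraMap_mem' := fun r => ⟨Subalgebra.algebraMap_mem _ r, by
            rw [Derivation.map_algebraMap]
            exact Subalgebra.zero_mem _⟩ } := by
      refine prodA_induction (fun u hu => ⟨mem_prodA_left hu, ?_⟩)
        (fun u hu => ⟨mem_prodA_right hu, ?_⟩)
      · exact der_mem_left p.1 D (fun a => hD' (Sum.inl a)) hu
      · exact der_mem_right p.2 D (fun a => hD' (Sum.inr a)) hu
    exact (key hf).2
  cover v hv := by
    obtain ⟨i, hi⟩ := MA.cover (v.comap (algebraMap A N)) (fun c hc => by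
      rw [Valuation.comap_apply, ← IsScalarTower.algebraMap_apply k A N]
      exact hv c hc)
    obtain ⟨j, hj⟩ := MC.cover (v.comap (algebraMap C N)) (fun c hc => by
      rw [Valuation.comap_apply, ← IsScalarTower.algebraMap_apply k C N]
      exact hv c hc)
    refine ⟨(i, j), fun f hf => ?_⟩
    have key : prodA (MA.A i) (MC.A j) N ≤
        { carrier := {f | v f ≤ 1}
          mul_mem' := fun {a b} ha hb => by
            show v (a * b) ≤ 1
            rw [map_mul]
            exact mul_le_one' ha hb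
          add_mem' := fun {a b} ha hb => (v.map_add a b).trans (max_le ha hb)
          algebraMap_mem' := fun r => by
            show v (algebraMap k N r) ≤ 1
            rcases eq_or_ne r 0 with rfl | hr
            · rw [map_zero, map_zero]; exact zero_le_one
            · exact (hv r hr).le } :=
      prodA_induction (fun u hu => hi u hu) (fun u hu => hj u hu)
    exact key hf

end prod

end Pf72953.Tow
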