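import Mathlib
import Pool.Agent.Lib.Pf72953j.Defs
import Pool.Agent.Lib.Pf72953j.ProdM

/-!
The product of two smooth complete models, for subfields of `Ω`.
-/

set_option autoImplicit false
set_option linter.style.haveILetI false

open scoped WithZero
open Pf72953 Pf72953.Mov Pf72953.Fib

namespace Pf72953.Tow

variable {k Ω : Type*} [Field k] [Field Ω] [Algebra k Ω]

theorem comp_of_indep {A C : IntermediateField k Ω} [Fact (A ≤ A ⊔ C)] [Fact (C ≤ A ⊔ C)]
    (h : Indep A C) : Comp k A C (A ⊔ C : IntermediateField k Ω) := by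
  refine ⟨h.symm, ?_⟩
  rw [eq_top_iff]
  set T : IntermediateField k (A ⊔ C : IntermediateField k Ω) := IntermediateField.adjoin k
    (Set.range (algebraMap A (A ⊔ C : IntermediateField k Ω)) ∪
      Set.range (algebraMap C (A ⊔ C : IntermediateField k Ω))) with hT
  have h1 : A ⊔ C ≤ T.map (A ⊔ C : IntermediateField k Ω).val := by
    refine sup_le (fun x hx => ?_) (fun x hx => ?_)
    · refine ⟨⟨x, (le_sup_left : A ≤ A ⊔ C) hx⟩, IntermediateField.subset_adjoin _ _
        (Or.inl ⟨⟨x, hx⟩, rfl⟩), rfl⟩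
    · refine ⟨⟨x, (le_sup_right : C ≤ A ⊔ C) hx⟩, IntermediateField.subset_adjoin _ _
        (Or.inr ⟨⟨x, hx⟩, rfl⟩), rfl⟩
  rintro ⟨x, hx⟩ -
  obtain ⟨y, hy, hxy⟩ := h1 hx
  have h2 : y = ⟨x, hx⟩ := Subtype.ext hxy
  rw [← h2]
  exact hy

theorem product_model [CharZero k] {A C : IntermediateField k Ω} (hA : Fin' A) (hC : Fin' C)
    (h : Indep A C) (MA : SmoothModel k A) (MC : SmoothModel k C) :
    Nonempty (SmoothModel k (A ⊔ C : IntermediateField k Ω)) := by
  haveI : Fact (A ≤ A ⊔ C) := ⟨le_sup_left⟩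
  haveI : Fact (C ≤ A ⊔ C) := ⟨le_sup_right⟩
  haveI : Algebra.EssFiniteType k (A ⊔ C : IntermediateField k Ω) := by
    rw [Fin', IntermediateField.essFiniteType_iff] at hA hC
    rw [IntermediateField.essFiniteType_iff]
    obtain ⟨s, hs⟩ := hA
    obtain ⟨t, ht⟩ := hC
    classical
    refine ⟨s ∪ t, ?_⟩
    rw [Finset.coe_union, IntermediateField.adjoin_union, hs, ht]
  exact ⟨prodModel (comp_of_indep h) MA MC⟩

end Pf72953.Tow
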