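import Mathlib
import Pool.Agent.Lib.Pf72953j.CurveM
import Pool.Agent.Lib.Pf72953j.Gt
import Pool.Agent.Lib.Pf72953j.ProdI
import Pool.Agent.Lib.Pf72953j.Glue
import Pool.Agent.Lib.Pf72953j.Defs2

/-!
The function fields of the powers `C^m` of the curve `C : y² = x⁵ - 1`, as subfields of `Ω`.
-/

set_option autoImplicit false
set_option linter.style.haveILetI false

open scoped WithZero
open Pf72953 Pf72953.Mov

namespace Pf72953.Tow

variable {k Ω : Type*} [Field k] [Field Ω] [Algebra k Ω]

section gens

variable {m : ℕ} {x y : Fin m → Ω}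

theorem fin_gens : Fin' (IntermediateField.adjoin k (Set.range x ∪ Set.range y)) := by
  rw [Fin', IntermediateField.essFiniteType_iff]
  exact IntermediateField.fg_adjoin_of_finite ((Set.finite_range x).union (Set.finite_range y))

/-- the generators as elements of the field -/
def gx (x y : Fin m → Ω) (i : Fin m) : IntermediateField.adjoin k (Set.range x ∪ Set.range y) :=
  ⟨x i, IntermediateField.subset_adjoin k _ (Or.inl ⟨i, rfl⟩)⟩

/-- the generators as elements of the field -/
def gy (x y : Fin m → Ω) (i : Fin m) : IntermediateField.adjoin k (Set.range x ∪ Set.range y) :=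
  ⟨y i, IntermediateField.subset_adjoin k _ (Or.inr ⟨i, rfl⟩)⟩

theorem gen_top : IntermediateField.adjoin k (Set.range (gx (k := k) x y) ∪ Set.range (gy x y)) = ⊤ := by
  rw [_root_.eq_top_iff]
  rintro a -
  have h1 : IntermediateField.adjoin k (Set.range x ∪ Set.range y) ≤
      (IntermediateField.adjoin k (Set.range (gx (k := k) x y) ∪ Set.range (gy x y))).map
        (IntermediateField.adjoin k (Set.range x ∪ Set.range y)).val := by
    rw [IntermediateField.adjoin_le_iff]
    rintro _ (⟨i, rfl⟩ | ⟨i, rfl⟩)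
    · exact ⟨gx x y i, IntermediateField.subset_adjoin k _ (Or.inl ⟨i, rfl⟩), rfl⟩
    · exact ⟨gy x y i, IntermediateField.subset_adjoin k _ (Or.inr ⟨i, rfl⟩), rfl⟩
  obtain ⟨b, hb, hba⟩ := h1 a.2
  exact (Subtype.ext hba : b = a) ▸ hb

theorem alg_gens (h : ∀ i, y i ^ 2 = x i ^ 5 - 1) :
    Algebra.IsAlgebraic (Algebra.adjoin k (Set.range (gx (k := k) x y)))
      (IntermediateField.adjoin k (Set.range x ∪ Set.range y)) := by
  refine ⟨fun a => ?_⟩
  rw [← IntermediateField.isAlgebraic_adjoin_iff]
  have h1 : (⊤ : IntermediateField k (IntermediateField.adjoin k (Set.range x ∪ Set.range y))) ≤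
      (algebraicClosure (IntermediateField.adjoin k (Set.range (gx (k := k) x y)))
        (IntermediateField.adjoin k (Set.range x ∪ Set.range y))).restrictScalars k := by
    rw [← gen_top, IntermediateField.adjoin_le_iff]
    have hX : ∀ i, gx (k := k) x y i ∈ IntermediateField.adjoin k (Set.range (gx (k := k) x y)) :=
      fun i => IntermediateField.subset_adjoin k _ ⟨i, rfl⟩
    rintro _ (⟨i, rfl⟩ | ⟨i, rfl⟩)
    · exact mem_algebraicClosure_iff.2 (isAlgebraic_algebraMap (⟨_, hX i⟩ :
        IntermediateField.adjoin k (Set.range (gx (k := k) x y))))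
    · refine mem_algebraicClosure_iff.2 (IsAlgebraic.of_pow (n := 2) (by norm_num) ?_)
      have h2 : gy (k := k) x y i ^ 2 = algebraMap
          (IntermediateField.adjoin k (Set.range (gx (k := k) x y))) _
            (⟨_, hX i⟩ ^ 5 - 1) := by
        rw [map_sub, map_pow, map_one]
        exact Subtype.ext (h i)
      rw [h2]
      exact isAlgebraic_algebraMap _
  exact mem_algebraicClosure_iff.1 (h1 (by trivial))

theorem tb_gens (h : ∀ i, y i ^ 2 = x i ^ 5 - 1) (hx : AlgebraicIndependent k x) :
    IsTranscendenceBasis k (gx (k := k) x y) := by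
  have h1 : AlgebraicIndependent k (gx (k := k) x y) :=
    AlgebraicIndependent.of_comp (IntermediateField.val _) hx
  haveI := alg_gens (k := k) h
  exact h1.isTranscendenceBasis_iff_isAlgebraic.2 inferInstance

theorem dim_gens (h : ∀ i, y i ^ 2 = x i ^ 5 - 1) (hx : AlgebraicIndependent k x) :
    dimension k (IntermediateField.adjoin k (Set.range x ∪ Set.range y)) = m := by
  haveI : Algebra.EssFiniteType k (IntermediateField.adjoin k (Set.range x ∪ Set.range y)) := fin_gens
  rw [← card_eq_of_isTranscendenceBasis (tb_gens h hx), Fintype.card_fin]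

/-- the generators `x` are independent if the dimension is right -/
theorem indep_gens (h : ∀ i, y i ^ 2 = x i ^ 5 - 1)
    (hd : dimension k (IntermediateField.adjoin k (Set.range x ∪ Set.range y)) = m) :
    AlgebraicIndependent k x := by
  haveI : Algebra.EssFiniteType k (IntermediateField.adjoin k (Set.range x ∪ Set.range y)) := fin_gens
  haveI := alg_gens (k := k) h
  have h1 : IsTranscendenceBasis k (gx (k := k) x y) := by
    refine Algebra.IsAlgebraic.isTranscendenceBasis_of_lift_le_trdeg_of_finite k _ ?_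
    rw [← trdeg_eq_dimension, hd, Cardinal.mk_fintype, Fintype.card_fin]
    simp
  exact h1.1.map' (f := IntermediateField.val _) (RingHom.injective _)

end gens

theorem CurveProd.fin {Y : IntermediateField k Ω} (h : CurveProd Y) : Fin' Y := by
  obtain ⟨m, x, y, -, -, rfl⟩ := h
  exact fin_gens

theorem CurveProd.kod [CharZero k] {Y : IntermediateField k Ω} (h : CurveProd Y) :
    KodairaGE k Y (dimension k Y) := by
  obtain ⟨m, x, y, hx, hxy, rfl⟩ := h
  haveI : Algebra.EssFiniteType k (IntermediateField.adjoin k (Set.range x ∪ Set.range y)) := fin_gens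
  refine general_of_curves' (tb_gens hxy hx) (y := gy x y) (fun i => Subtype.ext (hxy i)) ?_
  intro i h0
  have h1 : y i = 0 := congrArg Subtype.val h0
  have h2 : x i ^ 5 - 1 = 0 := by rw [← hxy i, h1, zero_pow two_ne_zero]
  have h4 : IsAlgebraic k (x i) := by
    refine ⟨Polynomial.X ^ 5 - 1, ?_, by simpa using h2⟩
    intro h5
    have h6 := congrArg Polynomial.natDegree h5
    rw [← Polynomial.C_1, Polynomial.natDegree_X_pow_sub_C, Polynomial.natDegree_zero] at h6
    omega
  exact (hx.transcendental i) h4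

theorem curveProd_bot : CurveProd (⊥ : IntermediateField k Ω) := by
  refine ⟨0, Fin.elim0, Fin.elim0, algebraicIndependent_empty_type, fun i => i.elim0, ?_⟩
  rw [Set.range_eq_empty, Set.union_empty, IntermediateField.adjoin_empty]

theorem range_append {α : Type*} {m n : ℕ} (a : Fin m → α) (b : Fin n → α) :
    Set.range (Fin.append a b) = Set.range a ∪ Set.range b := by
  ext z
  constructor
  · rintro ⟨i, rfl⟩
    refine Fin.addCases (fun i => ?_) (fun i => ?_) i
    · rw [Fin.append_left]
      exact Or.inl ⟨i, rfl⟩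
    · rw [Fin.append_right]
      exact Or.inr ⟨i, rfl⟩
  · rintro (⟨i, rfl⟩ | ⟨i, rfl⟩)
    · exact ⟨Fin.castAdd n i, Fin.append_left a b i⟩
    · exact ⟨Fin.natAdd m i, Fin.append_right a b i⟩

theorem range_one {α : Type*} (a b : Fin 1 → α) :
    ({a 0, b 0} : Set α) = Set.range a ∪ Set.range b := by
  rw [Set.range_unique, Set.range_unique]
  rfl

theorem sup_gens {m n : ℕ} (x y : Fin m → Ω) (x' y' : Fin n → Ω) :
    IntermediateField.adjoin k (Set.range x ∪ Set.range y) ⊔
      IntermediateField.adjoin k (Set.range x' ∪ Set.range y') =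
      IntermediateField.adjoin k (Set.range (Fin.append x x') ∪ Set.range (Fin.append y y')) := by
  rw [← IntermediateField.adjoin_union, range_append, range_append]
  congr 1
  ext z
  simp only [Set.mem_union]
  tauto

theorem CurveProd.sup {A B : IntermediateField k Ω} (hA : CurveProd A) (hB : CurveProd B)
    (h : Indep A B) : CurveProd (A ⊔ B) := by
  obtain ⟨m, x, y, hx, hxy, rfl⟩ := hA
  obtain ⟨n, x', y', hx', hxy', rfl⟩ := hB
  have h1 : ∀ i, Fin.append y y' i ^ 2 = Fin.append x x' i ^ 5 - 1 := by
    intro i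
    refine Fin.addCases (fun i => ?_) (fun i => ?_) i
    · rw [Fin.append_left, Fin.append_left, hxy]
    · rw [Fin.append_right, Fin.append_right, hxy']
  refine ⟨m + n, Fin.append x x', Fin.append y y', indep_gens h1 ?_, h1, sup_gens x y x' y'⟩
  rw [← sup_gens]
  have h2 : dimension k (IntermediateField.adjoin k (Set.range x ∪ Set.range y) ⊔
      IntermediateField.adjoin k (Set.range x' ∪ Set.range y') : IntermediateField k Ω) = _ := h
  rw [h2, dim_gens hxy hx, dim_gens hxy' hx']

/-- a power of `C` which is a Galois cover of an open subset of affine space, dominated by `M` -/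
theorem exists_curveProd [IsAlgClosed Ω] {M : IntermediateField k Ω} (hM : Fin' M) :
    ∃ X C : IntermediateField k Ω, X ≤ M ∧ X ≤ C ∧ CurveProd C ∧ Gal X C ∧
      ∀ x ∈ M, IsAlgebraic X x := by
  haveI : Algebra.EssFiniteType k M := hM
  obtain ⟨x, hx⟩ := exists_tb k M
  have h1 : ∀ i, ∃ y : Ω, y ^ 2 = (x i : Ω) ^ 5 - 1 := fun i => IsAlgClosed.exists_pow_nat_eq _ two_pos
  choose y hy using h1
  have hXC : IntermediateField.adjoin k (Set.range fun i => (x i : Ω)) ≤
      IntermediateField.adjoin k ((Set.range fun i => (x i : Ω)) ∪ Set.range y) :=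
    IntermediateField.adjoin.mono k _ _ Set.subset_union_left
  have hxX : ∀ i, (x i : Ω) ∈ IntermediateField.adjoin k (Set.range fun i => (x i : Ω)) :=
    fun i => IntermediateField.subset_adjoin k _ ⟨i, rfl⟩
  refine ⟨IntermediateField.adjoin k (Set.range fun i => (x i : Ω)),
    IntermediateField.adjoin k ((Set.range fun i => (x i : Ω)) ∪ Set.range y), ?_, hXC,
    ⟨_, fun i => (x i : Ω), y, hx.1.map' (f := M.val) M.val.injective, hy, rfl⟩,
    ⟨hXC, ?_, ?_⟩, ?_⟩
  · rw [IntermediateField.adjoin_le_iff]
    rintro _ ⟨i, rfl⟩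
    exact (x i).2
  · rw [alg_iff, IntermediateField.adjoin_le_iff]
    rintro _ (⟨i, rfl⟩ | ⟨i, rfl⟩)
    · exact le_cl (hxX i)
    · refine mem_cl.2 (IsAlgebraic.of_pow (n := 2) (by norm_num) ?_)
      rw [hy i]
      exact alg_of_mem (sub_mem (pow_mem (hxX i) 5) (one_mem _))
  · intro σ hσ z hz
    have h2 : (IntermediateField.adjoin k ((Set.range fun i => (x i : Ω)) ∪ Set.range y)).map
        (σ : Ω →ₐ[k] Ω) ≤
        IntermediateField.adjoin k ((Set.range fun i => (x i : Ω)) ∪ Set.range y) := by
      rw [IntermediateField.adjoin_map, IntermediateField.adjoin_le_iff]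
      rintro _ ⟨_, (⟨i, rfl⟩ | ⟨i, rfl⟩), rfl⟩
      · change σ (x i) ∈ _
        rw [hσ _ (hxX i)]
        exact hXC (hxX i)
      · change σ (y i) ∈ _
        have h3 : (σ (y i)) ^ 2 = (y i) ^ 2 := by
          rw [← map_pow, hy i]
          exact hσ _ (sub_mem (pow_mem (hxX i) 5) (one_mem _))
        have h4 : y i ∈ IntermediateField.adjoin k ((Set.range fun i => (x i : Ω)) ∪ Set.range y) :=
          IntermediateField.subset_adjoin _ _ (Or.inr ⟨i, rfl⟩)
        rcases sq_eq_sq_iff_eq_or_eq_neg.mp h3 with h5 | h5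
        · rw [h5]
          exact h4
        · rw [h5]
          exact neg_mem h4
    exact h2 ⟨z, hz, rfl⟩
  · intro z hz
    rw [IntermediateField.isAlgebraic_adjoin_iff]
    exact isAlgebraic_transport hx (Set.range fun i => (x i : Ω)) (fun i => ⟨i, rfl⟩) (⟨z, hz⟩ : M)

/-- the point -/
noncomputable def botModel : SmoothModel k (⊥ : IntermediateField k Ω) :=
  have hbot : ∀ x : (⊥ : IntermediateField k Ω), ∃ a : k,
      algebraMap k (⊥ : IntermediateField k Ω) a = x := fun x => by
    obtain ⟨a, ha⟩ := IntermediateField.mem_bot.1 x.2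
    exact ⟨a, Subtype.ext ha⟩
  { I := Unit
    finite := inferInstance
    A := fun _ => ⊤
    x := fun _ _ => 0
    fg := fun _ => ⟨∅, by
      rw [Finset.coe_empty, Algebra.adjoin_empty, eq_comm, _root_.eq_bot_iff]
      rintro x -
      obtain ⟨a, rfl⟩ := hbot x
      exact Subalgebra.algebraMap_mem _ a⟩
    frac := fun _ f => ⟨f, trivial, 1, trivial, one_ne_zero, by simp⟩
    tb := fun _ => by
      haveI : Algebra.EssFiniteType k (⊥ : IntermediateField k Ω) := fin_bot
      obtain ⟨x, hx⟩ := exists_tb k (⊥ : IntermediateField k Ω)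
      haveI : IsEmpty (Fin (dimension k (⊥ : IntermediateField k Ω))) := by
        rw [dim_bot]
        infer_instance
      have hx0 : (fun _ => 0 : Fin (dimension k (⊥ : IntermediateField k Ω)) →
          (⊥ : IntermediateField k Ω)) = x := funext fun i => isEmptyElim i
      exact hx0 ▸ hx
    mem := fun _ _ => trivial
    der := fun _ _ _ _ _ => trivial
    cover := fun v hv => ⟨(), fun f _ => by
      obtain ⟨a, rfl⟩ := hbot f
      rcases eq_or_ne a 0 with rfl | ha
      · simp
      · exact (hv a ha).le⟩ }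

theorem model_gens [CharZero k] : ∀ (m : ℕ) (x y : Fin m → Ω), AlgebraicIndependent k x →
    (∀ i, y i ^ 2 = x i ^ 5 - 1) →
    Nonempty (SmoothModel k (IntermediateField.adjoin k (Set.range x ∪ Set.range y)))
  | 0, x, y, _, _ => by
    have h1 : IntermediateField.adjoin k (Set.range x ∪ Set.range y) = ⊥ := by
      rw [Set.range_eq_empty, Set.range_eq_empty, Set.union_empty, IntermediateField.adjoin_empty]
    rw [h1]
    exact ⟨botModel⟩
  | m + 1, x, y, hx, h => by
    have hx1 : AlgebraicIndependent k (fun i : Fin m => x (Fin.castAdd 1 i)) :=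
      hx.comp _ (Fin.castAdd_injective m 1)
    have h1 : ∀ i : Fin m, y (Fin.castAdd 1 i) ^ 2 = x (Fin.castAdd 1 i) ^ 5 - 1 := fun i => h _
    obtain ⟨M1⟩ := model_gens m (fun i => x (Fin.castAdd 1 i)) (fun i => y (Fin.castAdd 1 i)) hx1 h1
    have hx2 : AlgebraicIndependent k (fun i : Fin 1 => x (Fin.natAdd m i)) :=
      hx.comp _ (Fin.natAdd_injective 1 m)
    have h2 : ∀ i : Fin 1, y (Fin.natAdd m i) ^ 2 = x (Fin.natAdd m i) ^ 5 - 1 := fun i => h _
    have ex : Fin.append (fun i : Fin m => x (Fin.castAdd 1 i)) (fun i => x (Fin.natAdd m i)) = x :=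
      Fin.append_castAdd_natAdd
    have ey : Fin.append (fun i : Fin m => y (Fin.castAdd 1 i)) (fun i => y (Fin.natAdd m i)) = y :=
      Fin.append_castAdd_natAdd
    have hsup := sup_gens (k := k) (fun i : Fin m => x (Fin.castAdd 1 i))
      (fun i => y (Fin.castAdd 1 i)) (fun i : Fin 1 => x (Fin.natAdd m i))
      (fun i => y (Fin.natAdd m i))
    rw [ex, ey] at hsup
    have hind : Indep (IntermediateField.adjoin k ((Set.range fun i : Fin m => x (Fin.castAdd 1 i)) ∪
        Set.range fun i : Fin m => y (Fin.castAdd 1 i)))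
        (IntermediateField.adjoin k ((Set.range fun i : Fin 1 => x (Fin.natAdd m i)) ∪
        Set.range fun i : Fin 1 => y (Fin.natAdd m i))) := by
      unfold Indep
      rw [hsup, dim_gens h hx, dim_gens h1 hx1, dim_gens h2 hx2]
    haveI : Algebra.EssFiniteType k (IntermediateField.adjoin k
        ((Set.range fun i : Fin 1 => x (Fin.natAdd m i)) ∪
        Set.range fun i : Fin 1 => y (Fin.natAdd m i))) := fin_gens
    have hgen : IntermediateField.adjoin k ({gx (k := k) (fun i : Fin 1 => x (Fin.natAdd m i))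
        (fun i => y (Fin.natAdd m i)) 0, gy (k := k) (fun i : Fin 1 => x (Fin.natAdd m i))
        (fun i => y (Fin.natAdd m i)) 0} : Set _) = ⊤ := by
      rw [range_one]
      exact gen_top
    have M2 := CurveM.model (k := k)
      (gx (k := k) (fun i : Fin 1 => x (Fin.natAdd m i)) (fun i => y (Fin.natAdd m i)) 0)
      (gy (k := k) (fun i : Fin 1 => x (Fin.natAdd m i)) (fun i => y (Fin.natAdd m i)) 0)
      (Subtype.ext (h2 0)) ((tb_gens h2 hx2).1.transcendental 0) hgen (dim_gens h2 hx2)
    rw [← hsup]
    exact product_model fin_gens fin_gens hind M1 M2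

theorem CurveProd.model [CharZero k] {Y : IntermediateField k Ω} (h : CurveProd Y) :
    Nonempty (SmoothModel k Y) := by
  obtain ⟨m, x, y, hx, hxy, rfl⟩ := h
  exact model_gens m x y hx hxy

end Pf72953.Tow
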