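import Mathlib
import Pool.Agent.Lib.Pf72953b.Defs
import Pool.Agent.Lib.Pf72953.Orb

/-!
If `w` is unramified over `Z`, then its inertia group over `Z` is trivial (`k` algebraically closed of characteristic zero).
-/

set_option autoImplicit false
set_option linter.style.haveILetI false

open scoped WithZero
open Polynomial
open Pf72953

namespace Pf72953.Tow

section eig

variable {k Q : Type*} [Field k] [AddCommGroup Q] [Module k Q]

theorem eig_aux (T : Module.End k Q) (S : Multiset k) :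
    ∀ y : Q, y ≠ 0 → aeval T ((S.map fun r => X - C r).prod) y = 0 →
      ∃ r ∈ S, ∃ x : Q, x ≠ 0 ∧ T x = r • x := by
  induction S using Multiset.induction_on with
  | empty =>
    intro y hy h
    simp at h
    exact absurd h hy
  | cons r S ih =>
    intro y hy h
    rw [Multiset.map_cons, Multiset.prod_cons, map_mul, Module.End.mul_apply] at h
    by_cases h0 : aeval T ((S.map fun r => X - C r).prod) y = 0
    · obtain ⟨r', hr', x, hx, hTx⟩ := ih y hy h0
      exact ⟨r', Multiset.mem_cons_of_mem hr', x, hx, hTx⟩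
    · refine ⟨r, Multiset.mem_cons_self r S, _, h0, ?_⟩
      rw [map_sub, aeval_X, aeval_C, LinearMap.sub_apply, Module.algebraMap_end_apply,
        sub_eq_zero] at h
      exact h

/-- an operator of finite order which is not the identity has an eigenvector with an eigenvalue `≠ 1` -/
theorem exists_eig [IsAlgClosed k] [CharZero k] (T : Module.End k Q) {n : ℕ} (hn : n ≠ 0)
    (hT : T ^ n = 1) (h1 : T ≠ 1) : ∃ r : k, r ≠ 1 ∧ ∃ x : Q, x ≠ 0 ∧ T x = r • x := by
  set q : k[X] := ∑ i ∈ Finset.range n, X ^ i with hq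
  have hq1 : q.eval 1 = (n : k) := by
    simp [hq, eval_finsetSum]
  have hq0 : q ≠ 0 := by
    intro h0
    rw [h0, eval_zero] at hq1
    exact hn (by exact_mod_cast hq1.symm)
  have hmul : q * (X - 1) = X ^ n - 1 := geom_sum_mul X n
  obtain ⟨z, hz⟩ : ∃ z, T z ≠ z := by
    by_contra hcon
    push Not at hcon
    exact h1 (LinearMap.ext hcon)
  have hy : aeval T q ((T - 1) z) = 0 := by
    have h2 : aeval T q * (T - 1) = 0 := by
      have h3 := congrArg (aeval T) hmul
      rw [map_mul, map_sub, map_sub, map_pow, aeval_X, map_one, hT, sub_self] at h3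
      exact h3
    have h4 := congrArg (fun S : Module.End k Q => S z) h2
    simpa [Module.End.mul_apply] using h4
  have hy0 : (T - 1) z ≠ 0 := by
    rw [LinearMap.sub_apply, Module.End.one_apply, sub_ne_zero]
    exact hz
  have hsplit := (IsAlgClosed.splits q).eq_prod_roots
  rw [hsplit, map_mul, aeval_C, Module.End.mul_apply, Module.algebraMap_end_apply,
    smul_eq_zero] at hy
  have hlead : q.leadingCoeff ≠ 0 := leadingCoeff_ne_zero.2 hq0
  obtain ⟨r, hr, x, hx, hTx⟩ := eig_aux T q.roots _ hy0 (hy.resolve_left hlead)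
  refine ⟨r, ?_, x, hx, hTx⟩
  rintro rfl
  have h5 := (mem_roots hq0).1 hr
  rw [IsRoot.def, hq1] at h5
  exact hn (by exact_mod_cast h5)

end eig

theorem unr_val {Z Q : Type*} [Field Z] [Field Q] [Algebra Z Q] {w : Valuation Q ℤᵐ⁰}
    (hU : Br.Unr Z w) {x : Q} (hx : x ≠ 0) : ∃ c : Z, c ≠ 0 ∧ w x = w (algebraMap Z Q c) := by
  by_cases hnt : ∃ a : Q, a ≠ 0 ∧ w a ≠ 1
  swap
  · push Not at hnt
    exact ⟨1, one_ne_zero, by rw [hnt x hx, map_one, map_one]⟩
  obtain ⟨s, hs⟩ := exists_unif w hnt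
  obtain ⟨t, ht1, ht2⟩ := hU s hs.lt_one
  have hws : w s ≠ 0 := (Valuation.ne_zero_iff w).2 hs.ne_zero
  have ht0 : t ≠ 0 := by
    rintro rfl
    rw [map_zero, map_zero] at ht2
    exact hws (le_antisymm ht2 zero_le)
  have htu : IsUnif w (algebraMap Z Q t) :=
    ⟨by simpa using ht0, ht1, fun a ha => (hs.le a ha).trans ht2⟩
  rcases le_total (w x) 1 with h | h
  · obtain ⟨e, he⟩ := htu.exists_pow hx h
    exact ⟨t ^ e, pow_ne_zero _ ht0, by rw [he, map_pow, map_pow]⟩
  · have hx' : x⁻¹ ≠ 0 := inv_ne_zero hx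
    have h' : w x⁻¹ ≤ 1 := by
      rw [map_inv₀]
      exact inv_le_one_of_one_le₀ h
    obtain ⟨e, he⟩ := htu.exists_pow hx' h'
    refine ⟨(t ^ e)⁻¹, inv_ne_zero (pow_ne_zero _ ht0), ?_⟩
    rw [map_inv₀, map_inv₀, map_pow, map_pow, ← he, map_inv₀, inv_inv]

theorem inertia_of_unr {k Z Q : Type*} [Field k] [CharZero k] [IsAlgClosed k] [Field Z] [Field Q]
    [Algebra k Z] [Algebra k Q] [Algebra Z Q] [IsScalarTower k Z Q] [FiniteDimensional Z Q]
    {w : Valuation Q ℤᵐ⁰} (hw : ∀ c : k, c ≠ 0 → w (algebraMap k Q c) = 1) (hU : Br.Unr Z w)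
    (s : Q ≃ₐ[Z] Q) (hs : ∀ z, w z ≤ 1 → w (s z - z) < 1) : s = 1 := by
  by_contra hne
  set T : Module.End k Q := (s.restrictScalars k).toLinearMap with hT
  have hTapp : ∀ x, T x = s x := fun _ => rfl
  have hn : orderOf s ≠ 0 := (orderOf_pos s).ne'
  have hpow : ∀ m : ℕ, ∀ x, (T ^ m) x = (s ^ m) x := by
    intro m
    induction m with
    | zero => intro x; rfl
    | succ m ih =>
      intro x
      rw [pow_succ, pow_succ, Module.End.mul_apply, AlgEquiv.mul_apply, hTapp]
      exact ih _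
  have hTn : T ^ orderOf s = 1 := by
    ext x
    rw [hpow, pow_orderOf_eq_one]
    rfl
  have hT1 : T ≠ 1 := by
    intro h0
    apply hne
    ext x
    have := congrArg (fun S : Module.End k Q => S x) h0
    exact this
  obtain ⟨r, hr, x, hx, hTx⟩ := exists_eig T hn hTn hT1
  obtain ⟨c, hc, hwc⟩ := unr_val hU hx
  have hwc0 : w (algebraMap Z Q c) ≠ 0 := by
    rw [← hwc]
    exact (Valuation.ne_zero_iff w).2 hx
  set z : Q := x / algebraMap Z Q c with hz
  have hz1 : w z = 1 := by
    rw [hz, map_div₀, hwc, div_self hwc0]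
  have hsz : s z = algebraMap k Q r * z := by
    rw [hz, map_div₀, AlgEquiv.commutes, ← hTapp, hTx, Algebra.smul_def, mul_div_assoc]
  have h1 := hs z hz1.le
  have h2 : s z - z = algebraMap k Q (r - 1) * z := by
    rw [hsz, map_sub, map_one]
    ring
  rw [h2, map_mul, hz1, mul_one, hw _ (sub_ne_zero.2 hr)] at h1
  exact lt_irrefl _ h1

end Pf72953.Tow
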