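import Mathlib
import Pool.Agent.Lib.Pf72953j.Ext
import Pool.Agent.Lib.Pf72953j.Iner
import Pool.Agent.Lib.Pf72953b.Inertia
import Pool.Agent.Lib.Pf72953r.SubFG

/-!
The condition on the ramification of the Galois hull: every valuation at which `R/Z` is ramified comes from one at which `Q/Z` is ramified.
-/

set_option autoImplicit false
set_option linter.style.haveILetI false

open scoped WithZero
open Pf72953 Pf72953.Mov

namespace Pf72953.Tow

variable {k Ω : Type*} [Field k] [Field Ω] [Algebra k Ω]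

section aux

theorem Fixes.symm79 {σ : Ω ≃ₐ[k] Ω} {F : IntermediateField k Ω} (h : Fixes σ F) :
    Fixes σ.symm F := fun x hx => by
  rw [AlgEquiv.symm_apply_eq]
  exact (h x hx).symm

theorem Fixes.trans79 {σ τ : Ω ≃ₐ[k] Ω} {F : IntermediateField k Ω} (h : Fixes σ F)
    (h' : Fixes τ F) : Fixes (σ.trans τ) F := fun x hx => by
  rw [AlgEquiv.trans_apply, h x hx, h' x hx]

/-- the fixed field of one automorphism -/
def fixF79 (σ : Ω ≃ₐ[k] Ω) : IntermediateField k Ω :=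
  (AlgHom.equalizer (σ : Ω →ₐ[k] Ω) (AlgHom.id k Ω)).toIntermediateField fun x hx => by
    have h1 : σ x = x := hx
    show σ x⁻¹ = x⁻¹
    rw [map_inv₀, h1]

theorem mem_fixF79 {σ : Ω ≃ₐ[k] Ω} {x : Ω} : x ∈ fixF79 σ ↔ σ x = x := Iff.rfl

theorem fixes_iff79 {σ : Ω ≃ₐ[k] Ω} {F : IntermediateField k Ω} : Fixes σ F ↔ F ≤ fixF79 σ := Iff.rfl

theorem Fixes.sup79 {σ : Ω ≃ₐ[k] Ω} {F F' : IntermediateField k Ω} (h : Fixes σ F)
    (h' : Fixes σ F') : Fixes σ (F ⊔ F') := fixes_iff79.2 (sup_le (fixes_iff79.1 h) (fixes_iff79.1 h'))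

theorem Gal.mono79 {F Z R : IntermediateField k Ω} (h : Gal F R) (hFZ : F ≤ Z) (hZR : Z ≤ R) :
    Gal Z R := by
  haveI : Fact (F ≤ Z) := ⟨hFZ⟩
  exact ⟨hZR, fun x hx => (h.alg x hx).tower_top (L := Z), fun σ hσ => h.stab σ (hσ.mono hFZ)⟩

end aux

section prime

variable {B Z : Type*} [Field B] [Field Z] [Algebra B Z]

/-- the conjugate of a derivation -/
def conjDer (d : Derivation B Z Z) (ψ : Z ≃+* Z) (β : B ≃+* B)
    (h : ∀ b : B, ψ (algebraMap B Z b) = algebraMap B Z (β b)) : Derivation B Z Z :=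
  Derivation.mk'
    { toFun := fun z => ψ (d (ψ.symm z))
      map_add' := fun x y => by rw [map_add, map_add, map_add]
      map_smul' := fun b z => by
        have h1 : ψ.symm (b • z) = β.symm b • ψ.symm z := by
          rw [Algebra.smul_def, Algebra.smul_def, map_mul]
          congr 1
          rw [RingEquiv.symm_apply_eq, h, RingEquiv.apply_symm_apply]
        rw [h1, Derivation.map_smul, Algebra.smul_def, map_mul, h, RingEquiv.apply_symm_apply,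
          RingHom.id_apply, Algebra.smul_def] }
    (fun a b => by
      show ψ (d (ψ.symm (a * b))) = a • ψ (d (ψ.symm b)) + b • ψ (d (ψ.symm a))
      rw [map_mul, Derivation.leibniz, map_add]
      simp only [smul_eq_mul, map_mul, RingEquiv.apply_symm_apply])

theorem conjDer_apply (d : Derivation B Z Z) (ψ : Z ≃+* Z) (β : B ≃+* B)
    (h : ∀ b : B, ψ (algebraMap B Z b) = algebraMap B Z (β b)) (z : Z) :
    conjDer d ψ β h z = ψ (d (ψ.symm z)) := rfl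

theorem primeAt_comap {k Y Q R : Type*} [Field k] [Field Y] [Algebra k Y] [Field Q] [Field R]
    [Algebra Y Z] [Algebra Y Q] [Algebra Y R] [Algebra Z Q] [Algebra Z R]
    [IsScalarTower Y Z Q] [IsScalarTower Y Z R]
    {M : SmoothModel k Y} {i : M.I} {w : Valuation R ℤᵐ⁰} (hw : Br.PrimeAt M B Z i w)
    (φ : Q →+* R) (ψ : Z ≃+* Z) (β : B ≃+* B)
    (h1 : ∀ z : Z, φ (algebraMap Z Q z) = algebraMap Z R (ψ z))
    (h2 : ∀ b : B, ψ (algebraMap B Z b) = algebraMap B Z (β b))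
    (h3 : ∀ y : Y, ψ (algebraMap Y Z y) = algebraMap Y Z y) :
    Br.PrimeAt M B Z i (w.comap φ) := by
  constructor
  · intro f hf
    rw [Valuation.comap_apply, IsScalarTower.algebraMap_apply Y Z Q, h1, h3,
      ← IsScalarTower.algebraMap_apply Y Z R]
    exact hw.center f hf
  · intro d hd z hz
    rw [Valuation.comap_apply, h1] at hz ⊢
    have h4 := hw.der (conjDer d ψ β h2) (fun a => ?_) (ψ z) hz
    · rw [conjDer_apply, RingEquiv.symm_apply_apply] at h4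
      exact h4
    · rw [conjDer_apply]
      have h5 := hd a
      rw [Valuation.comap_apply, h1] at h5
      have h6 : ψ.symm (algebraMap Y Z (M.x i a)) = algebraMap Y Z (M.x i a) := by
        rw [RingEquiv.symm_apply_eq, h3]
      rw [h6]
      exact h5

end prime

section res

/-- restriction of an automorphism of `Ω` to an embedding of `Q` in `R` -/
def resHom {Q R : IntermediateField k Ω} (ψ : Ω ≃ₐ[k] Ω) (h : ∀ x ∈ Q, ψ x ∈ R) : Q →ₐ[k] R :=
  AlgHom.codRestrict ((ψ : Ω →ₐ[k] Ω).comp Q.val) R.toSubalgebra (fun x => h x x.2)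

theorem coe_resHom {Q R : IntermediateField k Ω} (ψ : Ω ≃ₐ[k] Ω) (h : ∀ x ∈ Q, ψ x ∈ R) (x : Q) :
    ((resHom ψ h x : R) : Ω) = ψ x := rfl

/-- restriction of an automorphism of `Ω` to an automorphism of `Z` -/
def resEquiv {Z : IntermediateField k Ω} (ψ : Ω ≃ₐ[k] Ω) (h : Stab ψ Z) (h' : Stab ψ.symm Z) :
    Z ≃+* Z where
  toFun x := ⟨ψ x, h x x.2⟩
  invFun x := ⟨ψ.symm x, h' x x.2⟩
  left_inv x := Subtype.ext (ψ.symm_apply_apply x)
  right_inv x := Subtype.ext (ψ.apply_symm_apply x)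
  map_mul' x y := Subtype.ext (map_mul ψ (x : Ω) y)
  map_add' x y := Subtype.ext (map_add ψ (x : Ω) y)

theorem coe_resEquiv {Z : IntermediateField k Ω} (ψ : Ω ≃ₐ[k] Ω) (h : Stab ψ Z)
    (h' : Stab ψ.symm Z) (x : Z) : ((resEquiv ψ h h' x : Z) : Ω) = ψ x := rfl

/-- an automorphism of `Ω` which fixes `Z` and maps `Q` to itself, restricted to `Q` -/
def resAlg {Z Q : IntermediateField k Ω} [Fact (Z ≤ Q)] (ψ : Ω ≃ₐ[k] Ω) (h : Stab ψ Q)
    (h' : Stab ψ.symm Q) (hZ : Fixes ψ Z) : Q ≃ₐ[Z] Q :=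
  AlgEquiv.ofRingEquiv (f := resEquiv ψ h h') (fun z => Subtype.ext (hZ z z.2))

theorem coe_resAlg {Z Q : IntermediateField k Ω} [Fact (Z ≤ Q)] (ψ : Ω ≃ₐ[k] Ω) (h : Stab ψ Q)
    (h' : Stab ψ.symm Q) (hZ : Fixes ψ Z) (x : Q) :
    ((resAlg ψ h h' hZ x : Q) : Ω) = ψ x := rfl

end res

section main

variable [CharZero k] [IsAlgClosed k] [IsAlgClosed Ω]

theorem bad_comap {F M W Z Q R : IntermediateField k Ω} [Fact (M ≤ Z)] [Fact (W ≤ Z)]
    [Fact (M ≤ Q)] [Fact (W ≤ Q)] [Fact (Z ≤ Q)] [Fact (M ≤ R)] [Fact (W ≤ R)] [Fact (Z ≤ R)]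
    [Fact (F ≤ R)] (hR : Fin' R) (hQ : Fin' Q) (hZQ : Gal Z Q) (hF : ∀ x ∈ R, IsAlgebraic F x)
    (ψ : Ω ≃ₐ[k] Ω) (hψQ : ∀ x ∈ Q, ψ x ∈ R) (hψF : ∀ x ∈ F, ψ.symm x ∈ Q) (hψM : Stab ψ M)
    (hψM' : Stab ψ.symm M) (hψW : Fixes ψ W) (hψZ : Stab ψ Z) (hψZ' : Stab ψ.symm Z)
    {WM : SmoothModel k W} {j : WM.I} {w : Valuation R ℤᵐ⁰} (hbad : Br.Bad k WM M Z j w)
    {σ : Ω ≃ₐ[k] Ω} (hσZ : Fixes σ Z) (hσR : Stab σ R)
    (hσ : ∀ z : R, w z ≤ 1 → w (⟨σ z, hσR z z.2⟩ - z) < 1)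
    {x : Ω} (hx : x ∈ Q) (hne : σ (ψ x) ≠ ψ x) :
    Br.Bad k WM M Z j (w.comap (resHom ψ hψQ : Q →+* R)) := by
  set φ : Q →+* R := (resHom ψ hψQ : Q →+* R) with hφ
  have hφc : ∀ y : Q, ((φ y : R) : Ω) = ψ y := fun _ => rfl
  have htriv : ∀ b : M, b ≠ 0 → w (φ (algebraMap M Q b)) = 1 := by
    intro b hb
    have h1 : φ (algebraMap M Q b) = algebraMap M R ⟨ψ b, hψM b b.2⟩ := Subtype.ext rfl
    rw [h1]
    refine hbad.triv _ ?_
    intro h0
    apply hb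
    have h2 : ψ (b : Ω) = 0 := congrArg Subtype.val h0
    exact Subtype.ext ((map_eq_zero ψ).1 h2)
  have hdiv : IsDivisorial k Q (w.comap φ) := by
    letI : Algebra Q R := φ.toAlgebra
    haveI : IsScalarTower k Q R := IsScalarTower.of_algebraMap_eq fun c =>
      ((resHom ψ hψQ).commutes c).symm
    have hnt : ∃ a : Q, a ≠ 0 ∧ w (algebraMap Q R a) ≠ 1 := by
      by_contra hcon
      push Not at hcon
      obtain ⟨r, hr0, hr⟩ := hbad.div.nontrivial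
      apply hr
      let g : F →+* Q :=
        { toFun := fun y => ⟨ψ.symm y, hψF y y.2⟩
          map_one' := Subtype.ext (map_one ψ.symm)
          map_mul' := fun a b => Subtype.ext (map_mul ψ.symm (a : Ω) b)
          map_zero' := Subtype.ext (map_zero ψ.symm)
          map_add' := fun a b => Subtype.ext (map_add ψ.symm (a : Ω) b) }
      letI : Algebra F Q := g.toAlgebra
      haveI : IsScalarTower F Q R := IsScalarTower.of_algebraMap_eq fun y => by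
        apply Subtype.ext
        exact (ψ.apply_symm_apply (y : Ω)).symm
      have h1 : IsAlgebraic F (r : Ω) := hF r r.2
      have h2 : IsAlgebraic F r := by
        rw [← isAlgebraic_algebraMap_iff (A := Ω) (algebraMap R Ω).injective]
        exact h1
      have h3 : IsAlgebraic Q r := h2.tower_top (L := Q)
      exact val_eq_one_of_isIntegral (B := Q) hcon hr0 (isAlgebraic_iff_isIntegral.1 h3)
    exact hbad.div.restrict hnt
  refine ⟨hdiv, fun b hb => htriv b hb, ?_, fun hU => ?_⟩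
  · refine primeAt_comap hbad.prime φ (resEquiv ψ hψZ hψZ') (resEquiv ψ hψM hψM')
      (fun z => Subtype.ext rfl) (fun b => Subtype.ext rfl) (fun y => Subtype.ext (hψW y y.2))
  · -- the inertia group of `Q/Z` at `w ∘ φ` is not trivial
    haveI := (hZQ.finite hQ).1
    set s' : Ω ≃ₐ[k] Ω := (ψ.trans σ).trans ψ.symm with hs'
    have hs'Z : Fixes s' Z := fun z hz => by
      show ψ.symm (σ (ψ z)) = z
      rw [hσZ _ (hψZ z hz), AlgEquiv.symm_apply_apply]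
    have h1 := inertia_of_unr (k := k) (Z := Z) (Q := Q) (w := w.comap φ) hdiv.const hU
      (resAlg s' (hZQ.stab s' hs'Z) (hZQ.stab s'.symm hs'Z.symm79) hs'Z) (fun z hz => ?_)
    · have h2 := congrArg (fun e : Q ≃ₐ[Z] Q => ((e ⟨x, hx⟩ : Q) : Ω)) h1
      have h3 : ψ.symm (σ (ψ x)) = x := h2
      rw [AlgEquiv.symm_apply_eq] at h3
      exact hne h3
    · rw [Valuation.comap_apply] at hz ⊢
      have h2 := hσ (φ z) hz
      have h3 : φ (resAlg s' (hZQ.stab s' hs'Z) (hZQ.stab s'.symm hs'Z.symm79) hs'Z z - z) =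
          ⟨σ (φ z), hσR (φ z) (φ z).2⟩ - φ z := by
        rw [map_sub]
        congr 1
        apply Subtype.ext
        exact ψ.apply_symm_apply _
      rw [h3]
      exact h2

omit [CharZero k] [IsAlgClosed k] [IsAlgClosed Ω] in
theorem fin_sup79 {A B : IntermediateField k Ω} (hA : Fin' A) (hB : Fin' B) : Fin' (A ⊔ B) := by
  rw [Fin', IntermediateField.essFiniteType_iff] at hA hB ⊢
  obtain ⟨s, hs⟩ := hA
  obtain ⟨t, ht⟩ := hB
  classical
  refine ⟨s ∪ t, ?_⟩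
  rw [Finset.coe_union, IntermediateField.adjoin_union, hs, ht]

omit [CharZero k] [IsAlgClosed k] [IsAlgClosed Ω] in
theorem fin_le79 {A B : IntermediateField k Ω} (hB : Fin' B) (h : A ≤ B) : Fin' A := by
  haveI : Fact (A ≤ B) := ⟨h⟩
  haveI := hB
  exact Red.essFiniteType_sub k A B

omit [CharZero k] [IsAlgClosed k] [IsAlgClosed Ω] in
/-- the algebraic closure of `F` in `Ω` -/
theorem alg_sup79 {F P Z : IntermediateField k Ω} (hP : ∀ x ∈ P, IsAlgebraic F x)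
    (hZ : Z ≤ F ⊔ P) : ∀ x ∈ Z, IsAlgebraic F x := by
  have h1 : F ⊔ P ≤ (algebraicClosure F Ω).restrictScalars k := by
    refine sup_le (fun x hx => ?_) (fun x hx => ?_)
    · rw [IntermediateField.mem_restrictScalars, mem_algebraicClosure_iff]
      exact isAlgebraic_algebraMap (⟨x, hx⟩ : F)
    · rw [IntermediateField.mem_restrictScalars, mem_algebraicClosure_iff]
      exact hP x hx
  intro x hx
  have h2 := h1 (hZ hx)
  rw [IntermediateField.mem_restrictScalars, mem_algebraicClosure_iff] at h2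
  exact h2

omit [CharZero k] [IsAlgClosed k] [IsAlgClosed Ω] in
theorem alg_trans79 {F Z : IntermediateField k Ω} (hFZ : F ≤ Z) (hZ : ∀ x ∈ Z, IsAlgebraic F x)
    {x : Ω} (hx : IsAlgebraic Z x) : IsAlgebraic F x := by
  haveI : Fact (F ≤ Z) := ⟨hFZ⟩
  haveI : Algebra.IsAlgebraic F Z := ⟨fun z => by
    rw [← isAlgebraic_algebraMap_iff (A := Ω) (algebraMap Z Ω).injective]
    exact hZ z z.2⟩
  exact hx.restrictScalars F

theorem cond {V E M P Y Q M' : IntermediateField k Ω} (h : Step V E M P) (hY : Fin' Y)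
    (hi : Indep (M ⊔ P) Y) (hQ : Fin' Q) (hG : Gal (E ⊔ Y) Q) (hN : M ⊔ P ≤ Q) (hM' : Fin' M')
    (hMM' : Gal M M') [Fact (M ≤ M ⊔ (P ⊔ Y))] [Fact (P ⊔ Y ≤ M ⊔ (P ⊔ Y))] [Fact (M ≤ Q)]
    [Fact (P ⊔ Y ≤ Q)] [Fact (M ⊔ (P ⊔ Y) ≤ Q)] :
    ∃ R : IntermediateField k Ω, Fin' R ∧ Gal (M ⊔ (V ⊔ Y)) R ∧ Q ≤ R ∧ M' ≤ R ∧
      ∃ (_ : Fact (M ≤ R)) (_ : Fact (P ⊔ Y ≤ R)) (_ : Fact (M ⊔ (P ⊔ Y) ≤ R)),
        ∀ (W : SmoothModel k (P ⊔ Y : IntermediateField k Ω)) (j : W.I) (w : Valuation R ℤᵐ⁰),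
          Br.Bad k W M (M ⊔ (P ⊔ Y) : IntermediateField k Ω) j w → ∃ φ : Q →ₐ[k] R,
          (∀ b : (P ⊔ Y : IntermediateField k Ω),
            φ (algebraMap (P ⊔ Y : IntermediateField k Ω) Q b) =
              algebraMap (P ⊔ Y : IntermediateField k Ω) R b) ∧
          (∀ y : M, ∃ y' : M, φ (algebraMap M Q y) = algebraMap M R y') ∧
          Br.Bad k W M (M ⊔ (P ⊔ Y) : IntermediateField k Ω) j (w.comap (φ : Q →+* R)) := by
  set F : IntermediateField k Ω := M ⊔ (V ⊔ Y) with hFdef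
  set Z : IntermediateField k Ω := M ⊔ (P ⊔ Y) with hZdef
  have hVP : V ≤ P := by rw [h.eq]; exact inf_le_right
  have hPQ : P ≤ Q := le_sup_right.trans hN
  have hMQ : M ≤ Q := le_sup_left.trans hN
  have hYQ : Y ≤ Q := le_sup_right.trans hG.le
  have hMF : M ≤ F := le_sup_left
  have hVF : V ≤ F := le_sup_left.trans le_sup_right
  have hYF : Y ≤ F := le_sup_right.trans le_sup_right
  have hFQ : F ≤ Q := sup_le hMQ (sup_le (hVP.trans hPQ) hYQ)
  have hMZ : M ≤ Z := le_sup_left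
  have hPZ : P ≤ Z := le_sup_left.trans le_sup_right
  have hYZ : Y ≤ Z := le_sup_right.trans le_sup_right
  have hFZ : F ≤ Z := sup_le hMZ (sup_le (hVP.trans hPZ) hYZ)
  have hZQ' : Z ≤ Q := sup_le hMQ (sup_le hPQ hYQ)
  have hEZ : E ⊔ Y ≤ Z := sup_le (h.le.trans (sup_le hMZ hPZ)) hYZ
  have hZQ : Gal Z Q := hG.mono79 hEZ hZQ'
  have hPF : ∀ x ∈ P, IsAlgebraic F x := fun x hx => by
    haveI : Fact (V ≤ F) := ⟨hVF⟩
    exact (h.gal.alg x hx).tower_top (L := F)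
  have hZF : ∀ x ∈ Z, IsAlgebraic F x := alg_sup79 hPF
    (sup_le (hMF.trans le_sup_left) (sup_le le_sup_right (hYF.trans le_sup_left)))
  have halg : ∀ x ∈ Q, IsAlgebraic F x := fun x hx =>
    alg_trans79 hFZ hZF (hZQ.alg x hx)
  have hFfin : Fin' F := fin_le79 hQ hFQ
  obtain ⟨R₁, hR₁, hGR₁, hQR₁, hmin⟩ := exists_hull hFfin hQ hFQ halg
  have hGM' : Gal F (M' ⊔ F) := hMM'.base F hMF
  set R : IntermediateField k Ω := R₁ ⊔ (M' ⊔ F) with hRdef
  have hGR : Gal F R := hGR₁.sup hGM'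
  have hR : Fin' R := fin_sup79 hR₁ (fin_sup79 hM' hFfin)
  have hQR : Q ≤ R := hQR₁.trans le_sup_left
  have hR₁R : R₁ ≤ R := le_sup_left
  have hM'R : M' ≤ R := (le_sup_left.trans le_sup_right : M' ≤ R₁ ⊔ (M' ⊔ F))
  have hZR' : Z ≤ R := hZQ'.trans hQR
  haveI fMR : Fact (M ≤ R) := ⟨hMQ.trans hQR⟩
  haveI fWR : Fact (P ⊔ Y ≤ R) := ⟨(sup_le hPQ hYQ).trans hQR⟩
  haveI fZR : Fact (Z ≤ R) := ⟨hZR'⟩
  haveI fFR : Fact (F ≤ R) := ⟨hFZ.trans hZR'⟩
  have hZR : Gal Z R := hGR.mono79 hFZ hZR'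
  refine ⟨R, hR, hGR, hQR, hM'R, fMR, fWR, fZR, ?_⟩
  intro W j w hbad
  haveI := (hZR.finite hR).1
  haveI := (hZR.finite hR).2
  obtain ⟨σ₀, hσ₀, hne⟩ : ∃ σ : R ≃ₐ[Z] R, (∀ z, w z ≤ 1 → w (σ z - z) < 1) ∧ σ ≠ 1 := by
    by_contra hcon
    push Not at hcon
    exact hbad.ram (Br.unr_of_inertia hcon)
  obtain ⟨σ, hσZ, hσ⟩ := hZR.exists_ext hR σ₀
  have hσR : Stab σ R := hZR.stab σ hσZ
  have hσ' : ∀ z : R, w z ≤ 1 → w (⟨σ z, hσR z z.2⟩ - z) < 1 := fun z hz => by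
    have h1 : (⟨σ z, hσR z z.2⟩ : R) = σ₀ z := Subtype.ext (hσ z)
    rw [h1]
    exact hσ₀ z hz
  -- `σ` is the identity on `M'`
  have hσM' : Fixes σ M' := by
    intro x hx
    have hx' : σ x ∈ M' := hMM'.stab σ (hσZ.mono hMZ) x hx
    by_contra hcon
    haveI fMM' : Fact (M ≤ M') := ⟨hMM'.le⟩
    haveI fM'R : Fact (M' ≤ R) := ⟨hM'R⟩
    have htriv : ∀ y : M', y ≠ 0 → w (algebraMap M' R y) = 1 := by
      intro y hy
      refine val_eq_one_of_isIntegral (B := M) hbad.triv (by simpa using hy) ?_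
      have h1 : IsAlgebraic M ((y : M') : Ω) := hMM'.alg y y.2
      have h2 : IsAlgebraic M (algebraMap M' R y) := by
        rw [← isAlgebraic_algebraMap_iff (A := Ω) (algebraMap R Ω).injective]
        exact h1
      exact isAlgebraic_iff_isIntegral.1 h2
    have h1 : (⟨σ x - x, sub_mem hx' hx⟩ : M') ≠ 0 := fun h0 =>
      hcon (sub_eq_zero.1 (congrArg Subtype.val h0))
    have h2 := htriv _ h1
    have h3 : w (algebraMap M' R ⟨x, hx⟩) ≤ 1 := by
      by_cases h0 : (⟨x, hx⟩ : M') = 0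
      · rw [h0, map_zero, map_zero]; exact zero_le_one
      · exact (htriv _ h0).le
    have h4 := hσ' (algebraMap M' R ⟨x, hx⟩) h3
    have h5 : (⟨σ (algebraMap M' R ⟨x, hx⟩ : R), hσR _ (algebraMap M' R ⟨x, hx⟩).2⟩ : R) -
        algebraMap M' R ⟨x, hx⟩ = algebraMap M' R ⟨σ x - x, sub_mem hx' hx⟩ := Subtype.ext rfl
    rw [h5, h2] at h4
    exact lt_irrefl _ h4
  -- `σ` is not the identity on some conjugate of `Q`
  obtain ⟨τ, hτ, x, hx, hxne⟩ : ∃ τ : Ω ≃ₐ[k] Ω, Fixes τ F ∧ ∃ x ∈ Q, σ (τ x) ≠ τ x := by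
    by_contra hcon
    push Not at hcon
    apply hne
    have h1 : R₁ ≤ fixF79 σ := hmin (fixF79 σ) fun τ hτ x hx => hcon τ hτ x hx
    have h2 : R ≤ fixF79 σ := sup_le h1 (sup_le (fixes_iff79.1 hσM') (hσZ.mono hFZ))
    ext z
    rw [← hσ z]
    exact h2 z.2
  obtain ⟨γ, hγ, hγP⟩ := h.exists_lift hY hi τ.symm (hτ.symm79.mono hVF)
  have hγE : Fixes γ E := hγ.mono le_sup_left
  have hγY : Fixes γ Y := hγ.mono le_sup_right
  set ψ : Ω ≃ₐ[k] Ω := γ.trans τ with hψ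
  have hψa : ∀ y, ψ y = τ (γ y) := fun _ => rfl
  have hψs : ∀ y, ψ.symm y = γ.symm (τ.symm y) := fun _ => rfl
  have hψQ : ∀ y ∈ Q, ψ y ∈ R := fun y hy =>
    hR₁R (hGR₁.stab τ hτ _ (hQR₁ (hG.stab γ hγ y hy)))
  have hψF : ∀ y ∈ F, ψ.symm y ∈ Q := fun y hy => by
    rw [hψs, hτ.symm79 y hy]
    exact hG.stab γ.symm hγ.symm79 y (hFQ hy)
  have hψM : Stab ψ M := fun y hy => by
    have h1 : γ y ∈ M := h.stabM γ hγE y hy
    rw [hψa, hτ _ (hMF h1)]
    exact h1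
  have hψM' : Stab ψ.symm M := fun y hy => by
    rw [hψs, hτ.symm79 y (hMF hy)]
    exact h.stabM γ.symm hγE.symm79 y hy
  have hψP : Fixes ψ P := fun y hy => by
    rw [hψa, hγP y hy, AlgEquiv.apply_symm_apply]
  have hψY : Fixes ψ Y := fun y hy => by
    rw [hψa, hγY y hy, hτ y (hYF hy)]
  have hψW : Fixes ψ (P ⊔ Y) := hψP.sup79 hψY
  have hψZ : Stab ψ Z := hψM.sup hψW.stab
  have hψZ' : Stab ψ.symm Z := hψM'.sup hψW.symm79.stab
  refine ⟨resHom ψ hψQ, fun b => Subtype.ext (hψW b b.2), fun y => ⟨⟨ψ y, hψM y y.2⟩,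
    Subtype.ext rfl⟩, ?_⟩
  refine bad_comap (F := F) hR hQ hZQ hGR.alg ψ hψQ hψF hψM hψM' hψW hψZ hψZ' hbad hσZ hσR hσ'
    (x := γ.symm x) (hG.stab γ.symm hγ.symm79 x hx) ?_
  have h1 : ψ (γ.symm x) = τ x := by rw [hψa, AlgEquiv.apply_symm_apply]
  rw [h1]
  exact hxne

end main

end Pf72953.Tow
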