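import Mathlib
import Pool.Agent.Lib.Pf72953j.Defs2
import Pool.Agent.Lib.Pf72953k.Defs

/-!
Towers of isotrivial fibre spaces: the condition on the line bundles.
-/

set_option autoImplicit false
set_option linter.style.haveILetI false

open scoped WithZero
open Pf72953 Pf72953.Mov

namespace Pf72953.Tow

variable {k Ω : Type*} [Field k] [Field Ω] [Algebra k Ω]

/-- `C` the curve `y² = x⁵ - 1`, `W = P × C^m`, `m` arbitrary, `Z = M × W`: every prime divisor of `M × W` over which a finite
Galois cover `Q` of `M × W` is ramified is the support of the divisor of a section `∑ s_l t_l` of a line bundle `S ⊠ T` on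
`M × W`.  (All line bundles on `M × W` are of the form `S ⊠ T` if the abelian varieties `Alb(M)` and `Alb(P) × J(C)` have no
common isogeny factor, for example if `q(M) = 0`.)
Precisely: for every `m` and `Q` there are smooth complete models of `M` and `W` (with charts so small that the finitely many
line bundles in question are trivial on them) such that `PF.BiMoves` holds. -/
def PicProd [CharZero k] (M P : IntermediateField k Ω) : Prop :=
  ∀ (Y W Z Q : IntermediateField k Ω) (_ : Fin' W) (_ : Fin' Z) (_ : Fact (M ≤ Z)) (_ : Fact (W ≤ Z))
    (_ : Fact (M ≤ Q)) (_ : Fact (W ≤ Q)) (_ : Fact (Z ≤ Q))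
    (hcomp : Twr.IsCompositum k W M Z) (hdim : dimension k W + dimension k M = dimension k Z),
    CurveProd Y → Indep P Y → W = P ⊔ Y → Fin' Q → Gal Z Q →
    ∃ (MM : SmoothModel k M) (WM : SmoothModel k W), PF.BiMoves MM WM Z Q hcomp hdim

end Pf72953.Tow
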