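import Mathlib
import Pool.Agent.Lib.Pf72953b.PosKod
import Pool.Agent.Lib.Pf72953m.Fin

/-!
Repeating line bundles with nonzero sections does not change the log Kodaira dimension of a variety of nonnegative Kodaira dimension.
-/

set_option autoImplicit false
set_option linter.style.haveILetI false

open Pf72953 Pf72953.Mov

namespace Pf72953.Tow

variable {k Y J J' : Type*} [Field k] [CharZero k] [Field Y] [Algebra k Y] [Fintype J] [Fintype J']
  {M : SmoothModel k Y}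

/-- the number of repetitions -/
noncomputable def mult (l : J' → J) (j : J) : ℕ := by
  classical
  exact (Finset.univ.filter fun a => l a = j).card

theorem mult_le (l : J' → J) (j : J) : mult l j ≤ Fintype.card J' := by
  classical
  exact Finset.card_le_univ _

theorem prod_fam {R : Type*} [CommMonoid R] (l : J' → J) (g : J → R) (n : ℕ) :
    ∏ a, g (l a) ^ n = ∏ j, g j ^ (n * mult l j) := by
  classical
  rw [← Finset.prod_fiberwise Finset.univ l]
  refine Finset.prod_congr rfl fun j _ => ?_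
  rw [Finset.prod_congr rfl (g := fun _ => g j ^ n) (fun a ha => by
    rw [(Finset.mem_filter.1 ha).2]), Finset.prod_const, ← pow_mul]
  rfl

theorem fam_mem {A : J → LineBundle M} {y : Fin (dimension k Y) → Y} {σ : J → Y}
    (hσ : ∀ j, σ j ∈ (A j).sections) (l : J' → J) {p q m N : ℕ} (hN : N = q + 1)
    (hl : ∀ j, mult l j ≤ N) {g g' g₀ : Y}
    (hg : g ∈ CoefSec M (fun a => A (l a)) y m (fun _ => m))
    (hg' : g' ∈ CoefSec M (fun a => A (l a)) y m (fun _ => m))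
    (hg₀ : g₀ ∈ CoefSec M A y (p + 1) (fun _ => 0)) :
    g' * (g ^ p * g₀ ^ (m * q) * ∏ j, σ j ^ (m * (p + 1) * (N - mult l j))) ∈
      CoefSec M A y (N * m * (p + 1)) (fun _ => N * m * (p + 1)) := by
  intro i
  obtain ⟨f', hf', h'⟩ := hg' i
  obtain ⟨f₁, hf₁, h₁⟩ := hg i
  obtain ⟨f₀, hf₀, h₀⟩ := hg₀ i
  choose φ hφ hφσ using fun j => hσ j i
  rw [prod_fam l (fun j => (A j).gen i) m] at h' h₁
  simp only [pow_zero, Finset.prod_const_one, mul_one] at h₀
  refine ⟨f' * f₁ ^ p * f₀ ^ (m * q) * ∏ j, φ j ^ (m * (p + 1) * (N - mult l j)),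
    (M.A i).mul_mem ((M.A i).mul_mem ((M.A i).mul_mem hf' ((M.A i).pow_mem hf₁ _))
      ((M.A i).pow_mem hf₀ _)) (Subalgebra.prod_mem _ fun j _ => (M.A i).pow_mem (hφ j) _), ?_⟩
  have e1 : ∏ j, σ j ^ (m * (p + 1) * (N - mult l j)) =
      (∏ j, φ j ^ (m * (p + 1) * (N - mult l j))) *
        ∏ j, (A j).gen i ^ (m * (p + 1) * (N - mult l j)) := by
    rw [← Finset.prod_mul_distrib]
    refine Finset.prod_congr rfl fun j _ => ?_
    rw [hφσ j, mul_pow]
  have e2 : (∏ j, (A j).gen i ^ (m * mult l j)) ^ (p + 1) *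
      ∏ j, (A j).gen i ^ (m * (p + 1) * (N - mult l j)) =
      ∏ j, (A j).gen i ^ (N * m * (p + 1)) := by
    rw [← Finset.prod_pow, ← Finset.prod_mul_distrib]
    refine Finset.prod_congr rfl fun j _ => ?_
    rw [← pow_mul, ← pow_add]
    congr 1
    have h3 := hl j
    obtain ⟨d, hd⟩ := Nat.exists_eq_add_of_le h3
    rw [hd, Nat.add_sub_cancel_left]
    ring
  calc g' * (g ^ p * g₀ ^ (m * q) * ∏ j, σ j ^ (m * (p + 1) * (N - mult l j))) *
        jac (M.tb i) y ^ (N * m * (p + 1))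
      = (g' * jac (M.tb i) y ^ m) * (g * jac (M.tb i) y ^ m) ^ p *
        (g₀ * jac (M.tb i) y ^ (p + 1)) ^ (m * q) *
        ∏ j, σ j ^ (m * (p + 1) * (N - mult l j)) := by
        rw [hN]; ring
    _ = (f' * ∏ j, (A j).gen i ^ (m * mult l j)) *
        (f₁ * ∏ j, (A j).gen i ^ (m * mult l j)) ^ p * f₀ ^ (m * q) *
        ∏ j, σ j ^ (m * (p + 1) * (N - mult l j)) := by rw [h', h₁, h₀]
    _ = f' * f₁ ^ p * f₀ ^ (m * q) * (∏ j, φ j ^ (m * (p + 1) * (N - mult l j))) *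
        ((∏ j, (A j).gen i ^ (m * mult l j)) ^ (p + 1) *
          ∏ j, (A j).gen i ^ (m * (p + 1) * (N - mult l j))) := by
        rw [e1]; ring
    _ = _ := by rw [e2]

theorem logKodairaGE_fam [Algebra.EssFiniteType k Y] (hM : KodairaGE k Y 0)
    (A : J → LineBundle M) {σ : J → Y} (hσ : ∀ j, σ j ∈ (A j).sections) (hσ0 : ∀ j, σ j ≠ 0)
    (l : J' → J) {c : ℕ} (hc : LogKodairaGE M (fun a => A (l a)) c) : LogKodairaGE M A c := by
  obtain ⟨y, hy⟩ := exists_tb k Y
  obtain ⟨m, hm, ω, hω, hω0, f, hf, hff⟩ := hc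
  obtain ⟨m₀, hm₀, ω₁, hω₁, hω₁0⟩ := Br.pos_of_kodaira M A hM
  obtain ⟨p, rfl⟩ : ∃ p, m₀ = p + 1 := ⟨m₀ - 1, by omega⟩
  set q := Fintype.card J' with hq
  have hl : ∀ j, mult l j ≤ q + 1 := fun j => (mult_le l j).trans (Nat.le_succ _)
  have hg0 : ∀ {m : ℕ} {ω : PluriForm k Y (dimension k Y) m}, ω ≠ 0 → coef hy m ω ≠ 0 := by
    intro m ω hω h0
    apply hω
    rw [eq_coef_smul hy m ω, h0, zero_smul]
  rw [mem_pluriSections_iff hy] at hω hω₁
  set g := coef hy m ω with hg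
  set g₀ := coef hy (p + 1) ω₁ with hg₀
  have hgne : g ≠ 0 := hg0 hω0
  have hg₀ne : g₀ ≠ 0 := hg0 hω₁0
  set v : Y := g ^ p * g₀ ^ (m * q) * ∏ j, σ j ^ (m * (p + 1) * (q + 1 - mult l j)) with hv
  have hvne : v ≠ 0 :=
    mul_ne_zero (mul_ne_zero (pow_ne_zero _ hgne) (pow_ne_zero _ hg₀ne))
      (Finset.prod_ne_zero_iff.2 fun j _ => pow_ne_zero _ (hσ0 j))
  refine ⟨(q + 1) * m * (p + 1), Nat.mul_pos (Nat.mul_pos (by omega) hm) (by omega),
    (g * v) • pureForm k (fun _ => y), ?_, ?_, f, hf, fun i => ?_⟩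
  · rw [mem_pluriSections_iff hy, map_smul, coef_self, smul_eq_mul, mul_one]
    exact fam_mem hσ l rfl hl hω hω hω₁
  · intro h0
    have := congrArg (coef hy _) h0
    rw [map_smul, coef_self, smul_eq_mul, mul_one, map_zero] at this
    exact mul_ne_zero hgne hvne this
  · rw [mem_pluriSections_iff hy, map_smul, map_smul, coef_self, smul_eq_mul, smul_eq_mul,
      mul_one, ← mul_assoc]
    have h1 := hff i
    rw [mem_pluriSections_iff hy, map_smul, smul_eq_mul] at h1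
    exact fam_mem hσ l rfl hl hω h1 hω₁

theorem logKodairaDim_fam [Algebra.EssFiniteType k Y] (hM : KodairaGE k Y 0)
    (A : J → LineBundle M) {σ : J → Y} (hσ : ∀ j, σ j ∈ (A j).sections) (hσ0 : ∀ j, σ j ≠ 0)
    (l : J' → J) : logKodairaDim M (fun a => A (l a)) ≤ logKodairaDim M A := by
  refine iSup₂_le fun c hc => ?_
  exact le_iSup₂_of_le c (logKodairaGE_fam hM A hσ hσ0 l hc) le_rfl

end Pf72953.Tow
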