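import Mathlib
import Pool.Agent.Lib.Pf72953j.Fam
import Pool.Agent.Lib.Pf72953k.Main

/-!
The lower bound of the product formula, with two auxiliary Galois extensions for the upper bounds over the two factors.
-/

set_option autoImplicit false
set_option linter.style.haveILetI false

open scoped WithZero
open Pf72953 Pf72953.Mov

namespace Pf72953.Tow

/-- the upper bound over one of the factors -/
theorem side {k C X Z R : Type*} [Field k] [CharZero k] [IsAlgClosed k] [Field C] [Field X]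
    [Field Z] [Field R] [Algebra k C] [Algebra k X] [Algebra k Z] [Algebra k R] [Algebra C Z]
    [Algebra C R] [Algebra X Z] [Algebra X R] [Algebra Z R] [IsScalarTower k C Z]
    [IsScalarTower k C R] [IsScalarTower k X Z] [IsScalarTower k X R] [IsScalarTower k Z R]
    [IsScalarTower C Z R] [IsScalarTower X Z R] [Algebra.EssFiniteType k C]
    [Algebra.EssFiniteType k X] [Algebra.EssFiniteType k Z] [FiniteDimensional Z R]
    [IsGalois Z R] (N : SmoothModel k X) (hcomp : Twr.IsCompositum k C X Z)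
    (hdim : dimension k C + dimension k X = dimension k Z) (hX : kodairaDim k X ≠ ⊥) {n : ℕ}
    (S : Fin n → LineBundle N) {σ : Fin n → X} (hσ : ∀ j, σ j ∈ (S j).sections)
    (hσ0 : ∀ j, σ j ≠ 0)
    (h : ∀ (i : N.I) (w : Valuation R ℤᵐ⁰), Br.Bad k N C Z i w →
      ∃ (l : Fin n) (E : MovingDivisor N C R), E.S = S l ∧
        w E.sec < w (algebraMap X R ((S l).gen i))) :
    kodairaDim C R ≤ logKodairaDim N S := by
  classical
  haveI : CharZero C := charZero_of_injective_algebraMap (algebraMap k C).injective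
  have hxW : ∀ j, IsTranscendenceBasis C (fun a => algebraMap X Z (N.x j a)) := fun j =>
    Up.tb_over hdim (PF.alg_of_compositum hcomp) (N.tb j)
  obtain ⟨m, T, I, hT, hfin⟩ := Br.exists_finite_conj (k := k) (B := C) (Y := X) (Z := Z) (P := R)
    N hxW (PF.gen_of_comp hcomp)
  choose l E hES hE using fun a => h (I a) (T a) (hT a)
  refine le_trans (PF.upper_cover (B := C) (Y := X) hcomp hdim E fun i w hw => ?_) ?_
  · obtain ⟨a, ha⟩ := hfin i w hw
    have heq : w.IsEquiv (T a) := by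
      rw [Valuation.isEquiv_iff_val_le_one]
      intro x
      exact ha x
    refine ⟨a, ?_⟩
    have h1 : w (algebraMap X R ((E a).S.gen (I a))) = w (algebraMap X R ((E a).S.gen i)) := by
      refine (E a).S.compat (I a) i (w.comap (algebraMap X R)) ?_ ?_
      · intro f hf
        exact (ha _).2 ((hT a).prime.center f hf)
      · intro f hf
        exact hw.prime.center f hf
    rw [← h1, ← not_le]
    intro hcon
    have h2 := hE a
    rw [← hES a] at h2
    exact absurd h2 (not_lt.2 ((heq _ _).1 hcon))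
  · have h1 : (fun a => (E a).S) = fun a => S (l a) := funext hES
    rw [h1]
    exact logKodairaDim_fam (PF.ge_zero hX) S (σ := σ) hσ hσ0 l

theorem plus2 {k B Y Z Q R₁ R₂ : Type*} [Field k] [CharZero k] [IsAlgClosed k] [Field B] [Field Y]
    [Field Z] [Field Q] [Field R₁] [Field R₂] [Algebra k B] [Algebra k Y] [Algebra k Z] [Algebra k Q]
    [Algebra k R₁] [Algebra k R₂] [Algebra B Z] [Algebra B Q] [Algebra B R₁] [Algebra B R₂]
    [Algebra Y Z] [Algebra Y Q] [Algebra Y R₁] [Algebra Y R₂]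
    [Algebra Z Q] [Algebra Z R₁] [Algebra Z R₂] [IsScalarTower k B Z] [IsScalarTower k B Q]
    [IsScalarTower k B R₁] [IsScalarTower k B R₂]
    [IsScalarTower k Y Z] [IsScalarTower k Y Q] [IsScalarTower k Y R₁] [IsScalarTower k Y R₂]
    [IsScalarTower k Z Q] [IsScalarTower k Z R₁] [IsScalarTower k Z R₂] [IsScalarTower B Z Q]
    [IsScalarTower B Z R₁] [IsScalarTower B Z R₂] [IsScalarTower Y Z Q]
    [IsScalarTower Y Z R₁] [IsScalarTower Y Z R₂] [Algebra.EssFiniteType k B]
    [Algebra.EssFiniteType k Y] [Algebra.EssFiniteType k Z] [FiniteDimensional Z Q] [IsGalois Z Q]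
    [FiniteDimensional Z R₁] [IsGalois Z R₁] [FiniteDimensional Z R₂] [IsGalois Z R₂]
    (M : SmoothModel k Y) (W : SmoothModel k B)
    (hcomp : Twr.IsCompositum k B Y Z) (hdim : dimension k B + dimension k Y = dimension k Z)
    (hY : kodairaDim k Y ≠ ⊥) (hB : kodairaDim k B ≠ ⊥) (hmv : PF.BiMoves M W Z Q hcomp hdim)
    (hC1 : ∀ (i : M.I) (w : Valuation R₁ ℤᵐ⁰), Br.Bad k M B Z i w → ∃ φ : Q →ₐ[k] R₁,
      (∀ y : Y, φ (algebraMap Y Q y) = algebraMap Y R₁ y) ∧
      (∀ b : B, IsAlgebraic B (φ (algebraMap B Q b))) ∧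
      Br.Bad k M B Z i (w.comap (φ : Q →+* R₁)))
    (hC2 : ∀ (j : W.I) (w : Valuation R₂ ℤᵐ⁰), Br.Bad k W Y Z j w → ∃ φ : Q →ₐ[k] R₂,
      (∀ b : B, φ (algebraMap B Q b) = algebraMap B R₂ b) ∧
      (∀ y : Y, IsAlgebraic Y (φ (algebraMap Y Q y))) ∧
      Br.Bad k W Y Z j (w.comap (φ : Q →+* R₂))) :
    kodairaDim B R₁ + kodairaDim Y R₂ ≤ kodairaDim k Q := by
  classical
  obtain ⟨n, D, hbr, hcov⟩ := PF.exists_biCover hcomp hdim hmv
  obtain ⟨i₀, -⟩ := M.cover 1 (fun c hc => Valuation.one_apply_of_ne_zero (by simpa using hc))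
  obtain ⟨j₀, -⟩ := W.cover 1 (fun c hc => Valuation.one_apply_of_ne_zero (by simpa using hc))
  have hne : ∀ j, (D j).sec Z ≠ 0 := fun j => (D j).sec_ne hcomp hdim
  -- over `B`
  have hB' : kodairaDim B R₁ ≤ logKodairaDim M (fun j => (D j).S) := by
    refine side M hcomp hdim hY (fun j => (D j).S) (σ := fun j => (D j).s 0)
      (fun j => (D j).s_mem 0) (fun j => (D j).s_indep.ne_zero 0) fun i w hw => ?_
    obtain ⟨φ, hφY, hφB, hbad⟩ := hC1 i w hw
    obtain ⟨l, hl⟩ := hcov (i, j₀) _ (PF.bad_left hcomp hdim W j₀ hbad)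
    rw [PF.BiDivisor.gen, map_mul, hbad.triv _ ((D l).T.ne j₀), mul_one] at hl
    refine ⟨l, ⟨(D l).S, (D l).r, (D l).s, fun i => φ (algebraMap B Q ((D l).t i)), (D l).s_mem,
      (D l).s_indep, fun i => hφB _, ⟨0, ?_⟩⟩, rfl, ?_⟩
    · rw [map_ne_zero, Ne, map_eq_zero]
      exact (D l).t_indep.ne_zero 0
    · rw [Valuation.comap_apply, Valuation.comap_apply] at hl
      have h1 : (φ : Q →+* R₁) (algebraMap Y Q ((D l).S.gen i)) =
          algebraMap Y R₁ ((D l).S.gen i) := hφY _
      rw [h1] at hl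
      refine lt_of_eq_of_lt (congrArg _ ?_) hl
      change ∑ i, φ (algebraMap B Q ((D l).t i)) * algebraMap Y R₁ ((D l).s i) = φ ((D l).sec Q)
      rw [PF.BiDivisor.sec, map_sum]
      refine Finset.sum_congr rfl fun i _ => ?_
      rw [map_mul, hφY, mul_comm]
  -- over `Y`
  have hY' : kodairaDim Y R₂ ≤ logKodairaDim W (fun j => (D j).T) := by
    refine side W (PF.IsCompositum.symm hcomp) (by omega) hB (fun j => (D j).T)
      (σ := fun j => (D j).t 0)
      (fun j => (D j).t_mem 0) (fun j => (D j).t_indep.ne_zero 0) fun i w hw => ?_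
    obtain ⟨φ, hφB, hφY, hbad⟩ := hC2 i w hw
    obtain ⟨l, hl⟩ := hcov (i₀, i) _ (PF.bad_right hcomp hdim M i₀ hbad)
    rw [PF.BiDivisor.gen, map_mul, hbad.triv _ ((D l).S.ne i₀), one_mul] at hl
    refine ⟨l, ⟨(D l).T, (D l).r, (D l).t, fun i => φ (algebraMap Y Q ((D l).s i)), (D l).t_mem,
      (D l).t_indep, fun i => hφY _, ⟨0, ?_⟩⟩, rfl, ?_⟩
    · rw [map_ne_zero, Ne, map_eq_zero]
      exact (D l).s_indep.ne_zero 0
    · rw [Valuation.comap_apply, Valuation.comap_apply] at hl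
      have h1 : (φ : Q →+* R₂) (algebraMap B Q ((D l).T.gen i)) =
          algebraMap B R₂ ((D l).T.gen i) := hφB _
      rw [h1] at hl
      refine lt_of_eq_of_lt (congrArg _ ?_) hl
      change ∑ i, φ (algebraMap Y Q ((D l).s i)) * algebraMap B R₂ ((D l).t i) = φ ((D l).sec Q)
      rw [PF.BiDivisor.sec, map_sum]
      refine Finset.sum_congr rfl fun i _ => ?_
      rw [map_mul, hφB, mul_comm]
  -- over `k`
  have hk : logKodairaDim (PF.prodModel M W hcomp hdim)
      (fun j => PF.prodBundle (D j).S (D j).T hcomp hdim) ≤ kodairaDim k Q := by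
    refine PF.lower_cover (fun j => (D j).toK Q hcomp hdim (hne j)) (fun j => ?_)
      (PF.pos_prod (fun j => (D j).S) (fun j => (D j).T) hcomp hdim (PF.ge_zero hY)
        (PF.ge_zero hB))
    obtain ⟨i, w, hw, hlt, hsupp⟩ := hbr j
    have hgen : ∀ (w : Valuation Q ℤᵐ⁰) i', w (algebraMap Z Q
        ((PF.prodBundle (D j).S (D j).T hcomp hdim).gen i')) = w ((D j).gen Q i') := fun w i' => by
      rw [← PF.BiDivisor.map_gen (Z := Z)]
      rfl
    refine ⟨i, w, hw, ?_, fun w' i' hw' _ hp hlt' z => ?_⟩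
    · rw [PF.BiDivisor.toK_sec]
      exact hlt.trans_le (hgen w i).ge
    · rw [PF.BiDivisor.toK_sec] at hlt'
      exact hsupp w' i' hw' hp (hlt'.trans_le (hgen w' i').le) z
  calc kodairaDim B R₁ + kodairaDim Y R₂
      ≤ logKodairaDim M (fun j => (D j).S) + logKodairaDim W (fun j => (D j).T) :=
        add_le_add hB' hY'
    _ = logKodairaDim W (fun j => (D j).T) + logKodairaDim M (fun j => (D j).S) := add_comm _ _
    _ ≤ _ := PF.logKodairaDim_prod _ _ hcomp hdim
    _ ≤ kodairaDim k Q := hk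

end Pf72953.Tow
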