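import Mathlib
import Pool.Agent.Lib.Pf72953j.Glue
import Pool.Agent.Lib.Pf72953j.Ext
import Pool.Agent.Lib.Pf72953g.Low
import Pool.Agent.Lib.Pf72953g.Unr
import Pool.Agent.Lib.Pf72953g.Gal

/-!
Towers of isotrivial fibre spaces: `κ(Q·M·P) ≤ κ(Q)`.
-/

set_option autoImplicit false
set_option linter.style.haveILetI false

open scoped WithZero
open Pf72953 Pf72953.Mov

namespace Pf72953.Tow

variable {k Ω : Type*} [Field k] [Field Ω] [Algebra k Ω]

/-- the fixed field of an automorphism -/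
def fixF (τ : Ω ≃ₐ[k] Ω) : IntermediateField k Ω where
  carrier := {x | τ x = x}
  mul_mem' := by
    intro a b ha hb
    simp only [Set.mem_ofPred_eq] at *
    rw [map_mul, ha, hb]
  add_mem' := by
    intro a b ha hb
    simp only [Set.mem_ofPred_eq] at *
    rw [map_add, ha, hb]
  algebraMap_mem' := fun r => τ.commutes r
  inv_mem' := by
    intro a ha
    simp only [Set.mem_ofPred_eq] at *
    rw [map_inv₀, ha]

theorem fixes_iff {τ : Ω ≃ₐ[k] Ω} {F : IntermediateField k Ω} : Fixes τ F ↔ F ≤ fixF τ := Iff.rfl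

theorem Fixes.sup {τ : Ω ≃ₐ[k] Ω} {A B : IntermediateField k Ω} (hA : Fixes τ A)
    (hB : Fixes τ B) : Fixes τ (A ⊔ B) := by
  rw [fixes_iff] at *
  exact sup_le hA hB

namespace Step

variable {V E M P : IntermediateField k Ω} (h : Step V E M P)

include h

theorem le_E : V ≤ E := by rw [h.eq]; exact inf_le_left

theorem le_P : V ≤ P := by rw [h.eq]; exact inf_le_right

theorem finN : Fin' (M ⊔ P : IntermediateField k Ω) := fin_sup h.fgM h.fgP

theorem finE : Fin' E := fin_le h.finN h.le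

theorem finV : Fin' V := fin_le h.fgP h.le_P

theorem galN : Gal E (M ⊔ P) := by
  refine ⟨h.le, h.alg, fun σ hσ => ?_⟩
  have hM := h.stabM σ hσ
  have hP := h.stabP σ hσ
  intro x hx
  have hle : (M ⊔ P : IntermediateField k Ω) ≤ (M ⊔ P : IntermediateField k Ω).comap (σ : Ω →ₐ[k] Ω) :=
    sup_le (fun y hy => (le_sup_left : M ≤ M ⊔ P) (hM y hy))
      (fun y hy => (le_sup_right : P ≤ M ⊔ P) (hP y hy))
  exact hle hx

theorem alg_P [CharZero k] [IsAlgClosed k] [IsAlgClosed Ω] : ∀ x ∈ P, IsAlgebraic V x := by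
  classical
  intro p hp
  haveI f1 : Fact (E ≤ M ⊔ P) := ⟨h.le⟩
  obtain ⟨hfd, hgal⟩ := h.galN.finite h.finN
  set N : IntermediateField k Ω := M ⊔ P with hN
  have hpN : p ∈ N := (le_sup_right : P ≤ M ⊔ P) hp
  obtain ⟨q, hqm, hq⟩ := Diag.exists_poly (B := k) (E := E) (N := N) (P.comap N.val)
    (fun σ x hx => by
      obtain ⟨τ, hτ, hτσ⟩ := h.galN.exists_ext h.finN σ
      have h1 := h.stabP τ hτ x hx
      have h2 : ((σ x : N) : Ω) ∈ P := by rw [← hτσ]; exact h1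
      exact h2) ⟨p, hpN⟩ hp
  let f : Diag.fixedPart E (P.comap N.val) →+* V :=
    { toFun := fun a => ⟨((a : E) : Ω), by rw [h.eq]; exact ⟨(a : E).2, a.2⟩⟩
      map_one' := rfl
      map_mul' := fun _ _ => rfl
      map_zero' := rfl
      map_add' := fun _ _ => rfl }
  refine ⟨q.map f, (hqm.map f).ne_zero, ?_⟩
  have h3 : Polynomial.aeval p (q.map f) = ((q.eval₂ ((algebraMap E N).comp
      (algebraMap (Diag.fixedPart E (P.comap N.val)) E)) ⟨p, hpN⟩ : N) : Ω) := by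
    rw [Polynomial.aeval_def, Polynomial.eval₂_map]
    exact (Polynomial.hom_eval₂ q ((algebraMap E N).comp
      (algebraMap (Diag.fixedPart E (P.comap N.val)) E)) (algebraMap N Ω) ⟨p, hpN⟩).symm
  rw [h3, hq]
  rfl

theorem dimV [CharZero k] [IsAlgClosed k] [IsAlgClosed Ω] : dimension k V = dimension k P :=
  (dim_eq h.fgP h.le_P h.alg_P).symm

end Step

theorem eq_one_of_fix {Q Q' P : IntermediateField k Ω} [Fact (Q ≤ Q')] (hle : Q' ≤ Q ⊔ P)
    (hP : P ≤ Q') (hext : ∀ σ : Q' ≃ₐ[Q] Q', ∃ τ : Ω ≃ₐ[k] Ω, Fixes τ Q ∧ ∀ x : Q', τ x = σ x)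
    (σ : Q' ≃ₐ[Q] Q') (hσ : ∀ x (hx : x ∈ P), σ ⟨x, hP hx⟩ = ⟨x, hP hx⟩) : σ = 1 := by
  obtain ⟨τ, hτ, hτσ⟩ := hext σ
  have h1 : Fixes τ (Q ⊔ P) := hτ.sup fun x hx => by
    have h2 := hτσ ⟨x, hP hx⟩
    rw [hσ x hx] at h2
    exact h2
  ext x
  have h3 := hτσ x
  rw [h1 _ (hle x.2)] at h3
  exact h3.symm

section desc

variable [CharZero k] [IsAlgClosed k] [IsAlgClosed Ω] {V E M P Y Q : IntermediateField k Ω}

theorem descend (h : Step V E M P) (hY : Fin' Y)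
    (hi : Indep (M ⊔ P) Y) (hQ : Fin' Q) (hG : Gal (E ⊔ Y) Q)
    (hV : KodairaGE k V 0) (hM : KodairaGE k M 0) (hY0 : KodairaGE k Y 0) {c : ℕ}
    (hc : KodairaGE k (Q ⊔ (M ⊔ P) : IntermediateField k Ω) c) : KodairaGE k Q c := by
  set N : IntermediateField k Ω := M ⊔ P with hN
  set Q' : IntermediateField k Ω := Q ⊔ N with hQ'
  set V₁ : IntermediateField k Ω := V ⊔ Y with hV₁
  have hEYQ : E ⊔ Y ≤ Q := hG.le
  have hEQ : E ≤ Q := le_sup_left.trans hEYQ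
  have hYQ : Y ≤ Q := le_sup_right.trans hEYQ
  have hMN : M ≤ N := le_sup_left
  have hPN : P ≤ N := le_sup_right
  have hNQ' : N ≤ Q' := le_sup_right
  have hQQ' : Q ≤ Q' := le_sup_left
  have hVQ : V₁ ≤ Q := sup_le (h.le_E.trans hEQ) hYQ
  have hfQ' : Fin' Q' := fin_sup hQ h.finN
  have hfV₁ : Fin' V₁ := fin_sup h.finV hY
  haveI f1 : Fact (V₁ ≤ Q) := ⟨hVQ⟩
  haveI f2 : Fact (V₁ ≤ Q') := ⟨hVQ.trans hQQ'⟩
  haveI f3 : Fact (Q ≤ Q') := ⟨hQQ'⟩
  haveI f4 : Fact (M ≤ Q') := ⟨hMN.trans hNQ'⟩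
  haveI f5 : Fact (P ≤ Q') := ⟨hPN.trans hNQ'⟩
  haveI : Algebra.EssFiniteType k V₁ := hfV₁
  haveI : Algebra.EssFiniteType k M := h.fgM
  haveI : Algebra.EssFiniteType k Q := hQ
  haveI : Algebra.EssFiniteType k Q' := hfQ'
  -- `Q'/Q` is Galois
  have hgal : Gal Q Q' := by
    have h1 := h.galN.base Q hEQ
    rwa [sup_comm] at h1
  obtain ⟨hfd, hgal'⟩ := hgal.finite hfQ'
  have hPcl : P ≤ cl V := alg_iff.1 h.alg_P
  have hNcl : N ≤ cl E := alg_iff.1 h.alg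
  have hQcl : Q ≤ cl (E ⊔ Y) := alg_iff.1 hG.alg
  have hQ'cl : Q' ≤ cl (V₁ ⊔ M) := by
    have h1 : N ≤ cl (V₁ ⊔ M) := sup_le (le_sup_right.trans le_cl)
      (hPcl.trans (cl_mono (le_sup_left.trans le_sup_left)))
    have h2 : E ⊔ Y ≤ cl (V₁ ⊔ M) := sup_le (h.le.trans h1)
      ((le_sup_right.trans le_sup_left : Y ≤ V₁ ⊔ M).trans le_cl)
    exact sup_le (hQcl.trans (cl_le h2)) h1
  have hdim : dimension k V₁ + dimension k M = dimension k Q' := by
    have e1 : dimension k V₁ = dimension k V + dimension k Y :=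
      hi.mono_left h.finN hY (h.le_P.trans hPN)
    have e2 : dimension k (N ⊔ Y : IntermediateField k Ω) = dimension k N + dimension k Y := hi
    have e3 : dimension k N = dimension k M + dimension k P := h.indep
    have e4 : dimension k Q' = dimension k (N ⊔ Y : IntermediateField k Ω) :=
      dim_eq hfQ' (sup_le hNQ' (hYQ.trans hQQ')) (alg_iff.2 (hQ'cl.trans (cl_mono
        (sup_le (sup_le ((h.le_P.trans hPN).trans le_sup_left) le_sup_right)
          (hMN.trans le_sup_left)))))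
    have e5 := h.dimV
    omega
  have hV1 : KodairaGE k V₁ 0 := kge_prod h.finV hY
    (hi.mono_left h.finN hY (h.le_P.trans hPN)) hV hY0
  refine Diag.low (V := V₁) (G := M) (E := Q) (N := Q') hdim
    (alg_sup (alg_iff.2 hQ'cl)) ?_ hV1 hM hc
  rintro w hw (hw1 | hw1)
  · -- trivial on `V₁`, hence on `P`
    refine Diag.unr_of_triv (G := P) (E := Q) (N := Q') (fun σ g => ?_) (fun σ hσ => ?_)
      (fun g hg => ?_)
    · obtain ⟨τ, hτ, hτσ⟩ := hgal.exists_ext hfQ' σ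
      have h1 := h.stabP τ (hτ.mono hEQ) g g.2
      exact ⟨⟨τ g, h1⟩, Subtype.ext (hτσ _).symm⟩
    · refine eq_one_of_fix (P := P) ?_ f5.out (fun σ => hgal.exists_ext hfQ' σ) σ
        (fun x hx => hσ ⟨x, hx⟩)
      exact sup_le le_sup_left (sup_le (h.genM.trans (sup_le_sup_right hEQ P)) le_sup_right)
    · haveI g1 : Fact (V ≤ P) := ⟨h.le_P⟩
      haveI g2 : Fact (V ≤ Q') := ⟨h.le_P.trans f5.out⟩
      haveI : Algebra.IsAlgebraic V P := isAlg_iff.2 h.alg_P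
      refine Diag.triv_up (V := V) (P := P) (N := Q') (fun a ha => ?_) g hg
      refine hw1 ⟨(a : Ω), (le_sup_left : V ≤ V₁) a.2⟩ (fun h0 => ha (Subtype.ext ?_))
      have h1 : ((⟨(a : Ω), (le_sup_left : V ≤ V₁) a.2⟩ : V₁) : Ω) = 0 := by rw [h0]; rfl
      exact h1
  · refine Diag.unr_of_triv (G := M) (E := Q) (N := Q') (fun σ g => ?_) (fun σ hσ => ?_) hw1
    · obtain ⟨τ, hτ, hτσ⟩ := hgal.exists_ext hfQ' σ
      have h1 := h.stabM τ (hτ.mono hEQ) g g.2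
      exact ⟨⟨τ g, h1⟩, Subtype.ext (hτσ _).symm⟩
    · refine eq_one_of_fix (P := M) ?_ f4.out (fun σ => hgal.exists_ext hfQ' σ) σ
        (fun x hx => hσ ⟨x, hx⟩)
      exact sup_le le_sup_left (sup_le le_sup_right (h.genP.trans (sup_le_sup_right hEQ M)))

end desc

end Pf72953.Tow
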