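import Mathlib
import Pool.Agent.Lib.Pf72953j.Fam
import Pool.Agent.Lib.Pf72953k.Main

/-!
The lower bound of the product formula, with a second Galois extension for the upper bound over `Y`.
-/

set_option autoImplicit false
set_option linter.style.haveILetI false

open scoped WithZero
open Pf72953 Pf72953.Mov

namespace Pf72953.Tow

theorem plus {k B Y Z Q R : Type*} [Field k] [CharZero k] [IsAlgClosed k] [Field B] [Field Y]
    [Field Z] [Field Q] [Field R] [Algebra k B] [Algebra k Y] [Algebra k Z] [Algebra k Q]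
    [Algebra k R] [Algebra B Z] [Algebra B Q] [Algebra B R] [Algebra Y Z] [Algebra Y Q] [Algebra Y R]
    [Algebra Z Q] [Algebra Z R] [IsScalarTower k B Z] [IsScalarTower k B Q] [IsScalarTower k B R]
    [IsScalarTower k Y Z] [IsScalarTower k Y Q] [IsScalarTower k Y R] [IsScalarTower k Z Q]
    [IsScalarTower k Z R] [IsScalarTower B Z Q] [IsScalarTower B Z R] [IsScalarTower Y Z Q]
    [IsScalarTower Y Z R] [Algebra.EssFiniteType k B] [Algebra.EssFiniteType k Y]
    [Algebra.EssFiniteType k Z] [FiniteDimensional Z Q] [IsGalois Z Q] [FiniteDimensional Z R]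
    [IsGalois Z R] (M : SmoothModel k Y) (W : SmoothModel k B)
    (hcomp : Twr.IsCompositum k B Y Z) (hdim : dimension k B + dimension k Y = dimension k Z)
    (hY : kodairaDim k Y ≠ ⊥) (hB : kodairaDim k B ≠ ⊥) (hmv : PF.BiMoves M W Z Q hcomp hdim)
    (hC : ∀ (j : W.I) (w : Valuation R ℤᵐ⁰), Br.Bad k W Y Z j w → ∃ φ : Q →ₐ[k] R,
      (∀ b : B, φ (algebraMap B Q b) = algebraMap B R b) ∧
      (∀ y : Y, ∃ y' : Y, φ (algebraMap Y Q y) = algebraMap Y R y') ∧
      Br.Bad k W Y Z j (w.comap (φ : Q →+* R))) :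
    kodairaDim B Q + kodairaDim Y R ≤ kodairaDim k Q := by
  classical
  haveI : CharZero Y := charZero_of_injective_algebraMap (algebraMap k Y).injective
  obtain ⟨n, D, hbr, hcov⟩ := PF.exists_biCover hcomp hdim hmv
  obtain ⟨i₀, -⟩ := M.cover 1 (fun c hc => Valuation.one_apply_of_ne_zero (by simpa using hc))
  obtain ⟨j₀, -⟩ := W.cover 1 (fun c hc => Valuation.one_apply_of_ne_zero (by simpa using hc))
  have hne : ∀ j, (D j).sec Z ≠ 0 := fun j => (D j).sec_ne hcomp hdim
  -- over `B`
  have hB' : kodairaDim B Q ≤ logKodairaDim M (fun j => (D j).S) := by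
    refine PF.upper_cover hcomp hdim (fun j => (D j).toB Q) fun i w hw => ?_
    obtain ⟨j, hj⟩ := hcov (i, j₀) w (PF.bad_left hcomp hdim W j₀ hw)
    refine ⟨j, ?_⟩
    rw [PF.BiDivisor.gen, map_mul, hw.triv _ ((D j).T.ne j₀), mul_one] at hj
    exact hj
  -- over `Y`
  have hY' : kodairaDim Y R ≤ logKodairaDim W (fun j => (D j).T) := by
    have hxW : ∀ j, IsTranscendenceBasis Y (fun a => algebraMap B Z (W.x j a)) := fun j =>
      Up.tb_over (by omega) (PF.alg_of_compositum (PF.IsCompositum.symm hcomp)) (W.tb j)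
    obtain ⟨N, T, I, hT, hfin⟩ := Br.exists_finite_conj (k := k) (B := Y) (Y := B) (Z := Z) (P := R)
      W hxW (PF.gen_of_comp (PF.IsCompositum.symm hcomp))
    -- the divisor belonging to a bad valuation
    have hex : ∀ a : Fin N, ∃ (l : Fin n) (E : MovingDivisor W Y R), E.S = (D l).T ∧
        T a E.sec < T a (algebraMap B R ((D l).T.gen (I a))) := by
      intro a
      obtain ⟨φ, hφB, hφY, hbad⟩ := hC (I a) (T a) (hT a)
      obtain ⟨l, hl⟩ := hcov (i₀, I a) _ (PF.bad_right hcomp hdim M i₀ hbad)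
      rw [PF.BiDivisor.gen, map_mul, hbad.triv _ ((D l).S.ne i₀), one_mul] at hl
      refine ⟨l, ⟨(D l).T, (D l).r, (D l).t, fun i => φ (algebraMap Y Q ((D l).s i)), (D l).t_mem,
        (D l).t_indep, fun i => ?_, ⟨0, ?_⟩⟩, rfl, ?_⟩
      · obtain ⟨y', hy'⟩ := hφY ((D l).s i)
        rw [hy']
        exact isAlgebraic_algebraMap y'
      · rw [map_ne_zero, Ne, map_eq_zero]
        exact (D l).s_indep.ne_zero 0
      · rw [Valuation.comap_apply, Valuation.comap_apply] at hl
        have h1 : (φ : Q →+* R) (algebraMap B Q ((D l).T.gen (I a))) =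
            algebraMap B R ((D l).T.gen (I a)) := hφB _
        rw [h1] at hl
        refine lt_of_eq_of_lt (congrArg _ ?_) hl
        change ∑ i, φ (algebraMap Y Q ((D l).s i)) * algebraMap B R ((D l).t i) = φ ((D l).sec Q)
        rw [PF.BiDivisor.sec, map_sum]
        refine Finset.sum_congr rfl fun i _ => ?_
        rw [map_mul, hφB, mul_comm]
    choose l E hES hE using hex
    refine le_trans (PF.upper_cover (B := Y) (Y := B) (PF.IsCompositum.symm hcomp) (by omega)
      E fun i w hw => ?_) ?_
    · obtain ⟨a, ha⟩ := hfin i w hw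
      have heq : w.IsEquiv (T a) := by
        rw [Valuation.isEquiv_iff_val_le_one]
        intro x
        exact ha x
      refine ⟨a, ?_⟩
      have h1 : w (algebraMap B R ((E a).S.gen (I a))) = w (algebraMap B R ((E a).S.gen i)) := by
        refine (E a).S.compat (I a) i (w.comap (algebraMap B R)) ?_ ?_
        · intro f hf
          exact (ha _).2 ((hT a).prime.center f hf)
        · intro f hf
          exact hw.prime.center f hf
      rw [← h1, ← not_le]
      intro hcon
      have h2 := hE a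
      rw [← hES a] at h2
      exact absurd h2 (not_lt.2 ((heq _ _).1 hcon))
    · have h1 : (fun a => (E a).S) = fun a => (D (l a)).T := funext hES
      rw [h1]
      refine logKodairaDim_fam (PF.ge_zero hB) (fun j => (D j).T) (σ := fun j => (D j).t 0)
        (fun j => (D j).t_mem 0) (fun j => (D j).t_indep.ne_zero 0) l
  -- over `k`
  have hk : logKodairaDim (PF.prodModel M W hcomp hdim)
      (fun j => PF.prodBundle (D j).S (D j).T hcomp hdim) ≤ kodairaDim k Q := by
    refine PF.lower_cover (fun j => (D j).toK Q hcomp hdim (hne j)) (fun j => ?_)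
      (PF.pos_prod (fun j => (D j).S) (fun j => (D j).T) hcomp hdim (PF.ge_zero hY)
        (PF.ge_zero hB))
    obtain ⟨i, w, hw, hlt, hsupp⟩ := hbr j
    have hgen : ∀ (w : Valuation Q ℤᵐ⁰) i', w (algebraMap Z Q
        ((PF.prodBundle (D j).S (D j).T hcomp hdim).gen i')) = w ((D j).gen Q i') := fun w i' => by
      rw [← PF.BiDivisor.map_gen (Z := Z)]
      rfl
    refine ⟨i, w, hw, ?_, fun w' i' hw' _ hp hlt' z => ?_⟩
    · rw [PF.BiDivisor.toK_sec]
      exact hlt.trans_le (hgen w i).ge
    · rw [PF.BiDivisor.toK_sec] at hlt'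
      exact hsupp w' i' hw' hp (hlt'.trans_le (hgen w' i').le) z
  calc kodairaDim B Q + kodairaDim Y R
      ≤ logKodairaDim M (fun j => (D j).S) + logKodairaDim W (fun j => (D j).T) :=
        add_le_add hB' hY'
    _ = logKodairaDim W (fun j => (D j).T) + logKodairaDim M (fun j => (D j).S) := add_comm _ _
    _ ≤ _ := PF.logKodairaDim_prod _ _ hcomp hdim
    _ ≤ kodairaDim k Q := hk

end Pf72953.Tow
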