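import Mathlib
import Pool.Agent.Lib.Pf72953j.Ram
import Pool.Agent.Lib.Pf72953j.Desc
import Pool.Agent.Lib.Pf72953j.Plus
import Pool.Agent.Lib.Pf72953g.Kod

/-!
Towers of isotrivial fibre spaces: the step.
-/

set_option autoImplicit false
set_option linter.style.haveILetI false

open scoped WithZero
open Pf72953 Pf72953.Mov

namespace Pf72953.Tow

variable {k Ω : Type*} [Field k] [Field Ω] [Algebra k Ω]

/-- Every prime divisor of `M × W`, `W` any smooth complete variety, is the support of the divisor of a section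
`∑ s_l t_l` of a line bundle `S ⊠ T` on `M × W` (true if `q(M) = 0`, since all line bundles on `M × W` are of this form).
Precisely: for every `W` which has a smooth complete model and for every finite Galois extension `Q` of the function field
`Z` of `M × W` there are smooth complete models of `M` and `W` (with charts so small that the finitely many line bundles in
question are trivial on them) such that `PF.BiMoves` holds: every prime divisor of `M × W` over which `Q` is ramified is the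
support of such a section. -/
def ProductPic [CharZero k] (M : IntermediateField k Ω) : Prop :=
  ∀ (W Z Q : IntermediateField k Ω) (_ : Fin' W) (_ : Fin' Z) (_ : Fact (M ≤ Z)) (_ : Fact (W ≤ Z))
    (_ : Fact (M ≤ Q)) (_ : Fact (W ≤ Q)) (_ : Fact (Z ≤ Q))
    (hcomp : Twr.IsCompositum k W M Z) (hdim : dimension k W + dimension k M = dimension k Z),
    Nonempty (SmoothModel k W) → Fin' Q → Gal Z Q →
    ∃ (MM : SmoothModel k M) (WM : SmoothModel k W), PF.BiMoves MM WM Z Q hcomp hdim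

theorem isCompositum {A B Z : IntermediateField k Ω} [Fact (A ≤ Z)] [Fact (B ≤ Z)]
    (h : Z ≤ A ⊔ B) : Twr.IsCompositum k A B Z := by
  intro z
  set S : Set Z := Set.range (algebraMap A Z) ∪ Set.range (algebraMap B Z) with hS
  have hle : (A ⊔ B : IntermediateField k Ω) ≤ (IntermediateField.adjoin k S).map Z.val := by
    refine sup_le (fun x hx => ?_) (fun x hx => ?_)
    · exact ⟨algebraMap A Z ⟨x, hx⟩, IntermediateField.subset_adjoin k S (Or.inl ⟨_, rfl⟩), rfl⟩
    · exact ⟨algebraMap B Z ⟨x, hx⟩, IntermediateField.subset_adjoin k S (Or.inr ⟨_, rfl⟩), rfl⟩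
  obtain ⟨y, hy, hyz⟩ := hle (h z.2)
  have : y = z := Subtype.ext hyz
  rw [← this]
  exact hy

/-- the product model -/
theorem exists_model {A B : IntermediateField k Ω} (hA : Fin' A) (hB : Fin' B) (hi : Indep A B)
    (h1 : Nonempty (SmoothModel k A)) (h2 : Nonempty (SmoothModel k B)) [CharZero k] :
    Nonempty (SmoothModel k (A ⊔ B : IntermediateField k Ω)) := by
  haveI : Fact (A ≤ A ⊔ B) := ⟨le_sup_left⟩
  haveI : Fact (B ≤ A ⊔ B) := ⟨le_sup_right⟩
  haveI : Algebra.EssFiniteType k A := hA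
  haveI : Algebra.EssFiniteType k B := hB
  haveI : Algebra.EssFiniteType k (A ⊔ B : IntermediateField k Ω) := fin_sup hA hB
  obtain ⟨M⟩ := h1
  obtain ⟨W⟩ := h2
  exact ⟨PF.prodModel W M (isCompositum (A := A) (B := B) le_rfl) (Eq.symm hi)⟩

theorem Gal.of_le {F F' Q : IntermediateField k Ω} (h : Gal F Q) (h1 : F ≤ F') (h2 : F' ≤ Q) :
    Gal F' Q :=
  ⟨h2, fun x hx => alg_mono h1 (h.alg x hx), fun σ hσ => h.stab σ (fun x hx => hσ x (h1 hx))⟩

theorem Indep.up {A A' B : IntermediateField k Ω} (h : Indep A B) (hA' : Fin' A') (hB : Fin' B)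
    (h1 : A ≤ A') (h2 : A' ≤ cl A) : Indep A' B := by
  unfold Indep at *
  have e1 := dim_eq hA' h1 (alg_iff.2 h2)
  have e2 : dimension k (A' ⊔ B : IntermediateField k Ω) =
      dimension k (A ⊔ B : IntermediateField k Ω) :=
    dim_eq (fin_sup hA' hB) (sup_le_sup_right h1 B)
      (alg_iff.2 (sup_le (h2.trans (cl_mono le_sup_left)) (le_sup_right.trans le_cl)))
  omega

section step

variable [CharZero k] [IsAlgClosed k] [IsAlgClosed Ω]

theorem stable_step {B V E M P M' : IntermediateField k Ω} (hVB : Stable B V)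
    (h : Step V E M P) (hV : KodairaGE k V 0) (hM : KodairaGE k M 0)
    (hMM : ProductPic M) (PM : Nonempty (SmoothModel k P)) (hM' : Fin' M') (hMM' : Gal M M')
    (hgt : KodairaGE k M' (dimension k M')) (M'M : Nonempty (SmoothModel k M')) :
    Stable B E := by
  refine ⟨hVB.1.trans h.le_E, ?_⟩
  intro Y Q hY YM hEY hYgt hQ hG b c hb hc
  have hYM : Indep E Y := hEY
  have hB : Fin' B := fin_le h.finV hVB.1
  -- `Y` is independent of `M·P`
  have hi : Indep (M ⊔ P) Y := hEY.up h.finN hY h.le (alg_iff.1 h.alg)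
  set Q' : IntermediateField k Ω := Q ⊔ (M ⊔ P) with hQ'
  have hfQ' : Fin' Q' := fin_sup hQ h.finN
  have hEYQ : E ⊔ Y ≤ Q := hG.le
  have hEQ : E ≤ Q := le_sup_left.trans hEYQ
  have hYQ : Y ≤ Q := le_sup_right.trans hEYQ
  have hQQ' : Q ≤ Q' := le_sup_left
  have hNQ' : M ⊔ P ≤ Q' := le_sup_right
  have hMQ' : M ≤ Q' := le_sup_left.trans hNQ'
  have hPQ' : P ≤ Q' := le_sup_right.trans hNQ'
  have hYQ' : Y ≤ Q' := hYQ.trans hQQ'
  have hBV : B ≤ V := hVB.1
  have hBQ' : B ≤ Q' := (hBV.trans h.le_P).trans hPQ'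
  -- `Q'/E·Y` is Galois
  have hG' : Gal (E ⊔ Y) Q' := by
    have h1 : Gal (E ⊔ Y) ((M ⊔ P) ⊔ (E ⊔ Y)) := h.galN.base (E ⊔ Y) le_sup_left
    have h2 := hG.sup h1
    have h3 : Q ⊔ ((M ⊔ P) ⊔ (E ⊔ Y)) = Q' := by
      rw [← sup_assoc]
      exact sup_eq_left.2 (hEYQ.trans hQQ')
    rwa [h3] at h2
  -- the fields
  set W : IntermediateField k Ω := P ⊔ Y with hW
  set Z : IntermediateField k Ω := M ⊔ W with hZ
  have hZQ' : Z ≤ Q' := sup_le hMQ' (sup_le hPQ' hYQ')
  have hfW : Fin' W := fin_sup h.fgP hY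
  have hfZ : Fin' Z := fin_sup h.fgM hfW
  haveI f1 : Fact (M ≤ Z) := ⟨le_sup_left⟩
  haveI f2 : Fact (W ≤ Z) := ⟨le_sup_right⟩
  haveI f3 : Fact (M ≤ Q') := ⟨hMQ'⟩
  haveI f4 : Fact (W ≤ Q') := ⟨sup_le hPQ' hYQ'⟩
  haveI f5 : Fact (Z ≤ Q') := ⟨hZQ'⟩
  obtain ⟨R, hR, hGR, hQR, hM'R, g1, g2, g3, hC⟩ := cond h hY hi hfQ' hG' hNQ' hM' hMM'
  haveI g4 : Fact (Q' ≤ R) := ⟨hQR⟩
  have hMVY : M ⊔ (V ⊔ Y) ≤ Q' := sup_le hMQ' (sup_le (h.le_P.trans hPQ') hYQ')
  have halgR : ∀ x ∈ R, IsAlgebraic Q' x :=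
    alg_iff.2 ((alg_iff.1 hGR.alg).trans (cl_mono hMVY))
  -- dimensions
  have e3 : dimension k (M ⊔ P : IntermediateField k Ω) = dimension k M + dimension k P := h.indep
  have e2 : dimension k ((M ⊔ P) ⊔ Y : IntermediateField k Ω) =
      dimension k (M ⊔ P : IntermediateField k Ω) + dimension k Y := hi
  have iPY : Indep P Y := hi.mono_left h.finN hY le_sup_right
  have e4 : dimension k W = dimension k P + dimension k Y := iPY
  have hZ' : Z = (M ⊔ P) ⊔ Y := by rw [hZ, hW, sup_assoc]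
  have iMW : Indep M W := by
    show dimension k Z = _
    rw [hZ']
    omega
  have iMBY : Indep M (B ⊔ Y) := iMW.mono h.fgM hfW le_rfl (sup_le_sup_right (hBV.trans h.le_P) Y)
  have iMY : Indep M Y := iMBY.mono h.fgM (fin_sup hB hY) le_rfl le_sup_right
  have iBY : Indep B Y := iPY.mono_left h.fgP hY (hBV.trans h.le_P)
  have hM'cl : M' ≤ cl M := alg_iff.1 hMM'.alg
  have iM'Y : Indep M' Y := iMY.up hM' hY hMM'.le hM'cl
  have iPMY : Indep P (M ⊔ Y) := by
    have e5 : dimension k (M ⊔ Y : IntermediateField k Ω) = dimension k M + dimension k Y := iMY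
    have e6 : P ⊔ (M ⊔ Y) = (M ⊔ P) ⊔ Y := by rw [← sup_assoc, sup_comm P M]
    unfold Indep
    rw [e6]
    omega
  have iVM'Y : Indep V (M' ⊔ Y) :=
    ((iPMY.mono_left h.fgP (fin_sup h.fgM hY) h.le_P).symm.up (fin_sup hM' hY) h.finV
      (sup_le_sup_right hMM'.le Y)
      (sup_le (hM'cl.trans (cl_mono le_sup_left)) (le_sup_right.trans le_cl))).symm
  have hM'dim : dimension k M' = dimension k M := dim_eq hM' hMM'.le hMM'.alg
  have hM'Y : dimension k (M' ⊔ Y : IntermediateField k Ω) = dimension k M' + dimension k Y := iM'Y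
  -- step 3: easy addition over `B·Y`
  have hc' : KGE (B ⊔ Y) Q' c := kge_pull hfQ' hQQ'
    (alg_iff.2 (sup_le le_cl ((alg_iff.1 h.alg).trans (cl_mono hEQ)))) hc
  obtain ⟨a, b', hcab, ha, hb'⟩ := kge_sub (F := B ⊔ Y) (X := W) (Y := M ⊔ (B ⊔ Y)) hfQ'
    (sup_le_sup_right (hBV.trans h.le_P) Y) le_sup_right f4.out
    (sup_le hMQ' (sup_le hBQ' hYQ')) (by
      have e5 : dimension k (M ⊔ (B ⊔ Y) : IntermediateField k Ω) =
        dimension k M + dimension k (B ⊔ Y : IntermediateField k Ω) := iMBY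
      have e6 : W ⊔ (M ⊔ (B ⊔ Y)) = (M ⊔ P) ⊔ Y := by
        refine le_antisymm (sup_le ?_ (sup_le ?_ (sup_le ?_ ?_))) (sup_le (sup_le ?_ ?_) ?_)
        · exact sup_le (le_sup_right.trans le_sup_left) le_sup_right
        · exact le_sup_left.trans le_sup_left
        · exact ((hBV.trans h.le_P).trans le_sup_right).trans le_sup_left
        · exact le_sup_right
        · exact le_sup_left.trans le_sup_right
        · exact le_sup_left.trans le_sup_left
        · exact le_sup_right.trans le_sup_left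
      rw [e6]
      omega) hc'
  -- step 4: the stable inequality for `V/B`
  have hb1 : KGE (M ⊔ (B ⊔ Y)) R b' := kge_pull hR hQR halgR hb'
  have hYR : Y ≤ R := hYQ'.trans hQR
  have hBR : B ≤ R := hBQ'.trans hQR
  have hb2 : KGE (B ⊔ (M' ⊔ Y)) R b' :=
    (kge_base hR (sup_le (hMM'.le.trans (le_sup_left.trans le_sup_right))
      (sup_le le_sup_left (le_sup_right.trans le_sup_right)))
      (sup_le hBR (sup_le hM'R hYR))
      (alg_iff.2 (sup_le ((le_sup_left.trans le_sup_right).trans le_cl)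
        (sup_le (hM'cl.trans (cl_mono le_sup_left))
          ((le_sup_right.trans le_sup_right).trans le_cl))))).1 hb1
  have hS : KodairaGE k R (b + b' + dimension k (M' ⊔ Y : IntermediateField k Ω)) := by
    refine hVB.2 (M' ⊔ Y) R (fin_sup hM' hY) (exists_model hM' hY iM'Y M'M YM) iVM'Y ?_ hR ?_
      b b' hb hb2
    · rw [hM'Y]
      exact kge_prod hM' hY iM'Y hgt hYgt
    · refine hGR.of_le (sup_le (hMM'.le.trans (le_sup_left.trans le_sup_right))
        (sup_le le_sup_left (le_sup_right.trans le_sup_right)))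
        (sup_le ((h.le_P.trans hPQ').trans hQR) (sup_le hM'R hYR))
  -- step 5: easy addition
  have hS' : KGE M R (b + b' + dimension k Y) :=
    (kge_easy hR g1.out hS).mono (by omega)
  -- step 6: the product formula
  have hplus : KodairaGE k Q' (a + (b + b' + dimension k Y)) := by
    haveI : Algebra.EssFiniteType k W := hfW
    haveI : Algebra.EssFiniteType k M := h.fgM
    haveI : Algebra.EssFiniteType k Z := hfZ
    haveI : Algebra.EssFiniteType k Q' := hfQ'
    have hEYZ : E ⊔ Y ≤ Z := by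
      rw [hZ']
      exact sup_le_sup_right h.le Y
    obtain ⟨i1, i2⟩ := (hG'.of_le hEYZ hZQ').finite hfQ'
    have hMZ : M ⊔ (V ⊔ Y) ≤ Z := sup_le_sup_left (sup_le_sup_right h.le_P Y) M
    obtain ⟨i3, i4⟩ := (hGR.of_le hMZ (hZQ'.trans hQR)).finite hR
    have hdim : dimension k W + dimension k M = dimension k Z := by
      rw [hZ']
      omega
    have hcomp : Twr.IsCompositum k W M Z := isCompositum (by rw [sup_comm])
    have hW0 : KodairaGE k W 0 :=
      kge_prod h.fgP hY iPY (kge_pull' h.fgP h.le_P h.alg_P hV) (Diag.ge_zero' hYgt)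
    obtain ⟨MM, PM', hmv⟩ := hMM W Z Q' hfW hfZ f1 f2 f3 f4 f5 hcomp hdim
      (exists_model h.fgP hY iPY PM YM) hfQ' (hG'.of_le hEYZ hZQ')
    have key := plus (k := k) (B := W) (Y := M) (Z := Z) (Q := Q') (R := R) MM PM' hcomp hdim
      (Diag.ne_bot_of_ge hM) (Diag.ne_bot_of_ge hW0) hmv (fun j w hw => hC PM' j w hw)
    obtain ⟨_, ha'⟩ := ha
    obtain ⟨_, hS''⟩ := hS'
    refine kge_of_le (le_trans ?_ key)
    refine le_trans (le_of_eq ?_) (add_le_add (le_iSup₂_of_le a ha' le_rfl)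
      (le_iSup₂_of_le (b + b' + dimension k Y) hS'' le_rfl))
    push_cast
    rfl
  -- step 7: descend
  have h7 : KodairaGE k Q (a + (b + b' + dimension k Y)) :=
    descend h hY hi hQ hG hV hM (Diag.ge_zero' hYgt) hplus
  exact kge_mono (by omega) h7

end step

end Pf72953.Tow
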