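import Mathlib
import Pool.Agent.Lib.Pf72953j.Ram
import Pool.Agent.Lib.Pf72953j.Step
import Pool.Agent.Lib.Pf72953.Unram

/-!
The condition on the ramification of the Galois hull over a smaller field: the embeddings of `Q` in `R` change the field of
constants of the fibres by an algebraic extension.
-/

set_option autoImplicit false
set_option linter.style.haveILetI false

open scoped WithZero Polynomial
open Pf72953 Pf72953.Mov

namespace Pf72953.Tow

theorem der_comp_eq {B Z L ι : Type*} [Field B] [CharZero B] [Field Z] [Algebra B Z] [Field L]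
    [Fintype ι] {x : ι → Z} (hx : IsTranscendenceBasis B x) (g : Z →+* L) (δ : Z →+ L)
    (hl : ∀ a b, δ (a * b) = g a * δ b + g b * δ a) (hB : ∀ b : B, δ (algebraMap B Z b) = 0)
    (z : Z) : δ z = ∑ a, g (pd hx a z) * δ (x a) := by
  letI : Algebra Z L := g.toAlgebra
  letI : Algebra B L := (g.comp (algebraMap B Z)).toAlgebra
  haveI : IsScalarTower B Z L := IsScalarTower.of_algebraMap_eq fun _ => rfl
  let D : Derivation B Z L := Derivation.mk'
    { toFun := δ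
      map_add' := map_add δ
      map_smul' := fun b z => by
        rw [Algebra.smul_def, hl, hB, mul_zero, add_zero, RingHom.id_apply, Algebra.smul_def]
        rfl } (fun a b => hl a b)
  have h := congrArg D.liftKaehlerDifferential (D_eq_sum hx z)
  rw [map_sum] at h
  simp only [map_smul, Derivation.liftKaehlerDifferential_comp_D] at h
  exact h

variable {k Ω : Type*} [Field k] [Field Ω] [Algebra k Ω]

section hat

variable [CharZero k] [IsAlgClosed Ω]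

omit [CharZero k] in
theorem alg_der_minpoly {U Z Zh : IntermediateField k Ω} [Fact (U ≤ Z)] [Fact (Z ≤ Zh)]
    [Fact (U ≤ Zh)] {θ : Zh} (hθ : IsAlgebraic U θ) :
    IsAlgebraic U (Polynomial.aeval θ (Polynomial.derivative (minpoly Z θ))) := by
  have hθZ : IsAlgebraic Z θ := hθ.tower_top (L := Z)
  set f : Polynomial Ω := (minpoly Z θ).map (algebraMap Z Ω) with hf
  have hm : f.Monic := (minpoly.monic hθZ.isIntegral).map _
  have hroots : ∀ y : Ω, f.eval y = 0 → IsAlgebraic U y := by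
    intro y hy
    rw [hf, Polynomial.eval_map_algebraMap] at hy
    refine ⟨minpoly U θ, minpoly.ne_zero hθ.isIntegral, ?_⟩
    obtain ⟨g, hg⟩ := minpoly.dvd_map_of_isScalarTower U Z θ
    have h1 : Polynomial.aeval y ((minpoly U θ).map (algebraMap U Z)) = 0 := by
      rw [hg, map_mul, hy, zero_mul]
    rwa [Polynomial.aeval_map_algebraMap] at h1
  have h1 : f ∈ Polynomial.lifts (algebraMap (algebraicClosure U Ω) Ω) := by
    refine (IsAlgClosed.splits _).mem_lift_of_roots_mem_range hm _ fun y hy => ?_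
    exact ⟨⟨y, mem_algebraicClosure_iff.2 (hroots y (Polynomial.mem_roots'.mp hy).2)⟩, rfl⟩
  obtain ⟨g, hg⟩ := (Polynomial.mem_lifts _).mp h1
  rw [← isAlgebraic_algebraMap_iff (A := Ω) (algebraMap Zh Ω).injective]
  have hθ' : IsAlgebraic U (θ : Ω) :=
    (isAlgebraic_algebraMap_iff (A := Ω) (algebraMap Zh Ω).injective).2 hθ
  let θ' : algebraicClosure U Ω := ⟨θ, mem_algebraicClosure_iff.2 hθ'⟩
  have h2 : algebraMap Zh Ω (Polynomial.aeval θ (Polynomial.derivative (minpoly Z θ))) =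
      algebraMap (algebraicClosure U Ω) Ω (Polynomial.aeval θ' (Polynomial.derivative g)) := by
    rw [← Polynomial.aeval_algebraMap_apply, ← Polynomial.aeval_algebraMap_apply,
      ← Polynomial.eval_map_algebraMap, ← Polynomial.eval_map_algebraMap,
      ← Polynomial.derivative_map, ← Polynomial.derivative_map, hg]
    rfl
  rw [h2]
  exact mem_algebraicClosure_iff.1 (Polynomial.aeval θ' (Polynomial.derivative g)).2

omit [CharZero k] [IsAlgClosed Ω] in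
theorem adjoin_hat {U Uh Z Zh : IntermediateField k Ω} [Fact (U ≤ Z)] [Fact (Z ≤ Zh)]
    [Fact (U ≤ Uh)] (hUhZ : Uh ≤ Zh) (hle : Zh ≤ Z ⊔ Uh) {θ : Uh}
    (hθ : IntermediateField.adjoin U {θ} = ⊤) :
    IntermediateField.adjoin Z {(⟨θ, hUhZ θ.2⟩ : Zh)} = ⊤ := by
  rw [eq_top_iff]
  intro z _
  set T : IntermediateField k Ω :=
    ((IntermediateField.adjoin Z {(⟨θ, hUhZ θ.2⟩ : Zh)}).restrictScalars k).map Zh.val with hT
  have h1 : Z ≤ T := fun x hx => by
    exact ⟨algebraMap Z Zh ⟨x, hx⟩,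
      (IntermediateField.adjoin Z {(⟨θ, hUhZ θ.2⟩ : Zh)}).algebraMap_mem _, rfl⟩
  have h2 : Uh ≤ T := by
    intro x hx
    have h3 : (⟨x, hx⟩ : Uh) ∈ IntermediateField.adjoin U {θ} := hθ ▸ IntermediateField.mem_top
    have h4 : ∀ y : Uh, y ∈ IntermediateField.adjoin U {θ} → (y : Ω) ∈ T := by
      intro y hy
      induction hy using IntermediateField.adjoin_induction with
      | mem x hx =>
        rw [Set.mem_singleton_iff] at hx
        subst hx
        exact ⟨⟨x, hUhZ x.2⟩, IntermediateField.subset_adjoin Z _ rfl, rfl⟩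
      | algebraMap r => exact h1 ((Fact.out : U ≤ Z) r.2)
      | add x y _ _ hx hy => exact add_mem hx hy
      | inv x _ hx => exact inv_mem hx
      | mul x y _ _ hx hy => exact mul_mem hx hy
    exact h4 _ h3
  obtain ⟨y, hy, hyz⟩ := (sup_le h1 h2) (hle z.2)
  have h5 : y = z := Subtype.ext hyz
  rw [← h5]
  exact hy

/-- a derivation over `U` which is regular at `w` stays regular after an algebraic extension of the constants -/
theorem der_hat {U Uh Z Zh R : IntermediateField k Ω} [Fact (U ≤ Z)] [Fact (Z ≤ Zh)]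
    [Fact (U ≤ Zh)] [Fact (Zh ≤ R)] [Fact (U ≤ R)] [Fact (Z ≤ R)] (hZh : Fin' Zh)
    (hUUh : U ≤ Uh) (hUh : ∀ x ∈ Uh, IsAlgebraic U x) (hle : Zh ≤ Z ⊔ Uh) (hUhZ : Uh ≤ Zh)
    {w : Valuation R ℤᵐ⁰} (hw : ∀ u : U, u ≠ 0 → w (algebraMap U R u) = 1) {ι : Type*}
    [Fintype ι] {x : ι → Z} [CharZero U] (hx : IsTranscendenceBasis U x)
    (hxh : IsTranscendenceBasis U (fun i => algebraMap Z Zh (x i))) (a : ι)
    (hD : ∀ z : Z, w (algebraMap Z R z) ≤ 1 → w (algebraMap Z R (pd hx a z)) ≤ 1) (z : Zh)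
    (hz : w (algebraMap Zh R z) ≤ 1) : w (algebraMap Zh R (pd hxh a z)) ≤ 1 := by
  haveI : Fact (U ≤ Uh) := ⟨hUUh⟩
  haveI : Fact (Uh ≤ Zh) := ⟨hUhZ⟩
  haveI : CharZero Z := charZero_of_injective_algebraMap (algebraMap k Z).injective
  haveI : FiniteDimensional U Uh := finite_of (fin_le hZh hUhZ) hUh
  have hZalg : ∀ x ∈ Zh, IsAlgebraic Z x := by
    rw [alg_iff]
    exact hle.trans (sup_le le_cl ((alg_iff.1 hUh).trans (cl_mono Fact.out)))
  haveI : FiniteDimensional Z Zh := finite_of hZh hZalg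
  obtain ⟨θ₀, hθ₀⟩ := Field.exists_primitive_element U Uh
  set θ : Zh := ⟨θ₀, hUhZ θ₀.2⟩ with hθ
  have hadj := adjoin_hat hUhZ hle hθ₀
  have hθU : IsAlgebraic U θ := by
    rw [← isAlgebraic_algebraMap_iff (A := Ω) (algebraMap Zh Ω).injective]
    exact hUh _ θ₀.2
  set w' : Valuation Zh ℤᵐ⁰ := w.comap (algebraMap Zh R) with hw'
  have hw1 : ∀ u : U, u ≠ 0 → w' (algebraMap U Zh u) = 1 := fun u hu => by
    rw [hw', Valuation.comap_apply, ← IsScalarTower.algebraMap_apply U Zh R]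
    exact hw u hu
  have hD' : ∀ e : Z, w' (algebraMap Z Zh e) ≤ 1 → w' (pd hxh a (algebraMap Z Zh e)) ≤ 1 := by
    intro e he
    have h1 : pd hxh a (algebraMap Z Zh e) = algebraMap Z Zh (pd hx a e) :=
      pd_algebraMap hx hxh id Function.injective_id (fun _ => rfl) a e
    rw [h1]
    rw [hw', Valuation.comap_apply, ← IsScalarTower.algebraMap_apply Z Zh R] at he ⊢
    exact hD e he
  have hint : IsIntegral (w'.comap (algebraMap Z Zh)).valuationSubring θ := by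
    let g : U →+* (w'.comap (algebraMap Z Zh)).valuationSubring :=
      (algebraMap U Z).codRestrict _ (fun u => by
        show w' (algebraMap Z Zh (algebraMap U Z u)) ≤ 1
        rw [← IsScalarTower.algebraMap_apply U Z Zh]
        by_cases h0 : u = 0
        · rw [h0, map_zero, map_zero]; exact zero_le_one
        · exact (hw1 u h0).le)
    letI : Algebra U (w'.comap (algebraMap Z Zh)).valuationSubring := g.toAlgebra
    haveI : IsScalarTower U (w'.comap (algebraMap Z Zh)).valuationSubring Zh :=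
      IsScalarTower.of_algebraMap_eq fun _ => rfl
    exact hθU.isIntegral.tower_top
  have hne : Polynomial.aeval θ (Polynomial.derivative (minpoly Z θ)) ≠ 0 := by
    have h1 : (minpoly Z θ).Separable :=
      (minpoly.irreducible (hθU.tower_top (L := Z)).isIntegral).separable
    exact h1.aeval_derivative_ne_zero (minpoly.aeval Z θ)
  have hder : w' (Polynomial.aeval θ (Polynomial.derivative (minpoly Z θ))) = 1 :=
    val_eq_one_of_isIntegral (B := U) hw1 hne (alg_der_minpoly hθU).isIntegral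
  exact der_le_one_of_etale w' (pd hxh a) hD' θ hadj hint hder hz

end hat

section main

variable [CharZero k] [IsAlgClosed k] [IsAlgClosed Ω]

omit [IsAlgClosed k] in
/-- `w ∘ φ` lies over a prime divisor if `w` does -/
theorem primeAt_comap2 {U W Z Q R : IntermediateField k Ω} [Fact (U ≤ Z)] [Fact (W ≤ Z)]
    [Fact (W ≤ Q)] [Fact (Z ≤ Q)] [Fact (U ≤ R)] [Fact (W ≤ R)] [Fact (Z ≤ R)]
    (hR : Fin' R) (hZ : Z ≤ U ⊔ W) (hUW : Indep U W) (ψ : Ω ≃ₐ[k] Ω) (hψQ : ∀ x ∈ Q, ψ x ∈ R)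
    (hψU : ∀ x ∈ U, IsAlgebraic U (ψ x)) (hψW : Fixes ψ W) {WM : SmoothModel k W} {j : WM.I}
    {w : Valuation R ℤᵐ⁰} (htriv : ∀ u : U, u ≠ 0 → w (algebraMap U R u) = 1)
    (hw : Br.PrimeAt WM U Z j w) :
    Br.PrimeAt WM U Z j (w.comap (resHom ψ hψQ : Q →+* R)) := by
  set φ : Q →+* R := (resHom ψ hψQ : Q →+* R) with hφ
  have hφc : ∀ y : Q, ((φ y : R) : Ω) = ψ y := fun _ => rfl
  constructor
  · intro f hf
    have h1 : φ (algebraMap W Q f) = algebraMap W R f := Subtype.ext (hψW f f.2)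
    rw [Valuation.comap_apply, h1]
    exact hw.center f hf
  intro d hd z hz
  have hUR : U ≤ R := Fact.out
  have hZR : Z ≤ R := Fact.out
  have hUZ : U ≤ Z := Fact.out
  have hWZ : W ≤ Z := Fact.out
  have hZQ : Z ≤ Q := Fact.out
  haveI : CharZero U := charZero_of_injective_algebraMap (algebraMap k U).injective
  haveI : CharZero Z := charZero_of_injective_algebraMap (algebraMap k Z).injective
  set Uh : IntermediateField k Ω := cl U ⊓ R with hUh
  set Zh : IntermediateField k Ω := Z ⊔ Uh with hZh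
  have hUhR : Uh ≤ R := inf_le_right
  have hUUh : U ≤ Uh := le_inf le_cl hUR
  have hZhR : Zh ≤ R := sup_le hZR hUhR
  haveI fUZh : Fact (U ≤ Zh) := ⟨hUZ.trans le_sup_left⟩
  haveI fZZh : Fact (Z ≤ Zh) := ⟨le_sup_left⟩
  haveI fZhR : Fact (Zh ≤ R) := ⟨hZhR⟩
  have hZhfin : Fin' Zh := fin_le hR hZhR
  have hUhalg : ∀ x ∈ Uh, IsAlgebraic U x := fun x hx => mem_cl.1 hx.1
  haveI : Algebra.EssFiniteType k U := fin_le hR hUR
  haveI : Algebra.EssFiniteType k W := fin_le hR (hWZ.trans hZR)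
  haveI : Algebra.EssFiniteType k Z := fin_le hR hZR
  haveI : Algebra.EssFiniteType k Zh := hZhfin
  -- transcendence bases
  have hsup : Z = U ⊔ W := le_antisymm hZ (sup_le hUZ hWZ)
  have hcomp : Twr.IsCompositum k U W Z := isCompositum hZ
  have hdim : dimension k U + dimension k W = dimension k Z := by
    rw [hsup]; exact Eq.symm hUW
  have halgZ : ∀ a : Z, IsAlgebraic (Algebra.adjoin k
      (Set.range (algebraMap U Z) ∪ Set.range (algebraMap W Z))) a := by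
    intro a
    rw [← IntermediateField.isAlgebraic_adjoin_iff]
    exact isAlgebraic_algebraMap (⟨a, hcomp a⟩ : IntermediateField.adjoin k
      (Set.range (algebraMap U Z) ∪ Set.range (algebraMap W Z)))
  have hx : IsTranscendenceBasis U (fun a => algebraMap W Z (WM.x j a)) :=
    Up.tb_over hdim halgZ (WM.tb j)
  have hZhalg : ∀ x ∈ Zh, IsAlgebraic Z x := by
    rw [alg_iff]
    exact sup_le le_cl ((alg_iff.1 hUhalg).trans (cl_mono hUZ))
  haveI : Algebra.IsAlgebraic Z Zh := isAlg_iff.2 hZhalg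
  haveI : FaithfulSMul Z Zh :=
    (faithfulSMul_iff_algebraMap_injective Z Zh).2 (algebraMap Z Zh).injective
  have hxh : IsTranscendenceBasis U (fun a => algebraMap Z Zh (algebraMap W Z (WM.x j a))) :=
    hx.algebraMap_comp
  -- the derivations of `Zh` are regular at `w`
  have hreg : ∀ (a : Fin (dimension k W)) (z : Zh), w (algebraMap Zh R z) ≤ 1 →
      w (algebraMap Zh R (pd hxh a z)) ≤ 1 := by
    intro a z hz
    refine der_hat hZhfin hUUh hUhalg le_rfl le_sup_right htriv hx hxh a (fun e he => ?_) z hz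
    refine hw.der (pd hx a) (fun b => ?_) e he
    have h1 := pd_self hx a b
    rw [h1]
    split_ifs
    · rw [map_one, map_one]
    · rw [map_zero, map_zero]; exact zero_le_one
  -- the restriction of `ψ` to `Z`
  have hψUh : ∀ x ∈ U, ψ x ∈ Uh := fun x hx =>
    ⟨mem_cl.2 (hψU x hx), hψQ x (hZQ (hUZ hx))⟩
  have hψZ : ∀ x ∈ Z, ψ x ∈ Zh := by
    intro x hx
    have h1 : (U ⊔ W).map (ψ : Ω →ₐ[k] Ω) ≤ Zh := by
      rw [IntermediateField.map_sup]
      refine sup_le ?_ ?_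
      · rintro _ ⟨y, hy, rfl⟩
        exact (le_sup_right : Uh ≤ Zh) (hψUh y hy)
      · rintro _ ⟨y, hy, rfl⟩
        show ψ y ∈ Zh
        rw [hψW y hy]
        exact (le_sup_left : Z ≤ Zh) (hWZ hy)
    exact h1 ⟨x, hZ hx, rfl⟩
  set g : Z →+* Zh := (resHom ψ hψZ : Z →+* Zh) with hg
  have hgφ : ∀ y : Z, φ (algebraMap Z Q y) = algebraMap Zh R (g y) := fun y => Subtype.ext rfl
  have hgx : ∀ a, g (algebraMap W Z (WM.x j a)) = algebraMap Z Zh (algebraMap W Z (WM.x j a)) :=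
    fun a => Subtype.ext (hψW _ (WM.x j a).2)
  have hgU : ∀ (a : Fin (dimension k W)) (u : U), pd hxh a (g (algebraMap U Z u)) = 0 := by
    intro a u
    refine der_eq_zero_of_isAlgebraic (pd hxh a) ?_
    rw [← isAlgebraic_algebraMap_iff (A := Ω) (algebraMap Zh Ω).injective]
    exact hψU u u.2
  have hpd : ∀ (a : Fin (dimension k W)) (y : Z), pd hxh a (g y) = g (pd hx a y) := by
    intro a y
    have h1 := der_comp_eq hx g ((pd hxh a : Zh →+ Zh).comp (g : Z →+ Zh)) (fun b c => by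
      show pd hxh a (g (b * c)) = g b * pd hxh a (g c) + g c * pd hxh a (g b)
      rw [map_mul, Derivation.leibniz, smul_eq_mul, smul_eq_mul]) (fun b => hgU a b) y
    have h2 : ∀ b, ((pd hxh a : Zh →+ Zh).comp (g : Z →+ Zh)) (algebraMap W Z (WM.x j b)) =
        if a = b then 1 else 0 := by
      intro b
      show pd hxh a (g (algebraMap W Z (WM.x j b))) = _
      rw [hgx]
      exact pd_self hxh a b
    have h3 : pd hxh a (g y) = ((pd hxh a : Zh →+ Zh).comp (g : Z →+ Zh)) y := rfl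
    rw [h3, h1, Finset.sum_eq_single a]
    · rw [h2, if_pos rfl, mul_one]
    · intro b _ hb
      rw [h2, if_neg (Ne.symm hb), mul_zero]
    · intro h
      exact absurd (Finset.mem_univ a) h
  rw [Valuation.comap_apply, hgφ] at hz ⊢
  rw [der_eq_sum hx d z, map_sum, map_sum]
  refine Valuation.map_sum_le _ fun a _ => ?_
  rw [map_mul, map_mul, map_mul, ← hpd]
  refine mul_le_one' (hreg a (g z) hz) ?_
  have h1 := hd a
  rw [Valuation.comap_apply, hgφ] at h1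
  exact h1

theorem bad_comap2 {F U W Z Q R : IntermediateField k Ω} [Fact (U ≤ Z)] [Fact (W ≤ Z)]
    [Fact (U ≤ Q)] [Fact (W ≤ Q)] [Fact (Z ≤ Q)] [Fact (U ≤ R)] [Fact (W ≤ R)] [Fact (Z ≤ R)]
    [Fact (F ≤ R)] (hR : Fin' R) (hQ : Fin' Q) (hZ : Z ≤ U ⊔ W) (hUW : Indep U W)
    (hZQ : Gal Z Q) (hF : ∀ x ∈ R, IsAlgebraic F x)
    (ψ : Ω ≃ₐ[k] Ω) (hψQ : ∀ x ∈ Q, ψ x ∈ R) (hψF : ∀ x ∈ F, ψ.symm x ∈ Q)
    (hψU : ∀ x ∈ U, IsAlgebraic U (ψ x)) (hψW : Fixes ψ W)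
    {WM : SmoothModel k W} {j : WM.I} {w : Valuation R ℤᵐ⁰} (hbad : Br.Bad k WM U Z j w)
    {σ : Ω ≃ₐ[k] Ω} (hσZ : Fixes σ Z) (hσR : Stab σ R)
    (hσ : ∀ z : R, w z ≤ 1 → w (⟨σ z, hσR z z.2⟩ - z) < 1)
    (hσU : ∀ x ∈ R, IsAlgebraic U x → σ x = x)
    {x : Ω} (hx : x ∈ Q) (hne : σ (ψ x) ≠ ψ x) :
    Br.Bad k WM U Z j (w.comap (resHom ψ hψQ : Q →+* R)) := by
  have hUQ : U ≤ Q := Fact.out
  have hWZ : W ≤ Z := Fact.out
  have hUZ : U ≤ Z := Fact.out
  set φ : Q →+* R := (resHom ψ hψQ : Q →+* R) with hφ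
  have hφc : ∀ y : Q, ((φ y : R) : Ω) = ψ y := fun _ => rfl
  have htriv : ∀ b : U, b ≠ 0 → w (φ (algebraMap U Q b)) = 1 := by
    intro b hb
    have h1 : IsAlgebraic U (φ (algebraMap U Q b)) := by
      rw [← isAlgebraic_algebraMap_iff (A := Ω) (algebraMap R Ω).injective]
      exact hψU b b.2
    refine val_eq_one_of_isIntegral (B := U) hbad.triv ?_ (isAlgebraic_iff_isIntegral.1 h1)
    rw [map_ne_zero, map_ne_zero]
    exact hb
  have hdiv : IsDivisorial k Q (w.comap φ) := by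
    letI : Algebra Q R := φ.toAlgebra
    haveI : IsScalarTower k Q R := IsScalarTower.of_algebraMap_eq fun c =>
      ((resHom ψ hψQ).commutes c).symm
    have hnt : ∃ a : Q, a ≠ 0 ∧ w (algebraMap Q R a) ≠ 1 := by
      by_contra hcon
      push Not at hcon
      obtain ⟨r, hr0, hr⟩ := hbad.div.nontrivial
      apply hr
      let g : F →+* Q :=
        { toFun := fun y => ⟨ψ.symm y, hψF y y.2⟩
          map_one' := Subtype.ext (map_one ψ.symm)
          map_mul' := fun a b => Subtype.ext (map_mul ψ.symm (a : Ω) b)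
          map_zero' := Subtype.ext (map_zero ψ.symm)
          map_add' := fun a b => Subtype.ext (map_add ψ.symm (a : Ω) b) }
      letI : Algebra F Q := g.toAlgebra
      haveI : IsScalarTower F Q R := IsScalarTower.of_algebraMap_eq fun y => by
        apply Subtype.ext
        exact (ψ.apply_symm_apply (y : Ω)).symm
      have h1 : IsAlgebraic F (r : Ω) := hF r r.2
      have h2 : IsAlgebraic F r := by
        rw [← isAlgebraic_algebraMap_iff (A := Ω) (algebraMap R Ω).injective]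
        exact h1
      have h3 : IsAlgebraic Q r := h2.tower_top (L := Q)
      exact val_eq_one_of_isIntegral (B := Q) hcon hr0 (isAlgebraic_iff_isIntegral.1 h3)
    exact hbad.div.restrict hnt
  refine ⟨hdiv, fun b hb => htriv b hb, ?_, fun hU => ?_⟩
  · exact primeAt_comap2 hR hZ hUW ψ hψQ hψU hψW hbad.triv hbad.prime
  · -- the inertia group of `Q/Z` at `w ∘ φ` is not trivial
    haveI := (hZQ.finite hQ).1
    set s' : Ω ≃ₐ[k] Ω := (ψ.trans σ).trans ψ.symm with hs'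
    have hs'U : Fixes s' U := fun z hz => by
      show ψ.symm (σ (ψ z)) = z
      rw [hσU _ (hψQ z (hUQ hz)) (hψU z hz), AlgEquiv.symm_apply_apply]
    have hs'W : Fixes s' W := fun z hz => by
      show ψ.symm (σ (ψ z)) = z
      rw [hψW z hz, hσZ z (hWZ hz), AlgEquiv.symm_apply_eq, hψW z hz]
    have hs'Z : Fixes s' Z := (hs'U.sup79 hs'W).mono hZ
    have h1 := inertia_of_unr (k := k) (Z := Z) (Q := Q) (w := w.comap φ) hdiv.const hU
      (resAlg s' (hZQ.stab s' hs'Z) (hZQ.stab s'.symm hs'Z.symm79) hs'Z) (fun z hz => ?_)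
    · have h2 := congrArg (fun e : Q ≃ₐ[Z] Q => ((e ⟨x, hx⟩ : Q) : Ω)) h1
      have h3 : ψ.symm (σ (ψ x)) = x := h2
      rw [AlgEquiv.symm_apply_eq] at h3
      exact hne h3
    · rw [Valuation.comap_apply] at hz ⊢
      have h2 := hσ (φ z) hz
      have h3 : φ (resAlg s' (hZQ.stab s' hs'Z) (hZQ.stab s'.symm hs'Z.symm79) hs'Z z - z) =
          ⟨σ (φ z), hσR (φ z) (φ z).2⟩ - φ z := by
        rw [map_sub]
        congr 1
        apply Subtype.ext
        exact ψ.apply_symm_apply _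
      rw [h3]
      exact h2

omit [CharZero k] [IsAlgClosed k] [IsAlgClosed Ω] in
/-- an element of the inertia group is the identity on the constants -/
theorem fixes_of_inertia {U R : IntermediateField k Ω} [Fact (U ≤ R)] {w : Valuation R ℤᵐ⁰}
    (htriv : ∀ u : U, u ≠ 0 → w (algebraMap U R u) = 1) {σ : Ω ≃ₐ[k] Ω} (hσU : Fixes σ U)
    (hσR : Stab σ R) (hσ : ∀ z : R, w z ≤ 1 → w (⟨σ z, hσR z z.2⟩ - z) < 1) {x : Ω}
    (hx : x ∈ R) (hxU : IsAlgebraic U x) : σ x = x := by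
  by_contra hcon
  have hval : ∀ y : R, y ≠ 0 → IsAlgebraic U (y : Ω) → w y = 1 := by
    intro y hy hyU
    have h2 : IsAlgebraic U y := by
      rw [← isAlgebraic_algebraMap_iff (A := Ω) (algebraMap R Ω).injective]
      exact hyU
    exact val_eq_one_of_isIntegral (B := U) htriv hy (isAlgebraic_iff_isIntegral.1 h2)
  have hσx : IsAlgebraic U (σ x) := hσU.isAlgebraic hxU
  have h1 : (⟨σ x, hσR x hx⟩ - ⟨x, hx⟩ : R) ≠ 0 := fun h0 =>
    hcon (sub_eq_zero.1 (congrArg Subtype.val h0))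
  have h2 : w (⟨σ x, hσR x hx⟩ - ⟨x, hx⟩ : R) = 1 := hval _ h1 (hσx.sub hxU)
  have h3 : w (⟨x, hx⟩ : R) ≤ 1 := by
    by_cases h0 : (⟨x, hx⟩ : R) = 0
    · rw [h0, map_zero]; exact zero_le_one
    · exact (hval _ h0 hxU).le
  have h4 := hσ ⟨x, hx⟩ h3
  rw [h2] at h4
  exact lt_irrefl _ h4

/-- the Galois hull `R` of `Q` over `X·V·Y`, `X = k(x)`, `x` a transcendence basis of `M`: base `M` -/
theorem cond1 {V E M P Y Q X C : IntermediateField k Ω} (h : Step V E M P) (hY : Fin' Y)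
    (hi : Indep (M ⊔ P) Y) (hQ : Fin' Q) (hG : Gal (E ⊔ Y) Q) (hN : M ⊔ P ≤ Q) (hC : Fin' C)
    (hXM : X ≤ M) (hMX : ∀ x ∈ M, IsAlgebraic X x) (hXC : Gal X C)
    [Fact (M ≤ M ⊔ (P ⊔ Y))] [Fact (P ⊔ Y ≤ M ⊔ (P ⊔ Y))] [Fact (M ≤ Q)]
    [Fact (P ⊔ Y ≤ Q)] [Fact (M ⊔ (P ⊔ Y) ≤ Q)] :
    ∃ R : IntermediateField k Ω, Fin' R ∧ Gal (X ⊔ (V ⊔ Y)) R ∧ Q ≤ R ∧ C ≤ R ∧
      ∃ (_ : Fact (M ≤ R)) (_ : Fact (P ⊔ Y ≤ R)) (_ : Fact (M ⊔ (P ⊔ Y) ≤ R)),
        ∀ (W : SmoothModel k (P ⊔ Y : IntermediateField k Ω)) (j : W.I) (w : Valuation R ℤᵐ⁰),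
          Br.Bad k W M (M ⊔ (P ⊔ Y) : IntermediateField k Ω) j w → ∃ φ : Q →ₐ[k] R,
          (∀ b : (P ⊔ Y : IntermediateField k Ω),
            φ (algebraMap (P ⊔ Y : IntermediateField k Ω) Q b) =
              algebraMap (P ⊔ Y : IntermediateField k Ω) R b) ∧
          (∀ y : M, IsAlgebraic M (φ (algebraMap M Q y))) ∧
          Br.Bad k W M (M ⊔ (P ⊔ Y) : IntermediateField k Ω) j (w.comap (φ : Q →+* R)) := by
  set F : IntermediateField k Ω := X ⊔ (V ⊔ Y) with hFdef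
  set Z : IntermediateField k Ω := M ⊔ (P ⊔ Y) with hZdef
  have hVP : V ≤ P := by rw [h.eq]; exact inf_le_right
  have hPQ : P ≤ Q := le_sup_right.trans hN
  have hMQ : M ≤ Q := le_sup_left.trans hN
  have hYQ : Y ≤ Q := le_sup_right.trans hG.le
  have hXF : X ≤ F := le_sup_left
  have hVF : V ≤ F := le_sup_left.trans le_sup_right
  have hYF : Y ≤ F := le_sup_right.trans le_sup_right
  have hFQ : F ≤ Q := sup_le (hXM.trans hMQ) (sup_le (hVP.trans hPQ) hYQ)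
  have hMZ : M ≤ Z := le_sup_left
  have hPZ : P ≤ Z := le_sup_left.trans le_sup_right
  have hYZ : Y ≤ Z := le_sup_right.trans le_sup_right
  have hFZ : F ≤ Z := sup_le (hXM.trans hMZ) (sup_le (hVP.trans hPZ) hYZ)
  have hZQ' : Z ≤ Q := sup_le hMQ (sup_le hPQ hYQ)
  have hEZ : E ⊔ Y ≤ Z := sup_le (h.le.trans (sup_le hMZ hPZ)) hYZ
  have hZQ : Gal Z Q := hG.mono79 hEZ hZQ'
  have hZF : ∀ x ∈ Z, IsAlgebraic F x := alg_iff.2 (sup_le ((alg_iff.1 hMX).trans (cl_mono hXF))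
    (sup_le ((alg_iff.1 h.gal.alg).trans (cl_mono hVF)) (hYF.trans le_cl)))
  have halg : ∀ x ∈ Q, IsAlgebraic F x := fun x hx => alg_trans79 hFZ hZF (hZQ.alg x hx)
  have hFfin : Fin' F := fin_le hQ hFQ
  obtain ⟨R₁, hR₁, hGR₁, hQR₁, hmin⟩ := exists_hull hFfin hQ hFQ halg
  have hGC : Gal F (C ⊔ F) := hXC.base F hXF
  set R : IntermediateField k Ω := R₁ ⊔ (C ⊔ F) with hRdef
  have hGR : Gal F R := hGR₁.sup hGC
  have hR : Fin' R := fin_sup hR₁ (fin_sup hC hFfin)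
  have hQR : Q ≤ R := hQR₁.trans le_sup_left
  have hR₁R : R₁ ≤ R := le_sup_left
  have hCR : C ≤ R := (le_sup_left.trans le_sup_right : C ≤ R₁ ⊔ (C ⊔ F))
  have hZR' : Z ≤ R := hZQ'.trans hQR
  haveI fMR : Fact (M ≤ R) := ⟨hMQ.trans hQR⟩
  haveI fWR : Fact (P ⊔ Y ≤ R) := ⟨(sup_le hPQ hYQ).trans hQR⟩
  haveI fZR : Fact (Z ≤ R) := ⟨hZR'⟩
  haveI fFR : Fact (F ≤ R) := ⟨hFZ.trans hZR'⟩
  have hZR : Gal Z R := hGR.mono79 hFZ hZR'
  refine ⟨R, hR, hGR, hQR, hCR, fMR, fWR, fZR, ?_⟩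
  intro W j w hbad
  haveI := (hZR.finite hR).1
  haveI := (hZR.finite hR).2
  obtain ⟨σ₀, hσ₀, hne⟩ : ∃ σ : R ≃ₐ[Z] R, (∀ z, w z ≤ 1 → w (σ z - z) < 1) ∧ σ ≠ 1 := by
    by_contra hcon
    push Not at hcon
    exact hbad.ram (Br.unr_of_inertia hcon)
  obtain ⟨σ, hσZ, hσ⟩ := hZR.exists_ext hR σ₀
  have hσR : Stab σ R := hZR.stab σ hσZ
  have hσ' : ∀ z : R, w z ≤ 1 → w (⟨σ z, hσR z z.2⟩ - z) < 1 := fun z hz => by
    have h1 : (⟨σ z, hσR z z.2⟩ : R) = σ₀ z := Subtype.ext (hσ z)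
    rw [h1]
    exact hσ₀ z hz
  -- `σ` is the identity on the elements algebraic over `M`
  have hσM : ∀ x ∈ R, IsAlgebraic M x → σ x = x := fun x hx hxM =>
    fixes_of_inertia hbad.triv (hσZ.mono hMZ) hσR hσ' hx hxM
  have hσC : Fixes σ C := fun x hx => hσM x (hCR hx) (alg_mono hXM (hXC.alg x hx))
  -- `σ` is not the identity on some conjugate of `Q`
  obtain ⟨τ, hτ, x, hx, hxne⟩ : ∃ τ : Ω ≃ₐ[k] Ω, Fixes τ F ∧ ∃ x ∈ Q, σ (τ x) ≠ τ x := by
    by_contra hcon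
    push Not at hcon
    apply hne
    have h1 : R₁ ≤ fixF79 σ := hmin (fixF79 σ) fun τ hτ x hx => hcon τ hτ x hx
    have h2 : R ≤ fixF79 σ := sup_le h1 (sup_le (fixes_iff79.1 hσC) (hσZ.mono hFZ))
    ext z
    rw [← hσ z]
    exact h2 z.2
  obtain ⟨γ, hγ, hγP⟩ := h.exists_lift hY hi τ.symm (hτ.symm79.mono hVF)
  have hγE : Fixes γ E := hγ.mono le_sup_left
  have hγY : Fixes γ Y := hγ.mono le_sup_right
  set ψ : Ω ≃ₐ[k] Ω := γ.trans τ with hψ
  have hψa : ∀ y, ψ y = τ (γ y) := fun _ => rfl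
  have hψs : ∀ y, ψ.symm y = γ.symm (τ.symm y) := fun _ => rfl
  have hψQ : ∀ y ∈ Q, ψ y ∈ R := fun y hy =>
    hR₁R (hGR₁.stab τ hτ _ (hQR₁ (hG.stab γ hγ y hy)))
  have hψF : ∀ y ∈ F, ψ.symm y ∈ Q := fun y hy => by
    rw [hψs, hτ.symm79 y hy]
    exact hG.stab γ.symm hγ.symm79 y (hFQ hy)
  have hψM : ∀ y ∈ M, IsAlgebraic M (ψ y) := fun y hy => by
    have h1 : γ y ∈ M := h.stabM γ hγE y hy
    rw [hψa]
    exact alg_mono hXM ((hτ.mono hXF).isAlgebraic (hMX _ h1))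
  have hψP : Fixes ψ P := fun y hy => by
    rw [hψa, hγP y hy, AlgEquiv.apply_symm_apply]
  have hψY : Fixes ψ Y := fun y hy => by
    rw [hψa, hγY y hy, hτ y (hYF hy)]
  have hψW : Fixes ψ (P ⊔ Y) := hψP.sup79 hψY
  have hIMW : Indep M (P ⊔ Y) := by
    have h1 := hi
    have h2 := h.indep
    have h3 : Indep P Y := hi.mono_left (fin_sup h.fgM h.fgP) hY le_sup_right
    unfold Indep at h1 h2 h3 ⊢
    rw [sup_assoc] at h1
    omega
  refine ⟨resHom ψ hψQ, fun b => Subtype.ext (hψW b b.2), fun y => ?_, ?_⟩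
  · rw [← isAlgebraic_algebraMap_iff (A := Ω) (algebraMap R Ω).injective]
    exact hψM y y.2
  refine bad_comap2 (F := F) hR hQ le_rfl hIMW hZQ hGR.alg ψ hψQ hψF hψM hψW hbad hσZ hσR hσ' hσM
    (x := γ.symm x) (hG.stab γ.symm hγ.symm79 x hx) ?_
  have h1 : ψ (γ.symm x) = τ x := by rw [hψa, AlgEquiv.apply_symm_apply]
  rw [h1]
  exact hxne

/-- the Galois hull `R` of `Q` over `M·X·Y`, `X = k(x)`, `x` a transcendence basis of `P`: base `P·Y`.
Only `Q/M·P·Y` Galois is needed. -/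
theorem cond2 {M P Y Q X C : IntermediateField k Ω} (hM : Fin' M) (hP : Fin' P) (hY : Fin' Y)
    (hMP : Indep M P) (hi : Indep (M ⊔ P) Y) (hQ : Fin' Q) (hG : Gal (M ⊔ (P ⊔ Y)) Q)
    (hC : Fin' C) (hXP : X ≤ P) (hPX : ∀ x ∈ P, IsAlgebraic X x) (hXC : Gal X C)
    [Fact (M ≤ M ⊔ (P ⊔ Y))] [Fact (P ⊔ Y ≤ M ⊔ (P ⊔ Y))] [Fact (M ≤ Q)]
    [Fact (P ⊔ Y ≤ Q)] [Fact (M ⊔ (P ⊔ Y) ≤ Q)] :
    ∃ R : IntermediateField k Ω, Fin' R ∧ Gal (M ⊔ (X ⊔ Y)) R ∧ Q ≤ R ∧ C ≤ R ∧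
      ∃ (_ : Fact (M ≤ R)) (_ : Fact (P ⊔ Y ≤ R)) (_ : Fact (M ⊔ (P ⊔ Y) ≤ R)),
        ∀ (MM : SmoothModel k M) (i : MM.I) (w : Valuation R ℤᵐ⁰),
          Br.Bad k MM (P ⊔ Y : IntermediateField k Ω) (M ⊔ (P ⊔ Y) : IntermediateField k Ω) i w →
          ∃ φ : Q →ₐ[k] R,
          (∀ y : M, φ (algebraMap M Q y) = algebraMap M R y) ∧
          (∀ b : (P ⊔ Y : IntermediateField k Ω), IsAlgebraic (P ⊔ Y : IntermediateField k Ω)
            (φ (algebraMap (P ⊔ Y : IntermediateField k Ω) Q b))) ∧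
          Br.Bad k MM (P ⊔ Y : IntermediateField k Ω) (M ⊔ (P ⊔ Y) : IntermediateField k Ω) i
            (w.comap (φ : Q →+* R)) := by
  set F : IntermediateField k Ω := M ⊔ (X ⊔ Y) with hFdef
  set U : IntermediateField k Ω := P ⊔ Y with hUdef
  set Z : IntermediateField k Ω := M ⊔ U with hZdef
  have hMZ : M ≤ Z := le_sup_left
  have hUZ : U ≤ Z := le_sup_right
  have hXU : X ≤ U := hXP.trans le_sup_left
  have hYU : Y ≤ U := le_sup_right
  have hMF : M ≤ F := le_sup_left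
  have hXF : X ≤ F := le_sup_left.trans le_sup_right
  have hYF : Y ≤ F := le_sup_right.trans le_sup_right
  have hZQ' : Z ≤ Q := hG.le
  have hFZ : F ≤ Z := sup_le hMZ (sup_le (hXU.trans hUZ) (hYU.trans hUZ))
  have hFQ : F ≤ Q := hFZ.trans hZQ'
  have hUalg : U ≤ cl (X ⊔ Y) := sup_le ((alg_iff.1 hPX).trans (cl_mono le_sup_left))
    (le_sup_right.trans le_cl)
  have hZF : ∀ x ∈ Z, IsAlgebraic F x := alg_iff.2 (sup_le (hMF.trans le_cl)
    (hUalg.trans (cl_mono le_sup_right)))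
  have halg : ∀ x ∈ Q, IsAlgebraic F x := fun x hx => alg_trans79 hFZ hZF (hG.alg x hx)
  have hFfin : Fin' F := fin_le hQ hFQ
  obtain ⟨R₁, hR₁, hGR₁, hQR₁, hmin⟩ := exists_hull hFfin hQ hFQ halg
  have hGC : Gal F (C ⊔ F) := hXC.base F hXF
  set R : IntermediateField k Ω := R₁ ⊔ (C ⊔ F) with hRdef
  have hGR : Gal F R := hGR₁.sup hGC
  have hR : Fin' R := fin_sup hR₁ (fin_sup hC hFfin)
  have hQR : Q ≤ R := hQR₁.trans le_sup_left
  have hR₁R : R₁ ≤ R := le_sup_left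
  have hCR : C ≤ R := (le_sup_left.trans le_sup_right : C ≤ R₁ ⊔ (C ⊔ F))
  have hZR' : Z ≤ R := hZQ'.trans hQR
  haveI fMR : Fact (M ≤ R) := ⟨hMZ.trans hZR'⟩
  haveI fWR : Fact (U ≤ R) := ⟨hUZ.trans hZR'⟩
  haveI fZR : Fact (Z ≤ R) := ⟨hZR'⟩
  haveI fFR : Fact (F ≤ R) := ⟨hFZ.trans hZR'⟩
  have hZR : Gal Z R := hGR.mono79 hFZ hZR'
  refine ⟨R, hR, hGR, hQR, hCR, fMR, fWR, fZR, ?_⟩
  intro MM i w hbad
  haveI := (hZR.finite hR).1
  haveI := (hZR.finite hR).2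
  obtain ⟨σ₀, hσ₀, hne⟩ : ∃ σ : R ≃ₐ[Z] R, (∀ z, w z ≤ 1 → w (σ z - z) < 1) ∧ σ ≠ 1 := by
    by_contra hcon
    push Not at hcon
    exact hbad.ram (Br.unr_of_inertia hcon)
  obtain ⟨σ, hσZ, hσ⟩ := hZR.exists_ext hR σ₀
  have hσR : Stab σ R := hZR.stab σ hσZ
  have hσ' : ∀ z : R, w z ≤ 1 → w (⟨σ z, hσR z z.2⟩ - z) < 1 := fun z hz => by
    have h1 : (⟨σ z, hσR z z.2⟩ : R) = σ₀ z := Subtype.ext (hσ z)
    rw [h1]
    exact hσ₀ z hz
  have hσU : ∀ x ∈ R, IsAlgebraic U x → σ x = x := fun x hx hxU =>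
    fixes_of_inertia hbad.triv (hσZ.mono hUZ) hσR hσ' hx hxU
  have hσC : Fixes σ C := fun x hx => hσU x (hCR hx) (alg_mono hXU (hXC.alg x hx))
  obtain ⟨τ, hτ, x, hx, hxne⟩ : ∃ τ : Ω ≃ₐ[k] Ω, Fixes τ F ∧ ∃ x ∈ Q, σ (τ x) ≠ τ x := by
    by_contra hcon
    push Not at hcon
    apply hne
    have h1 : R₁ ≤ fixF79 σ := hmin (fixF79 σ) fun τ hτ x hx => hcon τ hτ x hx
    have h2 : R ≤ fixF79 σ := sup_le h1 (sup_le (fixes_iff79.1 hσC) (hσZ.mono hFZ))
    ext z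
    rw [← hσ z]
    exact h2 z.2
  have hτQ : ∀ y ∈ Q, τ y ∈ R := fun y hy => hR₁R (hGR₁.stab τ hτ _ (hQR₁ hy))
  have hτF : ∀ y ∈ F, τ.symm y ∈ Q := fun y hy => by
    rw [hτ.symm79 y hy]
    exact hFQ hy
  have hτU : ∀ y ∈ U, IsAlgebraic U (τ y) := fun y hy =>
    alg_mono (sup_le hXU hYU : X ⊔ Y ≤ U)
      ((hτ.mono (sup_le hXF hYF)).isAlgebraic (mem_cl.1 (hUalg hy)))
  have hτM : Fixes τ M := hτ.mono hMF
  have hIMW : Indep U M := by
    have h1 := hi
    have h2 := hMP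
    have h3 : Indep P Y := hi.mono_left (fin_sup hM hP) hY le_sup_right
    rw [hUdef]
    unfold Indep at h1 h2 h3 ⊢
    rw [sup_assoc, ← sup_comm] at h1
    omega
  refine ⟨resHom τ hτQ, fun y => Subtype.ext (hτM y y.2), fun b => ?_, ?_⟩
  · rw [← isAlgebraic_algebraMap_iff (A := Ω) (algebraMap R Ω).injective]
    exact hτU b b.2
  exact bad_comap2 (F := F) hR hQ (by rw [hZdef, sup_comm]) hIMW hG hGR.alg τ hτQ hτF hτU hτM hbad
    hσZ hσR hσ' hσU hx hxne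

end main

end Pf72953.Tow
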