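import Mathlib
import Pool.Agent.Lib.Pf72953j.Ram2
import Pool.Agent.Lib.Pf72953j.Curve
import Pool.Agent.Lib.Pf72953j.Defs2
import Pool.Agent.Lib.Pf72953j.Pic
import Pool.Agent.Lib.Pf72953j.Step
import Pool.Agent.Lib.Pf72953j.Plus2

/-!
Towers of isotrivial fibre spaces: the step with a growing base.
-/

set_option autoImplicit false
set_option linter.style.haveILetI false

open scoped WithZero
open Pf72953 Pf72953.Mov

namespace Pf72953.Tow

variable {k Ω : Type*} [Field k] [Field Ω] [Algebra k Ω] [CharZero k] [IsAlgClosed k] [IsAlgClosed Ω]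

/-- the estimate of a step: `κ(R₁/P·Y) + κ(B) + κ(Q'/M·B·Y) + dim Y ≤ κ(Q)`, `Q' = Q·M·P` -/
theorem step_coreC {B V E M P : IntermediateField k Ω} (hVB : StableC B V)
    (h : Step V E M P) (hV : KodairaGE k V 0) (hM : KodairaGE k M 0)
    (hMM : PicProd M P)
    {Y Q Q' R₁ : IntermediateField k Ω} (hY : CurveProd Y) (hEY : Indep E Y)
    (hQ : Fin' Q) (hG : Gal (E ⊔ Y) Q) (hQ' : Q' = Q ⊔ (M ⊔ P)) (hR₁ : Fin' R₁)
    (hG₁ : Gal (M ⊔ (P ⊔ Y)) R₁)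
    [Fact (M ≤ M ⊔ (P ⊔ Y))] [Fact (P ⊔ Y ≤ M ⊔ (P ⊔ Y))] [Fact (M ≤ Q')]
    [Fact (P ⊔ Y ≤ Q')] [Fact (M ⊔ (P ⊔ Y) ≤ Q')]
    (hC₁ : ∃ (_ : Fact (M ≤ R₁)) (_ : Fact (P ⊔ Y ≤ R₁)) (_ : Fact (M ⊔ (P ⊔ Y) ≤ R₁)),
        ∀ (MM : SmoothModel k M) (i : MM.I) (w : Valuation R₁ ℤᵐ⁰),
          Br.Bad k MM (P ⊔ Y : IntermediateField k Ω) (M ⊔ (P ⊔ Y) : IntermediateField k Ω) i w →
          ∃ φ : Q' →ₐ[k] R₁,
          (∀ y : M, φ (algebraMap M Q' y) = algebraMap M R₁ y) ∧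
          (∀ b : (P ⊔ Y : IntermediateField k Ω), IsAlgebraic (P ⊔ Y : IntermediateField k Ω)
            (φ (algebraMap (P ⊔ Y : IntermediateField k Ω) Q' b))) ∧
          Br.Bad k MM (P ⊔ Y : IntermediateField k Ω) (M ⊔ (P ⊔ Y) : IntermediateField k Ω) i
            (w.comap (φ : Q' →+* R₁)))
    {a b b' : ℕ} (hb : KodairaGE k B b) (ha : KGE (P ⊔ Y) R₁ a)
    (hb' : KGE (M ⊔ (B ⊔ Y)) Q' b') :
    KodairaGE k Q (a + (b + b' + dimension k Y)) := by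
  have hYf : Fin' Y := hY.fin
  have hB : Fin' B := fin_le h.finV hVB.1
  -- `Y` is independent of `M·P`
  have hi : Indep (M ⊔ P) Y := hEY.up h.finN hYf h.le (alg_iff.1 h.alg)
  have hfQ' : Fin' Q' := hQ' ▸ fin_sup hQ h.finN
  have hEYQ : E ⊔ Y ≤ Q := hG.le
  have hEQ : E ≤ Q := le_sup_left.trans hEYQ
  have hYQ : Y ≤ Q := le_sup_right.trans hEYQ
  have hQQ' : Q ≤ Q' := hQ' ▸ le_sup_left
  have hNQ' : M ⊔ P ≤ Q' := hQ' ▸ le_sup_right
  have hMQ' : M ≤ Q' := le_sup_left.trans hNQ'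
  have hPQ' : P ≤ Q' := le_sup_right.trans hNQ'
  have hYQ' : Y ≤ Q' := hYQ.trans hQQ'
  have hBV : B ≤ V := hVB.1
  have hBQ' : B ≤ Q' := (hBV.trans h.le_P).trans hPQ'
  -- `Q'/E·Y` is Galois
  have hG' : Gal (E ⊔ Y) Q' := by
    have h1 : Gal (E ⊔ Y) ((M ⊔ P) ⊔ (E ⊔ Y)) := h.galN.base (E ⊔ Y) le_sup_left
    have h2 := hG.sup h1
    have h3 : Q ⊔ ((M ⊔ P) ⊔ (E ⊔ Y)) = Q' := by
      rw [← sup_assoc, ← hQ']
      exact sup_eq_left.2 (hEYQ.trans hQQ')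
    rwa [h3] at h2
  -- the fields
  set W : IntermediateField k Ω := P ⊔ Y with hW
  set Z : IntermediateField k Ω := M ⊔ W with hZ
  have hZQ' : Z ≤ Q' := sup_le hMQ' (sup_le hPQ' hYQ')
  have hfW : Fin' W := fin_sup h.fgP hYf
  have hfZ : Fin' Z := fin_sup h.fgM hfW
  -- the curves
  obtain ⟨X, C, hXM, hXC, hC, hGC, hMX⟩ := exists_curveProd h.fgM
  have hMX' : M ≤ cl X := alg_iff.1 hMX
  have hCX : C ≤ cl X := alg_iff.1 hGC.alg
  obtain ⟨R, hR, hGR, hQR, hCR, g1, g2, g3, hC₂⟩ := cond1 h hYf hi hfQ' hG' hNQ' hC.fin hXM hMX hGC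
  have hMVY : M ⊔ (V ⊔ Y) ≤ Q' := sup_le hMQ' (sup_le (h.le_P.trans hPQ') hYQ')
  have hXVY : X ⊔ (V ⊔ Y) ≤ Q' := (sup_le_sup_right hXM _).trans hMVY
  have halgR : ∀ x ∈ R, IsAlgebraic Q' x :=
    alg_iff.2 ((alg_iff.1 hGR.alg).trans (cl_mono hXVY))
  -- dimensions
  have e3 : dimension k (M ⊔ P : IntermediateField k Ω) = dimension k M + dimension k P := h.indep
  have e2 : dimension k ((M ⊔ P) ⊔ Y : IntermediateField k Ω) =
      dimension k (M ⊔ P : IntermediateField k Ω) + dimension k Y := hi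
  have iPY : Indep P Y := hi.mono_left h.finN hYf le_sup_right
  have e4 : dimension k W = dimension k P + dimension k Y := iPY
  have hZ' : Z = (M ⊔ P) ⊔ Y := by rw [hZ, hW, sup_assoc]
  have iMW : Indep M W := by
    show dimension k Z = _
    rw [hZ']
    omega
  have iMBY : Indep M (B ⊔ Y) := iMW.mono h.fgM hfW le_rfl (sup_le_sup_right (hBV.trans h.le_P) Y)
  have iMY : Indep M Y := iMBY.mono h.fgM (fin_sup hB hYf) le_rfl le_sup_right
  have iBY : Indep B Y := iPY.mono_left h.fgP hYf (hBV.trans h.le_P)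
  have iCY : Indep C Y := (iMY.mono_left h.fgM hYf hXM).up hC.fin hYf hXC hCX
  have iPMY : Indep P (M ⊔ Y) := by
    have e5 : dimension k (M ⊔ Y : IntermediateField k Ω) = dimension k M + dimension k Y := iMY
    have e6 : P ⊔ (M ⊔ Y) = (M ⊔ P) ⊔ Y := by rw [← sup_assoc, sup_comm P M]
    unfold Indep
    rw [e6]
    omega
  have iVCY : Indep V (C ⊔ Y) :=
    ((iPMY.mono h.fgP (fin_sup h.fgM hYf) h.le_P (sup_le_sup_right hXM Y)).symm.up
      (fin_sup hC.fin hYf) h.finV (sup_le_sup_right hXC Y)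
      (sup_le (hCX.trans (cl_mono le_sup_left)) (le_sup_right.trans le_cl))).symm
  have hMdim : dimension k M = dimension k X := dim_eq h.fgM hXM hMX
  have hCdim : dimension k C = dimension k X := dim_eq hC.fin hXC hGC.alg
  have hCY : dimension k (C ⊔ Y : IntermediateField k Ω) = dimension k C + dimension k Y := iCY
  -- the stable inequality for `V/B`
  have hb1 : KGE (M ⊔ (B ⊔ Y)) R b' := kge_pull hR hQR halgR hb'
  have hYR : Y ≤ R := hYQ'.trans hQR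
  have hBR : B ≤ R := hBQ'.trans hQR
  have hMR : M ≤ R := hMQ'.trans hQR
  have hb0 : KGE (X ⊔ (B ⊔ Y)) R b' :=
    (kge_base hR (sup_le_sup_right hXM _) (sup_le hMR (sup_le hBR hYR))
      (alg_iff.2 (sup_le (hMX'.trans (cl_mono le_sup_left)) (le_sup_right.trans le_cl)))).2 hb1
  have hb2 : KGE (B ⊔ (C ⊔ Y)) R b' :=
    (kge_base hR (sup_le (hXC.trans (le_sup_left.trans le_sup_right))
      (sup_le le_sup_left (le_sup_right.trans le_sup_right)))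
      (sup_le hBR (sup_le hCR hYR))
      (alg_iff.2 (sup_le ((le_sup_left.trans le_sup_right).trans le_cl)
        (sup_le (hCX.trans (cl_mono le_sup_left))
          ((le_sup_right.trans le_sup_right).trans le_cl))))).1 hb0
  have hS : KodairaGE k R (b + b' + dimension k (C ⊔ Y : IntermediateField k Ω)) := by
    refine hVB.2 (C ⊔ Y) R (hC.sup hY iCY) iVCY hR ?_ b b' hb hb2
    exact hGR.of_le (sup_le (hXC.trans (le_sup_left.trans le_sup_right))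
        (sup_le le_sup_left (le_sup_right.trans le_sup_right)))
        (sup_le ((h.le_P.trans hPQ').trans hQR) (sup_le hCR hYR))
  have hS' : KGE M R (b + b' + dimension k Y) :=
    (kge_easy hR hMR hS).mono (by omega)
  -- the product formula
  have hplus : KodairaGE k Q' (a + (b + b' + dimension k Y)) := by
    haveI : Algebra.EssFiniteType k W := hfW
    haveI : Algebra.EssFiniteType k M := h.fgM
    haveI : Algebra.EssFiniteType k Z := hfZ
    haveI : Algebra.EssFiniteType k Q' := hfQ'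
    obtain ⟨g1', g2', g3', hC₁⟩ := hC₁
    have hEYZ : E ⊔ Y ≤ Z := by
      rw [hZ']
      exact sup_le_sup_right h.le Y
    obtain ⟨i1, i2⟩ := (hG'.of_le hEYZ hZQ').finite hfQ'
    have hMZ : X ⊔ (V ⊔ Y) ≤ Z :=
      (sup_le_sup_right hXM _).trans (sup_le_sup_left (sup_le_sup_right h.le_P Y) M)
    obtain ⟨i3, i4⟩ := (hGR.of_le hMZ (hZQ'.trans hQR)).finite hR
    obtain ⟨i5, i6⟩ := hG₁.finite hR₁
    have hdim : dimension k W + dimension k M = dimension k Z := by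
      rw [hZ']
      omega
    have hcomp : Twr.IsCompositum k W M Z := isCompositum (by rw [sup_comm])
    have hY0 : KodairaGE k Y 0 := Diag.ge_zero' hY.kod
    have hW0 : KodairaGE k W 0 :=
      kge_prod h.fgP hYf iPY (kge_pull' h.fgP h.le_P h.alg_P hV) hY0
    obtain ⟨MM, PM', hmv⟩ := hMM Y W Z Q' hfW hfZ inferInstance inferInstance inferInstance
      inferInstance inferInstance hcomp hdim hY iPY hW hfQ' (hG'.of_le hEYZ hZQ')
    have key := plus2 (k := k) (B := W) (Y := M) (Z := Z) (Q := Q') (R₁ := R₁) (R₂ := R) MM PM'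
      hcomp hdim (Diag.ne_bot_of_ge hM) (Diag.ne_bot_of_ge hW0) hmv
      (fun i w hw => hC₁ MM i w hw) (fun j w hw => hC₂ PM' j w hw)
    obtain ⟨_, ha'⟩ := ha
    obtain ⟨_, hS''⟩ := hS'
    refine kge_of_le (le_trans ?_ key)
    refine le_trans (le_of_eq ?_) (add_le_add (le_iSup₂_of_le a ha' le_rfl)
      (le_iSup₂_of_le (b + b' + dimension k Y) hS'' le_rfl))
    push_cast
    rfl
  -- descend
  rw [hQ'] at hplus
  exact descend h hYf hi hQ hG hV hM (Diag.ge_zero' hY.kod) hplus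

omit [IsAlgClosed Ω] in
/-- `κ(A × C) ≤ κ(A) + κ(C)` -/
theorem kge_prod_upper' {A C : IntermediateField k Ω} (hA : Fin' A) (hC : Fin' C) (hi : Indep A C)
    {c : ℕ} (hc : KodairaGE k (A ⊔ C : IntermediateField k Ω) c) :
    ∃ a b : ℕ, c ≤ a + b ∧ KodairaGE k A a ∧ KodairaGE k C b := by
  haveI : Algebra.EssFiniteType k A := hA
  haveI : Algebra.EssFiniteType k C := hC
  haveI : Algebra.EssFiniteType k (A ⊔ C : IntermediateField k Ω) := fin_sup hA hC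
  haveI f1 : Fact (A ≤ A ⊔ C) := ⟨le_sup_left⟩
  haveI f2 : Fact (C ≤ A ⊔ C) := ⟨le_sup_right⟩
  haveI : CharZero A := charZero_of_injective_algebraMap (algebraMap k A).injective
  haveI : CharZero C := charZero_of_injective_algebraMap (algebraMap k C).injective
  obtain ⟨a, b, hab, ha, hb⟩ := Diag.upper (k := k) (B := k) (C := A) (G := C)
    (N := (A ⊔ C : IntermediateField k Ω))
    ⟨by
      have h5 : dimension k (A ⊔ C : IntermediateField k Ω) = dimension k A + dimension k C := hi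
      omega, by
      rw [_root_.eq_top_iff]
      rintro x -
      exact isCompositum (A := A) (B := C) (Z := (A ⊔ C : IntermediateField k Ω)) le_rfl x⟩
    Dq.closedIn_of_isAlgClosed Dq.closedIn_of_isAlgClosed hc
  exact ⟨a, b, by omega, ha, hb⟩

/-- the step with a growing base -/
theorem stable_growC {B V E M P M₀ : IntermediateField k Ω} (hVB : StableC B V)
    (hM₀ : M₀ = ⊥ ∨ StableC M₀ M) (h : Step V E M P) (hM₀E : M₀ ≤ E) (hV : KodairaGE k V 0)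
    (hM : KodairaGE k M 0) (hMM : PicProd M P) : StableC (B ⊔ M₀) E := by
  refine ⟨sup_le (hVB.1.trans h.le_E) hM₀E, ?_⟩
  intro Y Q hY hEY hQ hG b c hb hc
  have hYf : Fin' Y := hY.fin
  have hB : Fin' B := fin_le h.finV hVB.1
  have hBP : B ≤ P := hVB.1.trans h.le_P
  have hi : Indep (M ⊔ P) Y := hEY.up h.finN hYf h.le (alg_iff.1 h.alg)
  have hMP : Indep M P := h.indep
  obtain ⟨Q', hQ'⟩ : ∃ Q' : IntermediateField k Ω, Q' = Q ⊔ (M ⊔ P) := ⟨_, rfl⟩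
  have hfQ' : Fin' Q' := hQ' ▸ fin_sup hQ h.finN
  have hEYQ : E ⊔ Y ≤ Q := hG.le
  have hEQ : E ≤ Q := le_sup_left.trans hEYQ
  have hYQ : Y ≤ Q := le_sup_right.trans hEYQ
  have hQQ' : Q ≤ Q' := hQ' ▸ le_sup_left
  have hNQ' : M ⊔ P ≤ Q' := hQ' ▸ le_sup_right
  have hMQ' : M ≤ Q' := le_sup_left.trans hNQ'
  have hPQ' : P ≤ Q' := le_sup_right.trans hNQ'
  have hYQ' : Y ≤ Q' := hYQ.trans hQQ'
  have hBQ' : B ≤ Q' := hBP.trans hPQ'
  have hG' : Gal (E ⊔ Y) Q' := by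
    have h1 : Gal (E ⊔ Y) ((M ⊔ P) ⊔ (E ⊔ Y)) := h.galN.base (E ⊔ Y) le_sup_left
    have h2 := hG.sup h1
    have h3 : Q ⊔ ((M ⊔ P) ⊔ (E ⊔ Y)) = Q' := by
      rw [← sup_assoc, ← hQ']
      exact sup_eq_left.2 (hEYQ.trans hQQ')
    rwa [h3] at h2
  -- dimensions
  have e2 : dimension k ((M ⊔ P) ⊔ Y : IntermediateField k Ω) =
      dimension k (M ⊔ P : IntermediateField k Ω) + dimension k Y := hi
  have e3 : dimension k (M ⊔ P : IntermediateField k Ω) = dimension k M + dimension k P := h.indep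
  have iPY : Indep P Y := hi.mono_left h.finN hYf le_sup_right
  have hfPY : Fin' (P ⊔ Y) := fin_sup h.fgP hYf
  have e4 : dimension k (P ⊔ Y : IntermediateField k Ω) = dimension k P + dimension k Y := iPY
  have hZ' : M ⊔ (P ⊔ Y) = (M ⊔ P) ⊔ Y := (sup_assoc _ _ _).symm
  have iMW : Indep M (P ⊔ Y) := by
    show dimension k (M ⊔ (P ⊔ Y) : IntermediateField k Ω) = _
    rw [hZ']
    omega
  have e8 : dimension k (M ⊔ (P ⊔ Y) : IntermediateField k Ω) =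
    dimension k M + dimension k (P ⊔ Y : IntermediateField k Ω) := iMW
  have iMBY : Indep M (B ⊔ Y) := iMW.mono h.fgM hfPY le_rfl (sup_le_sup_right hBP Y)
  have iBY : Indep B Y := iPY.mono_left h.fgP hYf hBP
  have e6 : dimension k (M ⊔ (B ⊔ Y) : IntermediateField k Ω) =
    dimension k M + dimension k (B ⊔ Y : IntermediateField k Ω) := iMBY
  -- the field `Z = M·P·Y`
  have hWQ' : P ⊔ Y ≤ Q' := sup_le hPQ' hYQ'
  have hZQ' : M ⊔ (P ⊔ Y) ≤ Q' := sup_le hMQ' hWQ'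
  haveI f1 : Fact (M ≤ M ⊔ (P ⊔ Y)) := ⟨le_sup_left⟩
  haveI f2 : Fact (P ⊔ Y ≤ M ⊔ (P ⊔ Y)) := ⟨le_sup_right⟩
  haveI f3 : Fact (M ≤ Q') := ⟨hMQ'⟩
  haveI f4 : Fact (P ⊔ Y ≤ Q') := ⟨hWQ'⟩
  haveI f5 : Fact (M ⊔ (P ⊔ Y) ≤ Q') := ⟨hZQ'⟩
  have hEZ : E ⊔ Y ≤ M ⊔ (P ⊔ Y) := by
    rw [hZ']
    exact sup_le_sup_right h.le Y
  have hGZ : Gal (M ⊔ (P ⊔ Y)) Q' := hG'.of_le hEZ hZQ'
  rcases hM₀ with rfl | hM₀
  · -- the base does not grow
    rw [sup_bot_eq] at hb hc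
    have hc' : KGE (B ⊔ Y) Q' c := kge_pull hfQ' hQQ'
      (alg_iff.2 (hQ' ▸ sup_le le_cl ((alg_iff.1 h.alg).trans (cl_mono hEQ)))) hc
    have hXX : (P ⊔ Y) ⊔ (M ⊔ (B ⊔ Y)) = M ⊔ (P ⊔ Y) :=
      le_antisymm (sup_le le_sup_right (sup_le_sup_left (sup_le_sup_right hBP Y) M))
        (sup_le (le_sup_left.trans le_sup_right) le_sup_left)
    obtain ⟨a, b', hcab, ha, hb'⟩ := kge_sub (F := B ⊔ Y) (X := P ⊔ Y) (Y := M ⊔ (B ⊔ Y)) hfQ'
      (sup_le_sup_right hBP Y) le_sup_right hWQ' (sup_le hMQ' (sup_le hBQ' hYQ')) (by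
        rw [hXX]
        omega) hc'
    have h4 := step_coreC (R₁ := Q') hVB h hV hM hMM hY hEY hQ hG hQ' hfQ' hGZ
      ⟨f3, f4, f5, fun MM i w hw => ⟨AlgHom.id k Q', fun y => rfl,
        fun b => isAlgebraic_algebraMap b, by
          have h1 : w.comap ((AlgHom.id k Q' : Q' →ₐ[k] Q') : Q' →+* Q') = w := by
            ext x
            rfl
          rw [h1]
          exact hw⟩⟩ hb ha hb'
    exact kge_mono (by omega) h4
  · have hfM₀ : Fin' M₀ := fin_le h.fgM hM₀.1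
    have iBM₀ : Indep B M₀ := hMP.symm.mono h.fgP h.fgM hBP hM₀.1
    obtain ⟨b₁, m, hbm, hb₁, hm⟩ := kge_prod_upper' hB hfM₀ iBM₀ hb
    have hM₀Q' : M₀ ≤ Q' := hM₀.1.trans hMQ'
    have iM₀W : Indep M₀ (P ⊔ Y) := iMW.mono h.fgM hfPY hM₀.1 le_rfl
    have iM₀BY : Indep M₀ (B ⊔ Y) := iMBY.mono h.fgM (fin_sup hB hYf) hM₀.1 le_rfl
    have e5 : dimension k (M₀ ⊔ (P ⊔ Y) : IntermediateField k Ω) =
      dimension k M₀ + dimension k (P ⊔ Y : IntermediateField k Ω) := iM₀W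
    have e7 : dimension k (M₀ ⊔ (B ⊔ Y) : IntermediateField k Ω) =
      dimension k M₀ + dimension k (B ⊔ Y : IntermediateField k Ω) := iM₀BY
    have hF : (B ⊔ M₀) ⊔ Y = M₀ ⊔ (B ⊔ Y) := by rw [← sup_assoc, sup_comm B M₀]
    have hXX : (M₀ ⊔ (P ⊔ Y)) ⊔ (M ⊔ (B ⊔ Y)) = M ⊔ (P ⊔ Y) := by
      refine le_antisymm (sup_le (sup_le_sup_right hM₀.1 _)
        (sup_le_sup_left (sup_le_sup_right hBP Y) M))
        (sup_le (le_sup_left.trans le_sup_right) (le_sup_right.trans le_sup_left))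
    -- easy addition over `B·M₀·Y`
    have hc' : KGE ((B ⊔ M₀) ⊔ Y) Q' c := kge_pull hfQ' hQQ'
      (alg_iff.2 (hQ' ▸ sup_le le_cl ((alg_iff.1 h.alg).trans (cl_mono hEQ)))) hc
    rw [hF] at hc'
    obtain ⟨a, b', hcab, ha, hb'⟩ := kge_sub (F := M₀ ⊔ (B ⊔ Y)) (X := M₀ ⊔ (P ⊔ Y))
      (Y := M ⊔ (B ⊔ Y)) hfQ' (sup_le_sup_left (sup_le_sup_right hBP Y) M₀)
      (sup_le_sup_right hM₀.1 (B ⊔ Y)) (sup_le hM₀Q' hWQ')
      (sup_le hMQ' (sup_le hBQ' hYQ')) (by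
        rw [hXX]
        omega) hc'
    -- the stable inequality for `M/M₀`
    obtain ⟨X, C, hXP, hXC, hC, hGC, hPX⟩ := exists_curveProd h.fgP
    have hPX' : P ≤ cl X := alg_iff.1 hPX
    have hCX : C ≤ cl X := alg_iff.1 hGC.alg
    obtain ⟨R₁, hR₁, hGR₁, hQR₁, hCR₁, hC₁⟩ := cond2 h.fgM h.fgP hYf hMP hi hfQ' hGZ hC.fin hXP
      hPX hGC
    have hYR : Y ≤ R₁ := hYQ'.trans hQR₁
    have hM₀R : M₀ ≤ R₁ := hM₀Q'.trans hQR₁
    have hWR : P ⊔ Y ≤ R₁ := hWQ'.trans hQR₁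
    have iXY : Indep X Y := iPY.mono_left h.fgP hYf hXP
    have iCY : Indep C Y := iXY.up hC.fin hYf hXC hCX
    have hCYcl : C ⊔ Y ≤ cl (X ⊔ Y) :=
      sup_le (hCX.trans (cl_mono le_sup_left)) (le_sup_right.trans le_cl)
    have iMCY : Indep M (C ⊔ Y) :=
      ((iMW.mono h.fgM hfPY le_rfl (sup_le_sup_right hXP Y)).symm.up (fin_sup hC.fin hYf) h.fgM
        (sup_le_sup_right hXC Y) hCYcl).symm
    have hPdim : dimension k P = dimension k X := dim_eq h.fgP hXP hPX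
    have hCdim : dimension k C = dimension k X := dim_eq hC.fin hXC hGC.alg
    have hCY : dimension k (C ⊔ Y : IntermediateField k Ω) = dimension k C + dimension k Y := iCY
    have hXYZ : M ⊔ (X ⊔ Y) ≤ M ⊔ (P ⊔ Y) := sup_le_sup_left (sup_le_sup_right hXP Y) M
    have halgR : ∀ x ∈ R₁, IsAlgebraic Q' x :=
      alg_iff.2 ((alg_iff.1 hGR₁.alg).trans (cl_mono (hXYZ.trans hZQ')))
    have hG₁ : Gal (M ⊔ (P ⊔ Y)) R₁ := hGR₁.of_le hXYZ (hZQ'.trans hQR₁)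
    have ha₁ : KGE (M₀ ⊔ (P ⊔ Y)) R₁ a := kge_pull hR₁ hQR₁ halgR ha
    have ha₂ : KGE (M₀ ⊔ (X ⊔ Y)) R₁ a :=
      (kge_base hR₁ (sup_le_sup_left (sup_le_sup_right hXP Y) M₀) (sup_le hM₀R hWR)
        (alg_iff.2 (sup_le (le_sup_left.trans le_cl)
          ((sup_le (hPX'.trans (cl_mono le_sup_left)) (le_sup_right.trans le_cl) :
            P ⊔ Y ≤ cl (X ⊔ Y)).trans (cl_mono le_sup_right))))).2 ha₁
    have ha₃ : KGE (M₀ ⊔ (C ⊔ Y)) R₁ a :=
      (kge_base hR₁ (sup_le_sup_left (sup_le_sup_right hXC Y) M₀)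
        (sup_le hM₀R (sup_le hCR₁ hYR))
        (alg_iff.2 (sup_le (le_sup_left.trans le_cl) (hCYcl.trans (cl_mono le_sup_right))))).1 ha₂
    have h1 : KodairaGE k R₁ (m + a + dimension k (C ⊔ Y : IntermediateField k Ω)) := by
      refine hM₀.2 (C ⊔ Y) R₁ (hC.sup hY iCY) iMCY hR₁ ?_ m a hm ha₃
      exact hGR₁.of_le (sup_le_sup_left (sup_le_sup_right hXC Y) M)
        (sup_le (hMQ'.trans hQR₁) (sup_le hCR₁ hYR))
    have h2 : KGE (P ⊔ Y) R₁ (m + a) := (kge_easy hR₁ hWR h1).mono (by omega)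
    have h4 := step_coreC hVB h hV hM hMM hY hEY hQ hG hQ' hR₁ hG₁ hC₁ hb₁ h2 hb'
    exact kge_mono (by omega) h4

/-- the step with a fixed base -/
theorem stable_stepC {B V E M P : IntermediateField k Ω} (hVB : StableC B V) (h : Step V E M P)
    (hV : KodairaGE k V 0) (hM : KodairaGE k M 0) (hMM : PicProd M P) : StableC B E := by
  have h1 := stable_growC (M₀ := ⊥) hVB (Or.inl rfl) h bot_le hV hM hMM
  rwa [sup_bot_eq] at h1

end Pf72953.Tow
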