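import Mathlib
import Pool.Agent.Lib.Pf72953j.Grow2

/-!
Towers of isotrivial fibre spaces: the class of stable fibre spaces.
-/

set_option autoImplicit false
set_option linter.style.haveILetI false

open scoped WithZero
open Pf72953 Pf72953.Mov

namespace Pf72953.Tow

variable {k Ω : Type*} [Field k] [Field Ω] [Algebra k Ω]

/-- the Kodaira dimension `κ(Q/A)` of the generic fibre, `A ⊆ Q ⊆ Ω` -/
noncomputable def relKod (A Q : IntermediateField k Ω) : WithBot ℕ∞ :=
  ⨆ (c : ℕ) (_ : KGE A Q c), ((c : ℕ∞) : WithBot ℕ∞)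

/-- Iitaka's inequality `κ(B) + κ(Q/B) ≤ κ(Q)` -/
def Iitaka (B Q : IntermediateField k Ω) : Prop :=
  kodairaDim k B + relKod B Q ≤ kodairaDim k Q

/-- `V → B` is stable: Iitaka's inequality holds for `Q → B × C^m`, `C` the curve `y² = x⁵ - 1`, for every `m` and every
finite Galois cover `Q` of `V × C^m`. -/
def StableFib (B V : IntermediateField k Ω) : Prop :=
  B ≤ V ∧ ∀ Y Q : IntermediateField k Ω, CurveProd Y → Indep V Y → Fin' Q → Gal (V ⊔ Y) Q →
    Iitaka (B ⊔ Y) Q

theorem relKod_cases {A Q : IntermediateField k Ω} (hQ : Fin' Q) :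
    relKod A Q = ⊥ ∨ ∃ c : ℕ, KGE A Q c ∧ relKod A Q = ((c : ℕ∞) : WithBot ℕ∞) := by
  by_cases hA : A ≤ Q
  · haveI f : Fact (A ≤ Q) := ⟨hA⟩
    haveI : Algebra.EssFiniteType k Q := hQ
    haveI : Algebra.EssFiniteType A Q := Algebra.EssFiniteType.of_comp k A Q
    have h1 : relKod A Q = kodairaDim A Q := by
      unfold relKod kodairaDim
      refine le_antisymm (iSup₂_le fun c hc => ?_) (iSup₂_le fun c hc => ?_)
      · obtain ⟨_, hc⟩ := hc
        exact le_iSup₂_of_le c hc le_rfl
      · exact le_iSup₂_of_le c (⟨f, hc⟩ : KGE A Q c) le_rfl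
    rw [h1]
    rcases kodairaDim_eq (k := A) (K := Q) with h | ⟨c, hc, h⟩
    · exact Or.inl h
    · exact Or.inr ⟨c, ⟨f, hc⟩, h⟩
  · left
    unfold relKod
    refine le_antisymm (iSup₂_le fun c hc => absurd hc.1.out hA) bot_le

theorem iitaka_of {B Q : IntermediateField k Ω} (hQ : Fin' Q) (hB : Fin' B)
    (h : ∀ b c : ℕ, KodairaGE k B b → KGE B Q c → KodairaGE k Q (b + c)) : Iitaka B Q := by
  unfold Iitaka
  haveI : Algebra.EssFiniteType k B := hB
  rcases kodairaDim_eq (k := k) (K := B) with h1 | ⟨b, hb, h1⟩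
  · rw [h1, WithBot.bot_add]; exact bot_le
  rcases relKod_cases (A := B) hQ with h2 | ⟨c, hc, h2⟩
  · rw [h2, WithBot.add_bot]; exact bot_le
  rw [h1, h2]
  refine le_trans (le_of_eq ?_) (le_iSup₂_of_le (b + c) (h b c hb hc) le_rfl)
  push_cast
  rfl

theorem Iitaka.ge [CharZero k] {B Q : IntermediateField k Ω} (hQ : Fin' Q) (h : Iitaka B Q) {b c : ℕ}
    (hb : KodairaGE k B b) (hc : KGE B Q c) : KodairaGE k Q (b + c) := by
  haveI : Algebra.EssFiniteType k Q := hQ
  refine kge_of_le (le_trans ?_ h)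
  refine le_trans (le_of_eq ?_) (add_le_add (le_iSup₂_of_le b hb le_rfl)
    (le_iSup₂_of_le c hc le_rfl))
  push_cast
  rfl

theorem kge_zero_iff {A : IntermediateField k Ω} (hA : Fin' A) :
    kodairaDim k A ≠ ⊥ ↔ KodairaGE k A 0 := by
  haveI : Algebra.EssFiniteType k A := hA
  exact ⟨Diag.ge_zero_of_ne_bot, Diag.ne_bot_of_ge⟩

section bot

theorem indep_bot {A : IntermediateField k Ω} : Indep A ⊥ := by
  unfold Indep
  rw [sup_bot_eq, dim_bot, add_zero]

theorem gal_refl {A : IntermediateField k Ω} : Gal A A :=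
  ⟨le_rfl, fun _ hx => alg_of_mem hx, fun _ hσ x hx => by rw [hσ x hx]; exact hx⟩

theorem kge_bot [CharZero k] : KodairaGE k (⊥ : IntermediateField k Ω) 0 := by
  have h := (curveProd_bot (k := k) (Ω := Ω)).kod
  rwa [dim_bot] at h

end bot

section

variable [CharZero k] [IsAlgClosed k]

theorem stableFib_iff {B V : IntermediateField k Ω} (hV : Fin' V) :
    StableFib B V ↔ StableC B V := by
  constructor
  · rintro ⟨hBV, h⟩
    refine ⟨hBV, fun Y Q hY hi hQ hG b c hb hc => ?_⟩
    have hB : Fin' B := fin_le hV hBV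
    have h1 := (h Y Q hY hi hQ hG).ge hQ
      (kge_prod hB hY.fin (hi.mono_left hV hY.fin hBV) hb hY.kod) hc
    exact kge_mono (by omega) h1
  · rintro ⟨hBV, h⟩
    refine ⟨hBV, fun Y Q hY hi hQ hG => ?_⟩
    have hB : Fin' B := fin_le hV hBV
    refine iitaka_of hQ (fin_sup hB hY.fin) fun b c hb hc => ?_
    obtain ⟨a, a', hab, ha, ha'⟩ := kge_prod_upper' hB hY.fin (hi.mono_left hV hY.fin hBV) hb
    haveI : Algebra.EssFiniteType k Y := hY.fin
    have h3 := ha'.le_dimension
    exact kge_mono (by omega) (h Y Q hY hi hQ hG a c ha hc)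

omit [IsAlgClosed k] in
theorem stableC_refl {B : IntermediateField k Ω} (hB : Fin' B) : StableC B B := by
  refine ⟨le_rfl, fun Y Q hY hBY hQ hG b c hb hc => ?_⟩
  obtain ⟨f1, hc⟩ := hc
  haveI : Algebra.EssFiniteType k Q := hQ
  haveI : Algebra.EssFiniteType (B ⊔ Y : IntermediateField k Ω) Q :=
    Algebra.EssFiniteType.of_comp k _ Q
  have h0 : c = 0 := by
    have h1 := hc.le_dimension
    have h2 := dim_add (A := B ⊔ Y) hQ
    have h3 := dim_eq hQ hG.le hG.alg
    omega
  rw [h0, add_zero]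
  exact kge_pull' hQ hG.le hG.alg (kge_prod hB hY.fin hBY hb hY.kod)

theorem StableFib.refl {B : IntermediateField k Ω} (hB : Fin' B) : StableFib B B :=
  (stableFib_iff hB).2 (stableC_refl hB)

omit [CharZero k] [IsAlgClosed k] in
/-- Galois covers -/
theorem StableFib.cover {B V Q : IntermediateField k Ω} (hS : StableFib B V) (hQ : Fin' Q)
    (hG : Gal V Q) : Iitaka B Q := by
  have h1 := hS.2 ⊥ Q curveProd_bot indep_bot hQ (by rw [sup_bot_eq]; exact hG)
  rwa [sup_bot_eq] at h1

end

/-- `E → V` is a rigid isotrivial fibre space with the fibre `M`: `E = (M × P)/H`, `V = P/H` (`Step`), `κ(M) ≥ 0`, and every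
branch divisor on `M × (P × C^m)` is of product type (`PicProd`, true if `Alb(M)` and `Alb(P) × J(C)` have no common isogeny
factor). -/
structure RigidStep [CharZero k] (V E M P : IntermediateField k Ω) : Prop extends Step V E M P where
  kod : kodairaDim k M ≠ ⊥
  pic : PicProd M P

/-- `V` is a tower of rigid isotrivial fibre spaces over `V₀`. -/
inductive RigidTower [CharZero k] (V₀ : IntermediateField k Ω) : IntermediateField k Ω → Prop
  | base : RigidTower V₀ V₀
  | step {V E M P : IntermediateField k Ω} : RigidTower V₀ V → RigidStep V E M P → RigidTower V₀ E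

section

variable [CharZero k] [IsAlgClosed k] [IsAlgClosed Ω]

/-- `κ(E) ≥ 0` -/
theorem Step.kod_E {V E M P : IntermediateField k Ω} (h : Step V E M P) (hM : KodairaGE k M 0)
    (hV : KodairaGE k V 0) : KodairaGE k E 0 := by
  refine descend h fin_bot indep_bot h.finE ?_ hV hM kge_bot ?_
  · rw [sup_bot_eq]
    exact gal_refl
  · rw [sup_eq_right.2 h.le]
    exact kge_prod h.fgM h.fgP h.indep hM (kge_pull' h.fgP h.le_P h.alg_P hV)

/-- the step with a growing base -/
theorem RigidStep.grow {B V E M P M₀ : IntermediateField k Ω} (h : RigidStep V E M P)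
    (hS : StableFib B V) (hV : kodairaDim k V ≠ ⊥) (hM₀ : M₀ = ⊥ ∨ StableFib M₀ M)
    (hM₀E : M₀ ≤ E) : StableFib (B ⊔ M₀) E ∧ kodairaDim k E ≠ ⊥ := by
  have h0 := h.toStep
  have hM := (kge_zero_iff h0.fgM).1 h.kod
  have hV' := (kge_zero_iff h0.finV).1 hV
  exact ⟨(stableFib_iff h0.finE).2 (stable_growC ((stableFib_iff h0.finV).1 hS)
    (hM₀.imp_right (stableFib_iff h0.fgM).1) h0 hM₀E hV' hM h.pic),
    (kge_zero_iff h0.finE).2 (h0.kod_E hM hV')⟩

theorem RigidStep.stableFib {B V E M P : IntermediateField k Ω} (h : RigidStep V E M P)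
    (hS : StableFib B V) (hV : kodairaDim k V ≠ ⊥) : StableFib B E ∧ kodairaDim k E ≠ ⊥ := by
  have h1 := h.grow hS hV (Or.inl rfl) bot_le
  rwa [sup_bot_eq] at h1

theorem RigidTower.stableFib {B V₀ V : IntermediateField k Ω} (hT : RigidTower V₀ V)
    (hS : StableFib B V₀) (hV₀ : kodairaDim k V₀ ≠ ⊥) : StableFib B V ∧ kodairaDim k V ≠ ⊥ := by
  induction hT with
  | base => exact ⟨hS, hV₀⟩
  | step _ h ih => exact h.stableFib ih.1 ih.2

/-- products -/
theorem StableFib.prod {B P M₀ M : IntermediateField k Ω} (hS : StableFib B P)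
    (hS' : StableFib M₀ M) (hP : Fin' P) (hM : Fin' M) (hi : Indep M P)
    (hPk : kodairaDim k P ≠ ⊥) (hMk : kodairaDim k M ≠ ⊥) (hpic : PicProd M P) : StableFib (B ⊔ M₀) (M ⊔ P) := by
  refine (RigidStep.grow (V := P) (E := M ⊔ P) (M := M) (P := P) ⟨⟨hM, hP, hi, le_rfl,
    fun x hx => alg_of_mem hx, le_sup_left.trans le_sup_left, le_sup_right.trans le_sup_left,
    fun σ hσ => (hσ.mono le_sup_left).stab, fun σ hσ => (hσ.mono le_sup_right).stab,
    (inf_eq_right.2 le_sup_right).symm⟩, hMk, hpic⟩ hS hPk (Or.inr hS')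
    (hS'.1.trans le_sup_left)).1

/-- the top step -/
theorem top_step {B V V' E G P : IntermediateField k Ω} (hS : StableC B V) (hV : KodairaGE k V 0)
    (hVP : Gal V P) (hV' : V ≤ V') (h : Step V' E G P) {b c : ℕ} (hb : KodairaGE k B b)
    (hc : KGE B E c) : KodairaGE k E (b + c) := by
  set N : IntermediateField k Ω := G ⊔ P with hN
  have hfN : Fin' N := h.finN
  have hBV : B ≤ V := hS.1
  have hBP : B ≤ P := (hBV.trans hV').trans h.le_P
  haveI f1 : Fact (B ≤ P) := ⟨hBP⟩
  haveI f2 : Fact (P ≤ N) := ⟨le_sup_right⟩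
  haveI f3 : Fact (G ≤ N) := ⟨le_sup_left⟩
  haveI : Algebra.EssFiniteType k N := hfN
  haveI : Algebra.EssFiniteType k P := h.fgP
  haveI : Algebra.EssFiniteType k G := h.fgM
  haveI : Algebra.EssFiniteType k B := fin_le h.fgP hBP
  obtain ⟨f4, hcN⟩ := kge_pull hfN h.le h.alg hc
  haveI : CharZero B := charZero_of_injective_algebraMap (algebraMap k B).injective
  haveI : CharZero P := charZero_of_injective_algebraMap (algebraMap k P).injective
  haveI : CharZero G := charZero_of_injective_algebraMap (algebraMap k G).injective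
  obtain ⟨a, b', hab, ha, hb'⟩ := Diag.upper (k := k) (B := B) (C := P) (G := G) (N := N)
    ⟨by
      have h5 : dimension k N = dimension k G + dimension k P := h.indep
      omega, by
      rw [_root_.eq_top_iff]
      rintro x -
      exact isCompositum (A := P) (B := G) (Z := N) (by rw [hN, sup_comm]) x⟩
    Dq.closedIn_of_isAlgClosed Dq.closedIn_of_isAlgClosed hcN
  have h1 : KodairaGE k P (b + a + dimension k (⊥ : IntermediateField k Ω)) := by
    refine hS.2 ⊥ P curveProd_bot indep_bot h.fgP ?_ b a hb ?_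
    · rw [sup_bot_eq]
      exact hVP
    · rw [sup_bot_eq]
      exact ⟨f1, ha⟩
  rw [dim_bot, add_zero] at h1
  have hV'0 : KodairaGE k V' 0 := kge_pull' h.finV hV'
    (fun x hx => hVP.alg x (h.le_P hx)) hV
  have h2 : KodairaGE k N (b' + (b + a)) := kge_prod h.fgM h.fgP h.indep hb' h1
  have h3 : KodairaGE k E (b' + (b + a)) := by
    refine descend h fin_bot indep_bot h.finE ?_ hV'0 (Diag.ge_zero' hb') kge_bot ?_
    · rw [sup_bot_eq]
      exact gal_refl
    · rw [sup_eq_right.2 h.le]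
      exact h2
  exact kge_mono (by omega) h3

/-- isotrivial fibre spaces over Galois covers -/
theorem StableFib.isotrivial {B V V' E G P : IntermediateField k Ω} (hS : StableFib B V)
    (hV : kodairaDim k V ≠ ⊥) (hVP : Gal V P) (hV' : V ≤ V') (h : Step V' E G P) : Iitaka B E := by
  have hfV : Fin' V := fin_le h.fgP (hV'.trans h.le_P)
  exact iitaka_of h.finE (fin_le hfV hS.1) fun b c hb hc =>
    top_step ((stableFib_iff hfV).1 hS) ((kge_zero_iff hfV).1 hV) hVP hV' h hb hc

omit [IsAlgClosed k] [IsAlgClosed Ω] in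
theorem RigidTower.le {B V : IntermediateField k Ω} (hT : RigidTower B V) : B ≤ V := by
  induction hT with
  | base => exact le_rfl
  | step _ h ih => exact ih.trans h.toStep.le_E

end

end Pf72953.Tow
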