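import Mathlib
import Pool.Agent.Lib.Pf72953j.Cls

/-!
Fibre spaces `X → V` over stable fibre spaces `V → B`: the inequality for the covers of `X` which come from `V`.
-/

set_option autoImplicit false
set_option linter.style.haveILetI false

open scoped WithZero
open Pf72953 Pf72953.Mov

namespace Pf72953.Tow

variable {k Ω : Type*} [Field k] [Field Ω] [Algebra k Ω]

/-- Iitaka's inequality holds for `X ×_V Q → B × C^m`, `C` the curve `y² = x⁵ - 1`, for every `m` and every finite Galois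
cover `Q` of `V × C^m`. -/
def Over (B V X : IntermediateField k Ω) : Prop :=
  B ≤ X ∧ V ≤ X ∧ ∀ Y Q : IntermediateField k Ω, CurveProd Y → Indep X Y → Fin' Q →
    Gal (V ⊔ Y) Q → Iitaka (B ⊔ Y) (X ⊔ Q)

/-- `Over` in terms of the numbers of independent forms -/
def OverC (B V X : IntermediateField k Ω) : Prop :=
  B ≤ X ∧ V ≤ X ∧ ∀ Y Q : IntermediateField k Ω, CurveProd Y → Indep X Y → Fin' Q →
    Gal (V ⊔ Y) Q → ∀ b c : ℕ, KodairaGE k B b → KGE (B ⊔ Y) (X ⊔ Q) c →
      KodairaGE k (X ⊔ Q : IntermediateField k Ω) (b + c + dimension k Y)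

section

variable [CharZero k] [IsAlgClosed k]

theorem over_iff {B V X : IntermediateField k Ω} (hX : Fin' X) :
    Over B V X ↔ OverC B V X := by
  constructor
  · rintro ⟨hBX, hVX, h⟩
    refine ⟨hBX, hVX, fun Y Q hY hi hQ hG b c hb hc => ?_⟩
    have hB : Fin' B := fin_le hX hBX
    have h1 := (h Y Q hY hi hQ hG).ge (fin_sup hX hQ)
      (kge_prod hB hY.fin (hi.mono_left hX hY.fin hBX) hb hY.kod) hc
    exact kge_mono (by omega) h1
  · rintro ⟨hBX, hVX, h⟩
    refine ⟨hBX, hVX, fun Y Q hY hi hQ hG => ?_⟩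
    have hB : Fin' B := fin_le hX hBX
    refine iitaka_of (fin_sup hX hQ) (fin_sup hB hY.fin) fun b c hb hc => ?_
    obtain ⟨a, a', hab, ha, ha'⟩ := kge_prod_upper' hB hY.fin (hi.mono_left hX hY.fin hBX) hb
    haveI : Algebra.EssFiniteType k Y := hY.fin
    have h3 := ha'.le_dimension
    exact kge_mono (by omega) (h Y Q hY hi hQ hG a c ha hc)

omit [IsAlgClosed k] in
theorem over_self {B V : IntermediateField k Ω} : Over B V V ↔ StableFib B V := by
  constructor
  · rintro ⟨h1, -, h⟩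
    refine ⟨h1, fun Y Q hY hi hQ hG => ?_⟩
    have h2 := h Y Q hY hi hQ hG
    rwa [sup_eq_right.2 (le_sup_left.trans hG.le)] at h2
  · rintro ⟨h1, h⟩
    refine ⟨h1, le_rfl, fun Y Q hY hi hQ hG => ?_⟩
    rw [sup_eq_right.2 (le_sup_left.trans hG.le)]
    exact h Y Q hY hi hQ hG

end

omit [Algebra k Ω] in
/-- Iitaka's inequality for the covers which come from `V` -/
theorem Over.cover [Algebra k Ω] {B V X P : IntermediateField k Ω} (h : Over B V X)
    (hP : Fin' P) (hG : Gal V P) : Iitaka B (X ⊔ P) := by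
  have h1 := h.2.2 ⊥ P curveProd_bot indep_bot hP (by rw [sup_bot_eq]; exact hG)
  rwa [sup_bot_eq] at h1

theorem Over.iitaka {B V X : IntermediateField k Ω} (h : Over B V X) (hX : Fin' X) :
    Iitaka B X := by
  have h1 := h.cover (fin_le hX h.2.1) gal_refl
  rwa [sup_eq_left.2 h.2.1] at h1

theorem OverC.ge {B V X P : IntermediateField k Ω} (h : OverC B V X) (hP : Fin' P)
    (hG : Gal V P) {b c : ℕ} (hb : KodairaGE k B b) (hc : KGE B (X ⊔ P) c) :
    KodairaGE k (X ⊔ P : IntermediateField k Ω) (b + c) := by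
  have h1 := h.2.2 ⊥ P curveProd_bot indep_bot hP (by rw [sup_bot_eq]; exact hG) b c hb
    (by rw [sup_bot_eq]; exact hc)
  rwa [dim_bot, add_zero] at h1

theorem gal_sup_base {F Q F' : IntermediateField k Ω} (h : Gal F Q) (hF : F ≤ F') :
    Gal F' (F' ⊔ Q) := by
  have h1 := h.base F' hF
  rwa [sup_comm] at h1

/-- base change -/
theorem OverC.base [CharZero k] [IsAlgClosed k] {B V X : IntermediateField k Ω}
    (h : OverC B V X) (hX : Fin' X) {Y Q : IntermediateField k Ω} (hY : CurveProd Y)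
    (hi : Indep X Y) (hQ : Fin' Q) (hG : Gal (V ⊔ Y) Q) : OverC (B ⊔ Y) (V ⊔ Y) (X ⊔ Q) := by
  have hYQ : Y ≤ Q := le_sup_right.trans hG.le
  refine ⟨sup_le_sup h.1 hYQ, sup_le_sup h.2.1 hYQ, fun Y' Q' hY' hi' hQ' hG' b c hb hc => ?_⟩
  have hYf := hY.fin
  have hYf' := hY'.fin
  have hB : Fin' B := fin_le hX h.1
  obtain ⟨b₀, b₁, hbb, hb₀, hb₁⟩ := kge_prod_upper' hB hYf (hi.mono_left hX hYf h.1) hb
  haveI : Algebra.EssFiniteType k Y := hYf
  have hb₁' := hb₁.le_dimension
  have hXQ : Fin' (X ⊔ Q) := fin_sup hX hQ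
  have iYY : Indep Y Y' := hi'.mono_left hXQ hYf' (hYQ.trans le_sup_right)
  have e1 : dimension k (Y ⊔ Y' : IntermediateField k Ω) = dimension k Y + dimension k Y' := iYY
  have iXYY : Indep X (Y ⊔ Y') := by
    have e2 : dimension k ((X ⊔ Y) ⊔ Y' : IntermediateField k Ω) =
        dimension k (X ⊔ Y : IntermediateField k Ω) + dimension k Y' :=
      hi'.mono_left hXQ hYf' (sup_le_sup_left hYQ X)
    have e3 : dimension k (X ⊔ Y : IntermediateField k Ω) = dimension k X + dimension k Y := hi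
    unfold Indep
    rw [← sup_assoc]
    omega
  have hle : (V ⊔ Y) ⊔ Y' ≤ Q' := hG'.le
  have hGQ : Gal (V ⊔ (Y ⊔ Y')) (Q ⊔ Q') := by
    rw [← sup_assoc]
    have h1 := (gal_sup_base hG (le_sup_left : V ⊔ Y ≤ (V ⊔ Y) ⊔ Y')).sup hG'
    have h2 : ((V ⊔ Y) ⊔ Y' ⊔ Q) ⊔ Q' = Q ⊔ Q' := by
      refine le_antisymm (sup_le (sup_le (hle.trans le_sup_right) le_sup_left) le_sup_right)
        (sup_le (le_sup_right.trans le_sup_left) le_sup_right)
    rwa [h2] at h1
  have h3 := h.2.2 (Y ⊔ Y') (Q ⊔ Q') (hY.sup hY' iYY) iXYY (fin_sup hQ hQ') hGQ b₀ c hb₀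
    (by rw [← sup_assoc, ← sup_assoc]; exact hc)
  rw [← sup_assoc] at h3
  exact kge_mono (by omega) h3

/-- the closure of `OverC` under fibre spaces with Iitaka's inequality over all bases -/
theorem OverC.of_top [CharZero k] [IsAlgClosed k] {B V X E : IntermediateField k Ω}
    (h : OverC B V X) (hX : Fin' X) (hE : Fin' E) (h0 : KodairaGE k X 0) (hXE : X ≤ E)
    (hcore : ∀ Y Q : IntermediateField k Ω, CurveProd Y → Indep E Y → Fin' Q → Gal (V ⊔ Y) Q →
      OverC (B ⊔ Y) (V ⊔ Y) (X ⊔ Q) → KodairaGE k (X ⊔ Q : IntermediateField k Ω) 0 →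
      ∀ b c : ℕ, KodairaGE k (B ⊔ Y : IntermediateField k Ω) b → KGE (B ⊔ Y) (E ⊔ Q) c →
        KodairaGE k (E ⊔ Q : IntermediateField k Ω) (b + c)) : OverC B V E := by
  refine ⟨h.1.trans hXE, h.2.1.trans hXE, fun Y Q hY hi hQ hG b c hb hc => ?_⟩
  have hYf := hY.fin
  have hB : Fin' B := fin_le hX h.1
  have iXY : Indep X Y := hi.mono_left hE hYf hXE
  have h1 : KodairaGE k (X ⊔ Q : IntermediateField k Ω) 0 := by
    have h2 : KodairaGE k (X ⊔ Y : IntermediateField k Ω) 0 :=
      kge_prod hX hYf iXY h0 (Diag.ge_zero' hY.kod)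
    refine kge_pull' (fin_sup hX hQ) (sup_le_sup_left (le_sup_right.trans hG.le) X)
      (alg_iff.2 (sup_le (le_sup_left.trans le_cl) ?_)) h2
    exact (alg_iff.1 hG.alg).trans (cl_mono (sup_le_sup_right h.2.1 Y))
  have h3 := hcore Y Q hY hi hQ hG (h.base hX hY iXY hQ hG) h1 (b + dimension k Y) c
    (kge_prod hB hYf (iXY.mono_left hX hYf h.1) hb hY.kod) hc
  exact kge_mono (by omega) h3

section

variable [CharZero k] [IsAlgClosed k] [IsAlgClosed Ω]

/-- isotrivial fibre spaces `X' = (G × X ×_V P₀)/H`, `P₀` a finite Galois cover of `V` -/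
theorem OverC.isotrivial {B V X X₁ X' G P₀ : IntermediateField k Ω} (hO : OverC B V X)
    (h0 : KodairaGE k X 0) (hG₀ : Gal V P₀) (hXX : X ≤ X₁)
    (h : Step X₁ X' G (X ⊔ P₀)) : OverC B V X' := by
  have hP₀ : Fin' P₀ := fin_le h.fgP le_sup_right
  have hX : Fin' X := fin_le h.fgP le_sup_left
  have hXX' : X ≤ X' := hXX.trans h.le_E
  have hX' : Fin' X' := h.finE
  have hP₀cl : P₀ ≤ cl X := (alg_iff.1 hG₀.alg).trans (cl_mono hO.2.1)
  refine ⟨hO.1.trans hXX', hO.2.1.trans hXX', fun Y Q hY hi hQ hG b c hb hc => ?_⟩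
  have hYf := hY.fin
  have hYQ : Y ≤ Q := le_sup_right.trans hG.le
  have hVQ : V ≤ Q := le_sup_left.trans hG.le
  set P : IntermediateField k Ω := X ⊔ P₀ with hP
  have hi' : Indep (G ⊔ P) Y := hi.up h.finN hYf h.le (alg_iff.1 h.alg)
  -- the cover of `V·Y`
  have hG' : Gal (V ⊔ Y) (Q ⊔ P₀) := by
    have h1 := hG.sup (gal_sup_base hG₀ (le_sup_left : V ≤ V ⊔ Y))
    have h2 : Q ⊔ (V ⊔ Y ⊔ P₀) = Q ⊔ P₀ :=
      le_antisymm (sup_le le_sup_left (sup_le (hG.le.trans le_sup_left) le_sup_right))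
        (sup_le le_sup_left (le_sup_right.trans le_sup_right))
    rwa [h2] at h1
  have hQP : Fin' (Q ⊔ P₀) := fin_sup hQ hP₀
  set T : IntermediateField k Ω := X ⊔ (Q ⊔ P₀) with hT
  have hTf : Fin' T := fin_sup hX hQP
  have hN : (X' ⊔ Q) ⊔ (G ⊔ P) = G ⊔ T := by
    refine le_antisymm (sup_le (sup_le (h.le.trans ?_) ?_) ?_) (sup_le ?_ ?_)
    · exact sup_le le_sup_left ((sup_le_sup_left le_sup_right X).trans le_sup_right)
    · exact (le_sup_left.trans le_sup_right).trans le_sup_right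
    · exact sup_le le_sup_left ((sup_le_sup_left le_sup_right X).trans le_sup_right)
    · exact le_sup_left.trans le_sup_right
    · refine sup_le ?_ (sup_le (le_sup_right.trans le_sup_left) ?_)
      · exact (le_sup_left.trans le_sup_right).trans le_sup_right
      · exact (le_sup_right.trans le_sup_right).trans le_sup_right
  have hTcl : T ≤ cl (X ⊔ Y) := by
    refine sup_le (le_sup_left.trans le_cl) (sup_le ?_ (hP₀cl.trans (cl_mono le_sup_left)))
    exact (alg_iff.1 hG.alg).trans (cl_mono (sup_le_sup_right hO.2.1 Y))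
  have hXYT : X ⊔ Y ≤ T := sup_le_sup_left (hYQ.trans le_sup_left) X
  have iGT : Indep G T := by
    have e1 : dimension k (G ⊔ P : IntermediateField k Ω) = dimension k G + dimension k P := h.indep
    have e2 : dimension k ((G ⊔ X) ⊔ Y : IntermediateField k Ω) =
        dimension k (G ⊔ X : IntermediateField k Ω) + dimension k Y :=
      hi'.mono_left h.finN hYf (sup_le_sup_left le_sup_left G)
    have iGX : Indep G X := (h.indep : Indep G P).mono h.fgM h.fgP le_rfl le_sup_left
    have e3 : dimension k (G ⊔ X : IntermediateField k Ω) = dimension k G + dimension k X := iGX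
    have iXY : Indep X Y := hi'.mono_left h.finN hYf (le_sup_left.trans le_sup_right)
    have e4 : dimension k (X ⊔ Y : IntermediateField k Ω) = dimension k X + dimension k Y := iXY
    have h1 : Indep (X ⊔ Y) G := by
      have e5 : (X ⊔ Y) ⊔ G = (G ⊔ X) ⊔ Y := by
        rw [sup_comm (X ⊔ Y) G, sup_assoc]
      unfold Indep
      rw [e5]
      omega
    exact (h1.up hTf h.fgM hXYT hTcl).symm
  have iXY : Indep X Y := hi'.mono_left h.finN hYf (le_sup_left.trans le_sup_right)
  -- the upper bound over `B·Y`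
  have hQ' : Fin' (X' ⊔ Q) := fin_sup hX' hQ
  have hNf : Fin' (G ⊔ T) := fin_sup h.fgM hTf
  have hcN : KGE (B ⊔ Y) (G ⊔ T) c := by
    rw [← hN]
    refine kge_pull (fin_sup hQ' h.finN) le_sup_left ?_ hc
    exact alg_iff.2 (sup_le le_cl ((alg_iff.1 h.alg).trans (cl_mono le_sup_left)))
  have hBT : B ⊔ Y ≤ T := (sup_le_sup_right hO.1 Y).trans hXYT
  obtain ⟨a, b', hab, ha, hb'⟩ : ∃ a b' : ℕ, c ≤ a + b' ∧ KGE (B ⊔ Y) T a ∧
      KodairaGE k G b' := by
    haveI f1 : Fact (B ⊔ Y ≤ T) := ⟨hBT⟩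
    haveI f2 : Fact (T ≤ G ⊔ T) := ⟨le_sup_right⟩
    haveI f3 : Fact (G ≤ G ⊔ T) := ⟨le_sup_left⟩
    haveI : Algebra.EssFiniteType k (G ⊔ T : IntermediateField k Ω) := hNf
    haveI : Algebra.EssFiniteType k T := hTf
    haveI : Algebra.EssFiniteType k G := h.fgM
    haveI : Algebra.EssFiniteType k (B ⊔ Y : IntermediateField k Ω) := fin_le hTf hBT
    obtain ⟨f4, hcN⟩ := hcN
    haveI : CharZero (B ⊔ Y : IntermediateField k Ω) :=
      charZero_of_injective_algebraMap
        (algebraMap k (B ⊔ Y : IntermediateField k Ω)).injective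
    haveI : CharZero T := charZero_of_injective_algebraMap (algebraMap k T).injective
    haveI : CharZero G := charZero_of_injective_algebraMap (algebraMap k G).injective
    obtain ⟨a, b', hab, ha, hb'⟩ := Diag.upper (k := k) (B := (B ⊔ Y : IntermediateField k Ω))
      (C := T) (G := G) (N := (G ⊔ T : IntermediateField k Ω))
      ⟨by
        have h5 : dimension k (G ⊔ T : IntermediateField k Ω) = dimension k G + dimension k T := iGT
        omega, by
        rw [_root_.eq_top_iff]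
        rintro x -
        exact isCompositum (A := T) (B := G) (Z := (G ⊔ T : IntermediateField k Ω))
          (by rw [sup_comm]) x⟩
      Dq.closedIn_of_isAlgClosed Dq.closedIn_of_isAlgClosed hcN
    exact ⟨a, b', by omega, ⟨f1, ha⟩, hb'⟩
  have h1 := hO.2.2 Y (Q ⊔ P₀) hY iXY hQP hG' b a hb ha
  have h2 : KodairaGE k (G ⊔ T : IntermediateField k Ω) (b' + (b + a + dimension k Y)) :=
    kge_prod h.fgM hTf iGT hb' h1
  have hX₁ : KodairaGE k X₁ 0 := by
    refine kge_pull' h.finV hXX (alg_iff.2 (h.le_P.trans ?_)) h0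
    exact sup_le le_cl hP₀cl
  have hGal : Gal (X' ⊔ Y) (X' ⊔ Q) := by
    have h3 := gal_sup_base hG (sup_le_sup_right (hO.2.1.trans hXX') Y)
    have h4 : X' ⊔ Y ⊔ Q = X' ⊔ Q := by
      rw [sup_assoc, sup_eq_right.2 hYQ]
    rwa [h4] at h3
  have h3 := descend h hYf hi' hQ' hGal hX₁ (Diag.ge_zero' hb') (Diag.ge_zero' hY.kod)
    (c := b' + (b + a + dimension k Y)) (by rw [hN]; exact h2)
  exact kge_mono (by omega) h3

end

/-- algebraic independence is preserved by independent extensions of the base field -/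
theorem trans_of_indep {X E Y : IntermediateField k Ω} (hE : Fin' E) (hY : Fin' Y) (hXE : X ≤ E)
    (hi : Indep E Y) {x : Ω} (hxE : x ∈ E) (hx : Transcendental X x) :
    Transcendental (X ⊔ Y : IntermediateField k Ω) x := by
  intro h
  have hX : Fin' X := fin_le hE hXE
  set T : IntermediateField k Ω := X ⊔ IntermediateField.adjoin k {x} with hT
  have hxT : x ∈ T := (le_sup_right : _ ≤ T) (IntermediateField.subset_adjoin k _ rfl)
  have hXT : X ≤ T := le_sup_left
  have hTE : T ≤ E := sup_le hXE (by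
    rw [IntermediateField.adjoin_le_iff, Set.singleton_subset_iff]; exact hxE)
  have hTf : Fin' T := fin_le hE hTE
  haveI f1 : Fact (X ≤ T) := ⟨hXT⟩
  haveI : Algebra.EssFiniteType k T := hTf
  haveI : Algebra.EssFiniteType X T := Algebra.EssFiniteType.of_comp k X T
  have iTY : dimension k (T ⊔ Y : IntermediateField k Ω) = dimension k T + dimension k Y :=
    hi.mono_left hE hY hTE
  have h2 := dim_add (A := X) (B := T) hTf
  have h3 : 1 ≤ dimension X T := by
    have h4 : Transcendental X (⟨x, hxT⟩ : T) := fun h => hx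
      ((isAlgebraic_algebraMap_iff (R := X) (A := Ω) (S := T)
        (algebraMap T Ω).injective).2 h)
    have h5 : AlgebraicIndependent X (fun _ : Fin 1 => (⟨x, hxT⟩ : T)) :=
      algebraicIndependent_unique_type_iff.mpr h4
    have h6 := h5.lift_cardinalMk_le_trdeg
    rw [← trdeg_eq_dimension] at h6
    simp only [Cardinal.mk_fintype, Fintype.card_fin, Nat.cast_one, Cardinal.lift_one,
      Cardinal.lift_natCast] at h6
    exact_mod_cast h6
  have h4 : dimension k (T ⊔ Y : IntermediateField k Ω) =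
      dimension k (X ⊔ Y : IntermediateField k Ω) := by
    refine dim_eq (fin_sup hTf hY) (sup_le_sup_right hXT Y) (alg_iff.2 (sup_le (sup_le ?_ ?_) ?_))
    · exact le_sup_left.trans le_cl
    · rw [IntermediateField.adjoin_le_iff, Set.singleton_subset_iff]
      exact mem_cl.2 h
    · exact le_sup_right.trans le_cl
  have h5 := dim_sup_le hX hY
  omega

end Pf72953.Tow
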