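import Mathlib
import Pool.Agent.Lib.Pf72953j.Step
import Pool.Agent.Lib.Pf72953g.Upper

/-!
Towers of isotrivial fibre spaces: the theorem.
-/

set_option autoImplicit false
set_option linter.style.haveILetI false

open scoped WithZero
open Pf72953 Pf72953.Mov

namespace Pf72953.Tow

variable {k Ω : Type*} [Field k] [Field Ω] [Algebra k Ω]

theorem mem_bot_exists (x : (⊥ : IntermediateField k Ω)) :
    ∃ a : k, algebraMap k (⊥ : IntermediateField k Ω) a = x := by
  obtain ⟨a, ha⟩ := IntermediateField.mem_bot.1 x.2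
  exact ⟨a, Subtype.ext ha⟩

/-- the point -/
noncomputable def pointModel : SmoothModel k (⊥ : IntermediateField k Ω) where
  I := Unit
  finite := inferInstance
  A := fun _ => ⊤
  x := fun _ _ => 0
  fg := fun _ => ⟨∅, by
    rw [Finset.coe_empty, Algebra.adjoin_empty, eq_comm, _root_.eq_bot_iff]
    rintro x -
    obtain ⟨a, rfl⟩ := mem_bot_exists x
    exact Subalgebra.algebraMap_mem _ a⟩
  frac := fun _ f => ⟨f, trivial, 1, trivial, one_ne_zero, by simp⟩
  tb := fun _ => by
    haveI : Algebra.EssFiniteType k (⊥ : IntermediateField k Ω) := fin_bot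
    obtain ⟨x, hx⟩ := exists_tb k (⊥ : IntermediateField k Ω)
    haveI : IsEmpty (Fin (dimension k (⊥ : IntermediateField k Ω))) := by
      rw [dim_bot]
      infer_instance
    have hx0 : (fun _ => 0 : Fin (dimension k (⊥ : IntermediateField k Ω)) →
        (⊥ : IntermediateField k Ω)) = x := funext fun i => isEmptyElim i
    exact hx0 ▸ hx
  mem := fun _ _ => trivial
  der := fun _ _ _ _ _ => trivial
  cover := fun v hv => ⟨(), fun f _ => by
    obtain ⟨a, rfl⟩ := mem_bot_exists f
    rcases eq_or_ne a 0 with rfl | ha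
    · simp
    · exact (hv a ha).le⟩

section

variable [CharZero k]

theorem kge_bot : KodairaGE k (⊥ : IntermediateField k Ω) 0 := by
  haveI : FiniteDimensional k (⊥ : IntermediateField k Ω) := inferInstance
  exact Can.kodairaGE_pull (B := k) (E := k) (L := (⊥ : IntermediateField k Ω))
    (PF.kodairaGE_self k)

theorem kge_bot' : KodairaGE k (⊥ : IntermediateField k Ω)
    (dimension k (⊥ : IntermediateField k Ω)) := by
  rw [dim_bot]
  exact kge_bot

omit [CharZero k] in
theorem indep_bot {A : IntermediateField k Ω} : Indep A ⊥ := by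
  unfold Indep
  rw [sup_bot_eq, dim_bot, add_zero]

theorem stable_refl {B : IntermediateField k Ω} (hB : Fin' B) : Stable B B := by
  refine ⟨le_rfl, fun Y Q hY _ hBY hYgt hQ hG b c hb hc => ?_⟩
  obtain ⟨f1, hc⟩ := hc
  haveI : Algebra.EssFiniteType k Q := hQ
  haveI : Algebra.EssFiniteType (B ⊔ Y : IntermediateField k Ω) Q :=
    Algebra.EssFiniteType.of_comp k _ Q
  have h0 : c = 0 := by
    have h1 := hc.le_dimension
    have h2 := dim_add (A := B ⊔ Y) hQ
    have h3 := dim_eq hQ hG.le hG.alg
    omega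
  rw [h0, add_zero]
  exact kge_pull' hQ hG.le hG.alg (kge_prod hB hY hBY hb hYgt)

end

section

variable [CharZero k] [IsAlgClosed k] [IsAlgClosed Ω]

/-- the top step -/
theorem top_step {B V V' E G P : IntermediateField k Ω} (hS : Stable B V) (hV : KodairaGE k V 0)
    (hVP : Gal V P) (hV' : V ≤ V') (h : Step V' E G P) {b c : ℕ} (hb : KodairaGE k B b)
    (hc : KGE B E c) : KodairaGE k E (b + c) := by
  set N : IntermediateField k Ω := G ⊔ P with hN
  have hfN : Fin' N := h.finN
  have hBV : B ≤ V := hS.1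
  have hBP : B ≤ P := (hBV.trans hV').trans h.le_P
  haveI f1 : Fact (B ≤ P) := ⟨hBP⟩
  haveI f2 : Fact (P ≤ N) := ⟨le_sup_right⟩
  haveI f3 : Fact (G ≤ N) := ⟨le_sup_left⟩
  haveI : Algebra.EssFiniteType k N := hfN
  haveI : Algebra.EssFiniteType k P := h.fgP
  haveI : Algebra.EssFiniteType k G := h.fgM
  haveI : Algebra.EssFiniteType k B := fin_le h.fgP hBP
  obtain ⟨f4, hcN⟩ := kge_pull hfN h.le h.alg hc
  haveI : CharZero B := charZero_of_injective_algebraMap (algebraMap k B).injective
  haveI : CharZero P := charZero_of_injective_algebraMap (algebraMap k P).injective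
  haveI : CharZero G := charZero_of_injective_algebraMap (algebraMap k G).injective
  obtain ⟨a, b', hab, ha, hb'⟩ := Diag.upper (k := k) (B := B) (C := P) (G := G) (N := N)
    ⟨by
      have h5 : dimension k N = dimension k G + dimension k P := h.indep
      omega, by
      rw [_root_.eq_top_iff]
      rintro x -
      exact isCompositum (A := P) (B := G) (Z := N) (by rw [hN, sup_comm]) x⟩
    Dq.closedIn_of_isAlgClosed Dq.closedIn_of_isAlgClosed hcN
  have h1 : KodairaGE k P (b + a + dimension k (⊥ : IntermediateField k Ω)) := by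
    refine hS.2 ⊥ P fin_bot ⟨pointModel⟩ indep_bot kge_bot' h.fgP ?_ b a hb ?_
    · rw [sup_bot_eq]
      exact hVP
    · rw [sup_bot_eq]
      exact ⟨f1, ha⟩
  rw [dim_bot, add_zero] at h1
  have hV'0 : KodairaGE k V' 0 := kge_pull' h.finV hV'
    (fun x hx => hVP.alg x (h.le_P hx)) hV
  have h2 : KodairaGE k N (b' + (b + a)) := kge_prod h.fgM h.fgP h.indep hb' h1
  have h3 : KodairaGE k E (b' + (b + a)) := by
    refine descend h fin_bot indep_bot h.finE ?_ hV'0 (Diag.ge_zero' hb') kge_bot ?_
    · rw [sup_bot_eq]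
      exact ⟨le_rfl, fun x hx => alg_of_mem hx, fun σ hσ x hx => by rw [hσ x hx]; exact hx⟩
    · rw [sup_eq_right.2 h.le]
      exact h2
  exact kge_mono (by omega) h3

/-- a tower of isotrivial fibre spaces over `V₀`, with fibres `M` such that `κ(M) ≥ 0` and `ProductPic` -/
inductive Tower (V₀ : IntermediateField k Ω) : IntermediateField k Ω → Prop
  | base : Tower V₀ V₀
  | step {V E M P M' : IntermediateField k Ω} : Tower V₀ V → Step V E M P → KodairaGE k M 0 →
      ProductPic M → Nonempty (SmoothModel k P) → Fin' M' → Gal M M' →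
      KodairaGE k M' (dimension k M') → Nonempty (SmoothModel k M') → Tower V₀ E

theorem Tower.stable {B V₀ V : IntermediateField k Ω} (hT : Tower V₀ V) (hS : Stable B V₀)
    (hV₀ : KodairaGE k V₀ 0) : Stable B V ∧ KodairaGE k V 0 := by
  induction hT with
  | base => exact ⟨hS, hV₀⟩
  | step _ h hM hMM PM hM' hG hgt M'M ih =>
    refine ⟨stable_step ih.1 h ih.2 hM hMM PM hM' hG hgt M'M, ?_⟩
    refine descend h fin_bot indep_bot h.finE ?_ ih.2 hM kge_bot ?_
    · rw [sup_bot_eq]
      exact ⟨le_rfl, fun x hx => alg_of_mem hx, fun σ hσ x hx => by rw [hσ x hx]; exact hx⟩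
    · rw [sup_eq_right.2 h.le]
      exact kge_prod h.fgM h.fgP h.indep hM (kge_pull' h.fgP h.le_P h.alg_P ih.2)

theorem tower {B V₀ V P G V' E : IntermediateField k Ω}
    (hS : Stable B V₀) (hV₀ : KodairaGE k V₀ 0) (hT : Tower V₀ V) (hVP : Gal V P)
    (hV' : V ≤ V') (h : Step V' E G P) {b c : ℕ} (hb : KodairaGE k B b) (hc : KGE B E c) :
    KodairaGE k E (b + c) :=
  top_step (hT.stable hS hV₀).1 (hT.stable hS hV₀).2 hVP hV' h hb hc

end

end Pf72953.Tow
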