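import Mathlib
import Pool.Agent.Lib.Pf72953j.Final

/-!
Towers of isotrivial fibre spaces: the class of stable fibre spaces.
-/

set_option autoImplicit false
set_option linter.style.haveILetI false

open scoped WithZero
open Pf72953 Pf72953.Mov

namespace Pf72953.Tow

variable {k Ω : Type*} [Field k] [Field Ω] [Algebra k Ω]

/-- the Kodaira dimension `κ(Q/A)` of the generic fibre, `A ⊆ Q ⊆ Ω` -/
noncomputable def relKod (A Q : IntermediateField k Ω) : WithBot ℕ∞ :=
  ⨆ (c : ℕ) (_ : KGE A Q c), ((c : ℕ∞) : WithBot ℕ∞)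

/-- Iitaka's inequality `κ(B) + κ(Q/B) ≤ κ(Q)` -/
def Iitaka (B Q : IntermediateField k Ω) : Prop :=
  kodairaDim k B + relKod B Q ≤ kodairaDim k Q

/-- `V → B` is stable: Iitaka's inequality holds for `Q → B × Y` for every smooth complete variety `Y` of general type and
every finite Galois cover `Q` of `V × Y`. -/
def StableFib (B V : IntermediateField k Ω) : Prop :=
  B ≤ V ∧ ∀ Y Q : IntermediateField k Ω, Fin' Y → Nonempty (SmoothModel k Y) → Indep V Y →
    kodairaDim k Y = dimension k Y → Fin' Q → Gal (V ⊔ Y) Q → Iitaka (B ⊔ Y) Q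

theorem relKod_cases {A Q : IntermediateField k Ω} (hQ : Fin' Q) :
    relKod A Q = ⊥ ∨ ∃ c : ℕ, KGE A Q c ∧ relKod A Q = ((c : ℕ∞) : WithBot ℕ∞) := by
  by_cases hA : A ≤ Q
  · haveI f : Fact (A ≤ Q) := ⟨hA⟩
    haveI : Algebra.EssFiniteType k Q := hQ
    haveI : Algebra.EssFiniteType A Q := Algebra.EssFiniteType.of_comp k A Q
    have h1 : relKod A Q = kodairaDim A Q := by
      unfold relKod kodairaDim
      refine le_antisymm (iSup₂_le fun c hc => ?_) (iSup₂_le fun c hc => ?_)
      · obtain ⟨_, hc⟩ := hc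
        exact le_iSup₂_of_le c hc le_rfl
      · exact le_iSup₂_of_le c (⟨f, hc⟩ : KGE A Q c) le_rfl
    rw [h1]
    rcases kodairaDim_eq (k := A) (K := Q) with h | ⟨c, hc, h⟩
    · exact Or.inl h
    · exact Or.inr ⟨c, ⟨f, hc⟩, h⟩
  · left
    unfold relKod
    refine le_antisymm (iSup₂_le fun c hc => absurd hc.1.out hA) bot_le

theorem iitaka_of {B Q : IntermediateField k Ω} (hQ : Fin' Q) (hB : Fin' B)
    (h : ∀ b c : ℕ, KodairaGE k B b → KGE B Q c → KodairaGE k Q (b + c)) : Iitaka B Q := by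
  unfold Iitaka
  haveI : Algebra.EssFiniteType k B := hB
  rcases kodairaDim_eq (k := k) (K := B) with h1 | ⟨b, hb, h1⟩
  · rw [h1, WithBot.bot_add]; exact bot_le
  rcases relKod_cases (A := B) hQ with h2 | ⟨c, hc, h2⟩
  · rw [h2, WithBot.add_bot]; exact bot_le
  rw [h1, h2]
  refine le_trans (le_of_eq ?_) (le_iSup₂_of_le (b + c) (h b c hb hc) le_rfl)
  push_cast
  rfl

theorem Iitaka.ge [CharZero k] {B Q : IntermediateField k Ω} (hQ : Fin' Q) (h : Iitaka B Q) {b c : ℕ}
    (hb : KodairaGE k B b) (hc : KGE B Q c) : KodairaGE k Q (b + c) := by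
  haveI : Algebra.EssFiniteType k Q := hQ
  refine kge_of_le (le_trans ?_ h)
  refine le_trans (le_of_eq ?_) (add_le_add (le_iSup₂_of_le b hb le_rfl)
    (le_iSup₂_of_le c hc le_rfl))
  push_cast
  rfl

theorem kod_eq_dim [CharZero k] {Y : IntermediateField k Ω} (hY : Fin' Y) :
    kodairaDim k Y = dimension k Y ↔ KodairaGE k Y (dimension k Y) := by
  haveI : Algebra.EssFiniteType k Y := hY
  constructor
  · intro h
    exact kge_of_le (by rw [h]; rfl)
  · intro h
    refine le_antisymm (iSup₂_le fun c hc => ?_) (le_iSup₂_of_le (dimension k Y) h le_rfl)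
    have := hc.le_dimension
    exact_mod_cast this

/-- `κ(B × Y) ≤ κ(B) + dim Y` -/
theorem kge_prod_upper [CharZero k] [IsAlgClosed k] {A Y : IntermediateField k Ω} (hA : Fin' A)
    (hY : Fin' Y) (hi : Indep A Y) {c : ℕ} (hc : KodairaGE k (A ⊔ Y : IntermediateField k Ω) c) :
    ∃ a : ℕ, c ≤ a + dimension k Y ∧ KodairaGE k A a := by
  haveI : Algebra.EssFiniteType k A := hA
  haveI : Algebra.EssFiniteType k Y := hY
  haveI : Algebra.EssFiniteType k (A ⊔ Y : IntermediateField k Ω) := fin_sup hA hY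
  haveI f1 : Fact (A ≤ A ⊔ Y) := ⟨le_sup_left⟩
  haveI f2 : Fact (Y ≤ A ⊔ Y) := ⟨le_sup_right⟩
  haveI : CharZero A := charZero_of_injective_algebraMap (algebraMap k A).injective
  haveI : CharZero Y := charZero_of_injective_algebraMap (algebraMap k Y).injective
  obtain ⟨a, b, hab, ha, hb⟩ := Diag.upper (k := k) (B := k) (C := A) (G := Y)
    (N := (A ⊔ Y : IntermediateField k Ω))
    ⟨by
      have h5 : dimension k (A ⊔ Y : IntermediateField k Ω) = dimension k A + dimension k Y := hi
      omega, by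
      rw [_root_.eq_top_iff]
      rintro x -
      exact isCompositum (A := A) (B := Y) (Z := (A ⊔ Y : IntermediateField k Ω)) le_rfl x⟩
    Dq.closedIn_of_isAlgClosed Dq.closedIn_of_isAlgClosed hc
  refine ⟨a, ?_, ha⟩
  have := hb.le_dimension
  omega

theorem stableFib_iff [CharZero k] [IsAlgClosed k] {B V : IntermediateField k Ω} (hV : Fin' V) :
    StableFib B V ↔ Stable B V := by
  constructor
  · rintro ⟨hBV, h⟩
    refine ⟨hBV, fun Y Q hY YM hi hgt hQ hG b c hb hc => ?_⟩
    have hB : Fin' B := fin_le hV hBV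
    have h1 := (h Y Q hY YM hi ((kod_eq_dim hY).2 hgt) hQ hG).ge hQ
      (kge_prod hB hY (hi.mono_left hV hY hBV) hb hgt) hc
    exact kge_mono (by omega) h1
  · rintro ⟨hBV, h⟩
    refine ⟨hBV, fun Y Q hY YM hi hgt hQ hG => ?_⟩
    have hB : Fin' B := fin_le hV hBV
    refine iitaka_of hQ (fin_sup hB hY) fun b c hb hc => ?_
    obtain ⟨a, hab, ha⟩ := kge_prod_upper hB hY (hi.mono_left hV hY hBV) hb
    exact kge_mono (by omega) (h Y Q hY YM hi ((kod_eq_dim hY).1 hgt) hQ hG a c ha hc)

/-- `E → V` is a rigid isotrivial fibre space with the fibre `M`: `E = (M × P)/H`, `V = P/H` (`Step`), `κ(M) ≥ 0`, every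
branch divisor on a product `M × W` is of product type (`ProductPic`, true if `q(M) = 0`); `P` and some finite Galois cover
`M'` of general type of `M` have smooth complete models. -/
structure RigidStep [CharZero k] (V E M P : IntermediateField k Ω) : Prop extends Step V E M P where
  kod : kodairaDim k M ≠ ⊥
  pic : ProductPic M
  model : Nonempty (SmoothModel k P)
  cover : ∃ M' : IntermediateField k Ω, Fin' M' ∧ Gal M M' ∧ kodairaDim k M' = dimension k M' ∧
    Nonempty (SmoothModel k M')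

/-- `V` is a tower of rigid isotrivial fibre spaces over `V₀`. -/
inductive RigidTower [CharZero k] (V₀ : IntermediateField k Ω) : IntermediateField k Ω → Prop
  | base : RigidTower V₀ V₀
  | step {V E M P : IntermediateField k Ω} : RigidTower V₀ V → RigidStep V E M P → RigidTower V₀ E

section

variable [CharZero k] [IsAlgClosed k] [IsAlgClosed Ω]

omit [CharZero k] [IsAlgClosed k] [IsAlgClosed Ω] in
theorem kge_zero_iff {A : IntermediateField k Ω} (hA : Fin' A) :
    kodairaDim k A ≠ ⊥ ↔ KodairaGE k A 0 := by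
  haveI : Algebra.EssFiniteType k A := hA
  exact ⟨Diag.ge_zero_of_ne_bot, Diag.ne_bot_of_ge⟩

theorem RigidStep.stableFib {B V E M P : IntermediateField k Ω} (h : RigidStep V E M P)
    (hS : StableFib B V) (hV : kodairaDim k V ≠ ⊥) : StableFib B E ∧ kodairaDim k E ≠ ⊥ := by
  have h0 := h.toStep
  obtain ⟨M', hM', hG, hgt, hmod⟩ := h.cover
  have hM := (kge_zero_iff h0.fgM).1 h.kod
  have hV' := (kge_zero_iff h0.finV).1 hV
  refine ⟨(stableFib_iff h0.finE).2 (stable_step ((stableFib_iff h0.finV).1 hS) h0 hV' hM h.pic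
    h.model hM' hG ((kod_eq_dim hM').1 hgt) hmod), (kge_zero_iff h0.finE).2 ?_⟩
  refine descend h0 fin_bot indep_bot h0.finE ?_ hV' hM kge_bot ?_
  · rw [sup_bot_eq]
    exact ⟨le_rfl, fun x hx => alg_of_mem hx, fun σ hσ x hx => by rw [hσ x hx]; exact hx⟩
  · rw [sup_eq_right.2 h0.le]
    exact kge_prod h0.fgM h0.fgP h0.indep hM (kge_pull' h0.fgP h0.le_P h0.alg_P hV')

theorem RigidTower.stableFib {B V₀ V : IntermediateField k Ω} (hT : RigidTower V₀ V)
    (hS : StableFib B V₀) (hV₀ : kodairaDim k V₀ ≠ ⊥) : StableFib B V ∧ kodairaDim k V ≠ ⊥ := by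
  induction hT with
  | base => exact ⟨hS, hV₀⟩
  | step _ h ih => exact h.stableFib ih.1 ih.2

omit [IsAlgClosed Ω] in
theorem StableFib.refl {B : IntermediateField k Ω} (hB : Fin' B) : StableFib B B :=
  (stableFib_iff hB).2 (stable_refl hB)

omit [IsAlgClosed k] [IsAlgClosed Ω] in
/-- Galois covers -/
theorem StableFib.cover {B V Q : IntermediateField k Ω} (hS : StableFib B V) (hQ : Fin' Q)
    (hG : Gal V Q) : Iitaka B Q := by
  have h1 := hS.2 ⊥ Q fin_bot ⟨pointModel⟩ indep_bot
    ((kod_eq_dim fin_bot).2 kge_bot') hQ (by rw [sup_bot_eq]; exact hG)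
  rwa [sup_bot_eq] at h1

/-- isotrivial fibre spaces over Galois covers -/
theorem StableFib.isotrivial {B V V' E G P : IntermediateField k Ω} (hS : StableFib B V)
    (hV : kodairaDim k V ≠ ⊥) (hVP : Gal V P) (hV' : V ≤ V') (h : Step V' E G P) : Iitaka B E := by
  have hfV : Fin' V := fin_le h.fgP (hV'.trans h.le_P)
  exact iitaka_of h.finE (fin_le hfV hS.1) fun b c hb hc =>
    top_step ((stableFib_iff hfV).1 hS) ((kge_zero_iff hfV).1 hV) hVP hV' h hb hc

/-- **Iitaka's inequality for towers.** -/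
theorem RigidTower.iitaka {B V V' E G P : IntermediateField k Ω} (hB : Fin' B)
    (hT : RigidTower B V) (hVP : Gal V P) (hV' : V ≤ V') (h : Step V' E G P) : Iitaka B E := by
  by_cases h0 : kodairaDim k B = ⊥
  · unfold Iitaka
    rw [h0, WithBot.bot_add]
    exact bot_le
  · obtain ⟨h1, h2⟩ := hT.stableFib (StableFib.refl hB) h0
    exact h1.isotrivial h2 hVP hV' h

end

end Pf72953.Tow
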