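import Mathlib
import Pool.Agent.Lib.Pf72953j.Cls
import Pool.Agent.Lib.Pf72953r.Up

/-!
Towers of isotrivial fibre spaces: the known cases of Iitaka's conjecture give stable fibre spaces.
-/

set_option autoImplicit false
set_option linter.style.haveILetI false

open scoped WithZero
open Pf72953 Pf72953.Mov

namespace Pf72953.Tow

variable {k Ω : Type*} [Field k] [Field Ω] [Algebra k Ω]

/-- Iitaka's inequality for fibre spaces `Q → K` (`K` algebraically closed in `Q`) with fibres of dimension at most `d` -/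
def IitakaFibreDim (k Ω : Type*) [Field k] [Field Ω] [Algebra k Ω] (d : ℕ) : Prop :=
  ∀ K Q : IntermediateField k Ω, Fin' Q → K ≤ Q → (∀ x ∈ Q, IsAlgebraic K x → x ∈ K) →
    dimension k Q ≤ dimension k K + d → Iitaka K Q

/-- Iitaka's inequality for fibre spaces `Q → K` (`K` algebraically closed in `Q`) with fibres of general type -/
def IitakaGeneralType (k Ω : Type*) [Field k] [Field Ω] [Algebra k Ω] : Prop :=
  ∀ K Q : IntermediateField k Ω, Fin' Q → K ≤ Q → (∀ x ∈ Q, IsAlgebraic K x → x ∈ K) →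
    ∀ d : ℕ, dimension k Q = dimension k K + d → relKod K Q = d → Iitaka K Q

section

variable [CharZero k] [IsAlgClosed k]

/-- base change -/
theorem kge_up {A A' E Q : IntermediateField k Ω} (hQ : Fin' Q) (hA : A ≤ A') (hA' : A' ≤ Q)
    (hE : E ≤ Q) (halg : ∀ x ∈ Q, IsAlgebraic (A' ⊔ E : IntermediateField k Ω) x)
    (hdim : dimension k Q + dimension k A = dimension k A' + dimension k E) {c : ℕ}
    (h : KGE A E c) : KGE A' Q c := by
  obtain ⟨f0, h⟩ := h
  haveI f1 : Fact (A ≤ A') := ⟨hA⟩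
  haveI f2 : Fact (A' ≤ Q) := ⟨hA'⟩
  haveI f3 : Fact (E ≤ Q) := ⟨hE⟩
  haveI f4 : Fact (A ≤ Q) := ⟨hA.trans hA'⟩
  haveI : Algebra.EssFiniteType k Q := hQ
  haveI : Algebra.EssFiniteType k E := fin_le hQ hE
  haveI : Algebra.EssFiniteType k A' := fin_le hQ hA'
  haveI : Algebra.EssFiniteType A Q := Algebra.EssFiniteType.of_comp k A Q
  haveI : Algebra.EssFiniteType A' Q := Algebra.EssFiniteType.of_comp k A' Q
  haveI : Algebra.EssFiniteType A E := Algebra.EssFiniteType.of_comp k A E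
  haveI : CharZero A := charZero_of_injective_algebraMap (algebraMap k A).injective
  haveI : CharZero A' := charZero_of_injective_algebraMap (algebraMap k A').injective
  have e1 := dim_add (A := A) (B := A') (fin_le hQ hA')
  have e2 := dim_add (A := A) (B := E) (fin_le hQ hE)
  have e3 := dim_add (A := A) (B := Q) hQ
  obtain ⟨x, hx⟩ := exists_tb A E
  have hx' : IsTranscendenceBasis A' (fun i => algebraMap E Q (x i)) :=
    Up.tb_over (k := A) (κ := A') (Y := E) (L := Q) (by omega)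
      (fun a => alg_adjoin_up (alg_sup (A := A') (B := E) (Q := Q) halg a)) hx
  have h1 : kodairaDim A E ≤ kodairaDim A' Q := Red.kodairaDim_up A A' E Q hx hx'
  exact ⟨f2, kge_of_le ((le_iSup₂_of_le c h le_rfl : _ ≤ kodairaDim A E).trans h1)⟩

omit [CharZero k] [IsAlgClosed k] in
/-- the Stein factorization -/
theorem exists_stein {F Q : IntermediateField k Ω} (hQ : Fin' Q) (hF : F ≤ Q) :
    ∃ K : IntermediateField k Ω, F ≤ K ∧ K ≤ Q ∧ (∀ x ∈ Q, IsAlgebraic K x → x ∈ K) ∧
      (∀ x ∈ K, IsAlgebraic F x) ∧ dimension k K = dimension k F := by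
  have h1 : F ≤ cl F ⊓ Q := le_inf le_cl hF
  have h2 : ∀ x ∈ cl F ⊓ Q, IsAlgebraic F x := fun x hx => mem_cl.1 hx.1
  refine ⟨cl F ⊓ Q, h1, inf_le_right, fun x hxQ hx => ⟨?_, hxQ⟩, h2,
    dim_eq (fin_le hQ inf_le_right) h1 h2⟩
  exact cl_le (inf_le_left : cl F ⊓ Q ≤ cl F) (mem_cl.2 hx)

omit [IsAlgClosed k] in
theorem iitaka_of_stein {F K Q : IntermediateField k Ω} (hQ : Fin' Q) (hFK : F ≤ K) (hKQ : K ≤ Q)
    (halg : ∀ x ∈ K, IsAlgebraic F x) (h : Iitaka K Q) : Iitaka F Q :=
  iitaka_of hQ (fin_le hQ (hFK.trans hKQ)) fun _ _ hb hc =>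
    h.ge hQ (kge_pull' (fin_le hQ hKQ) hFK halg hb) ((kge_base hQ hFK hKQ halg).1 hc)

theorem stableFib_of_dim {d : ℕ} (hI : IitakaFibreDim k Ω d) {B V : IntermediateField k Ω}
    (hV : Fin' V) (hBV : B ≤ V) (hd : dimension k V ≤ dimension k B + d) : StableFib B V := by
  refine ⟨hBV, fun Y Q hYC hi hQ hG => ?_⟩
  have hY : Fin' Y := hYC.fin
  obtain ⟨K, h1, h2, h3, h4, h5⟩ := exists_stein (F := B ⊔ Y) hQ ((sup_le_sup_right hBV Y).trans hG.le)
  refine iitaka_of_stein hQ h1 h2 h4 (hI K Q hQ h2 h3 ?_)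
  have e1 : dimension k (V ⊔ Y : IntermediateField k Ω) = dimension k V + dimension k Y := hi
  have e2 : dimension k (B ⊔ Y : IntermediateField k Ω) = dimension k B + dimension k Y :=
    hi.mono_left hV hY hBV
  have e3 := dim_eq hQ hG.le hG.alg
  omega

theorem stableFib_of_general (hI : IitakaGeneralType k Ω) {B V : IntermediateField k Ω}
    (hV : Fin' V) (hBV : B ≤ V) {d : ℕ} (hd : dimension k V = dimension k B + d)
    (hVd : relKod B V = d) : StableFib B V := by
  refine ⟨hBV, fun Y Q hYC hi hQ hG => ?_⟩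
  have hY : Fin' Y := hYC.fin
  obtain ⟨K, h1, h2, h3, h4, h5⟩ := exists_stein (F := B ⊔ Y) hQ ((sup_le_sup_right hBV Y).trans hG.le)
  have e1 : dimension k (V ⊔ Y : IntermediateField k Ω) = dimension k V + dimension k Y := hi
  have e2 : dimension k (B ⊔ Y : IntermediateField k Ω) = dimension k B + dimension k Y :=
    hi.mono_left hV hY hBV
  have e3 := dim_eq hQ hG.le hG.alg
  refine iitaka_of_stein hQ h1 h2 h4 (hI K Q hQ h2 h3 d (by omega) ?_)
  have hVQ : V ≤ Q := le_sup_left.trans hG.le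
  have hYQ : Y ≤ Q := le_sup_right.trans hG.le
  have h6 : KGE B V d := by
    rcases relKod_cases (A := B) hV with h7 | ⟨c, hc, h7⟩
    · rw [h7] at hVd
      exact absurd hVd (by simp)
    · rw [h7] at hVd
      have h8 : c = d := by exact_mod_cast hVd
      rwa [h8] at hc
  have h7 : KGE (B ⊔ Y) Q d := by
    refine kge_up hQ le_sup_left ((sup_le_sup_right hBV Y).trans hG.le) hVQ ?_ ?_ h6
    · have h8 : (V ⊔ Y : IntermediateField k Ω) ≤ (B ⊔ Y) ⊔ V :=
        sup_le le_sup_right (le_sup_right.trans le_sup_left)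
      exact fun x hx => alg_mono h8 (hG.alg x hx)
    · omega
  have h8 : KGE K Q d := (kge_base hQ h1 h2 h4).1 h7
  refine le_antisymm (iSup₂_le fun c hc => ?_) (le_iSup₂_of_le d h8 le_rfl)
  obtain ⟨f, hc⟩ := hc
  haveI : Algebra.EssFiniteType k Q := hQ
  haveI : Algebra.EssFiniteType K Q := Algebra.EssFiniteType.of_comp k K Q
  have h9 := hc.le_dimension
  have h10 := dim_add (A := K) (B := Q) hQ
  have h11 : c ≤ d := by omega
  exact_mod_cast h11

end

end Pf72953.Tow
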